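import Pool.Agent.R377.Tate

/-!
Normalised traces in the cyclotomic tower over `Q_p`.
-/

set_option linter.unusedSectionVars false

namespace Pool.Agent.R377

open Pool.Agent.W292.FM Polynomial

variable {p : ℕ} [hp : Fact p.Prime]

/-- the average of the first `N` members of a family of automorphisms -/
noncomputable def avg (g : ℕ → Gal(PadicAlgCl p/ℚ_[p])) (N : ℕ) :
    PadicAlgCl p →ₗ[ℚ_[p]] PadicAlgCl p :=
  (N : ℚ_[p])⁻¹ • ∑ i ∈ Finset.range N, (g i).toLinearMap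

theorem avg_apply (g : ℕ → Gal(PadicAlgCl p/ℚ_[p])) (N : ℕ) (x : PadicAlgCl p) :
    avg g N x = (N : PadicAlgCl p)⁻¹ * ∑ i ∈ Finset.range N, g i x := by
  simp only [avg, LinearMap.smul_apply, LinearMap.sum_apply, AlgEquiv.toLinearMap_apply]
  rw [Algebra.smul_def, map_inv₀, map_natCast]

section

variable {g : ℕ → Gal(PadicAlgCl p/ℚ_[p])} {n k : ℕ} {z : PadicAlgCl p}
  (hz : IsPrimitiveRoot z (p ^ (n + 1 + k)))
  (hg : ∀ i < p ^ k, g i z = z ^ (1 + i * p ^ (n + 1)))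

include hz hg

open Classical in
theorem avg_pow (j : ℕ) : avg g (p ^ k) (z ^ j) = if z ^ (j * p ^ (n + 1)) = 1 then z ^ j else 0 := by
  have hN : ((p ^ k : ℕ) : PadicAlgCl p) ≠ 0 := by
    exact_mod_cast pow_ne_zero k hp.out.ne_zero
  have h1 : ∑ i ∈ Finset.range (p ^ k), g i (z ^ j) =
      z ^ j * ∑ i ∈ Finset.range (p ^ k), (z ^ (j * p ^ (n + 1))) ^ i := by
    rw [Finset.mul_sum]
    refine Finset.sum_congr rfl fun i hi => ?_
    rw [map_pow, hg i (Finset.mem_range.1 hi), ← pow_mul, ← pow_mul, ← pow_add]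
    congr 1
    ring
  rw [avg_apply, h1]
  split_ifs with h
  · rw [h]
    simp only [one_pow, Finset.sum_const, Finset.card_range, nsmul_eq_mul, mul_one]
    field_simp
  · have h2 : (z ^ (j * p ^ (n + 1))) ^ (p ^ k) = 1 := by
      rw [← pow_mul, mul_assoc, ← pow_add, mul_comm, pow_mul, hz.pow_eq_one, one_pow]
    have h3 := mul_geom_sum (z ^ (j * p ^ (n + 1))) (p ^ k)
    rw [h2, sub_self] at h3
    rw [(mul_eq_zero.1 h3).resolve_left (sub_ne_zero.2 h), mul_zero, mul_zero]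

theorem norm_avg_pow_le (j : ℕ) : ‖avg g (p ^ k) (z ^ j)‖ ≤ 1 := by
  rw [avg_pow hz hg]
  split_ifs
  · rw [norm_pow, norm_rootOfUnity (pow_ne_zero _ hp.out.ne_zero) hz.pow_eq_one, one_pow]
  · simp

theorem norm_avg_int_le (q : ℤ[X]) : ‖avg g (p ^ k) (aeval z q)‖ ≤ 1 := by
  rw [aeval_eq_sum_range, map_sum]
  refine IsUltrametricDist.norm_sum_le_of_forall_le_of_nonneg zero_le_one ?_
  intro i _
  rw [← Int.cast_smul_eq_zsmul ℚ_[p], map_smul, norm_smul]
  have h1 : ‖((q.coeff i : ℤ) : ℚ_[p])‖ ≤ 1 := Padic.norm_int_le_one _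
  have h2 := norm_avg_pow_le hz hg i
  calc ‖((q.coeff i : ℤ) : ℚ_[p])‖ * ‖avg g (p ^ k) (z ^ i)‖ ≤ 1 * 1 :=
        mul_le_mul h1 h2 (norm_nonneg _) zero_le_one
    _ = 1 := one_mul _

theorem norm_avg_le (x : PadicAlgCl p) (hx : x ∈ IntermediateField.adjoin ℚ_[p] {z}) :
    ‖avg g (p ^ k) x‖ ≤ p * ‖x‖ := by
  have hz' : IsPrimitiveRoot z (p ^ (n + k + 1)) := by
    rw [show n + k + 1 = n + 1 + k by ring]; exact hz
  have hint : IsIntegral ℚ_[p] z := Algebra.IsIntegral.isIntegral z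
  obtain ⟨f, hf, rfl⟩ : ∃ f : ℚ_[p][X], f.natDegree < Nat.totient (p ^ (n + k + 1)) ∧
      aeval z f = x := by
    rw [← IntermediateField.mem_toSubalgebra,
      IntermediateField.adjoin_simple_toSubalgebra_of_isAlgebraic hint.isAlgebraic,
      Algebra.adjoin_singleton_eq_range_aeval] at hx
    obtain ⟨f, rfl⟩ := hx
    refine ⟨f %ₘ minpoly ℚ_[p] z, ?_, ?_⟩
    · have h1 := natDegree_modByMonic_lt f (minpoly.monic hint) (minpoly.ne_one _ _)
      rw [minpoly_eq hz', natDegree_cyclotomic] at h1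
      rw [minpoly_eq hz']
      exact h1
    · change aeval z (f %ₘ minpoly ℚ_[p] z) = aeval z f
      rw [modByMonic_eq_sub_mul_div]
      simp
  have h1 : aeval z f = ∑ j ∈ Finset.range (Nat.totient (p ^ (n + k + 1))),
      (taylor 1 f).coeff j • (z - 1) ^ j := by
    rw [← aeval_taylor, aeval_eq_sum_range' (by rw [natDegree_taylor]; exact hf)]
  have h2 : ∀ j, ‖avg g (p ^ k) ((z - 1) ^ j)‖ ≤ 1 := by
    intro j
    have h3 : (z - 1) ^ j = aeval z ((X - 1 : ℤ[X]) ^ j) := by simp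
    rw [h3]
    exact norm_avg_int_le hz hg _
  have h4 : avg g (p ^ k) (aeval z f) = ∑ j ∈ Finset.range (Nat.totient (p ^ (n + k + 1))),
      (taylor 1 f).coeff j • avg g (p ^ k) ((z - 1) ^ j) := by
    rw [h1, map_sum]
    simp only [map_smul]
  have hnn : 0 ≤ (p : ℝ) * ‖aeval z f‖ := mul_nonneg (Nat.cast_nonneg _) (norm_nonneg _)
  rw [h4]
  refine IsUltrametricDist.norm_sum_le_of_forall_le_of_nonneg hnn ?_
  intro j hj
  rw [norm_smul]
  calc ‖(taylor 1 f).coeff j‖ * ‖avg g (p ^ k) ((z - 1) ^ j)‖ ≤ (p * ‖aeval z f‖) * 1 :=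
        mul_le_mul (norm_coeff_taylor hz' f hf j (Finset.mem_range.1 hj)) (h2 j) (norm_nonneg _) hnn
    _ = _ := mul_one _

theorem avg_gal (γ : Gal(PadicAlgCl p/ℚ_[p])) (d : ℕ) (hγ : γ z = z ^ (1 + p ^ (n + 1) * d))
    (x : PadicAlgCl p) (hx : x ∈ IntermediateField.adjoin ℚ_[p] {z}) :
    avg g (p ^ k) (γ x) = avg g (p ^ k) x := by
  have hint : IsIntegral ℚ_[p] z := Algebra.IsIntegral.isIntegral z
  rw [← IntermediateField.mem_toSubalgebra,
      IntermediateField.adjoin_simple_toSubalgebra_of_isAlgebraic hint.isAlgebraic,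
      Algebra.adjoin_singleton_eq_range_aeval] at hx
  obtain ⟨f, rfl⟩ := hx
  change avg g (p ^ k) (γ (aeval z f)) = avg g (p ^ k) (aeval z f)
  rw [aeval_eq_sum_range, map_sum, map_sum, map_sum]
  refine Finset.sum_congr rfl fun j _ => ?_
  have hs : γ (f.coeff j • z ^ j) = f.coeff j • γ (z ^ j) := by
    rw [Algebra.smul_def, map_mul, AlgEquiv.commutes, Algebra.smul_def]
  rw [hs, map_smul, map_smul, map_pow, hγ, ← pow_mul, avg_pow hz hg, avg_pow hz hg]
  congr 1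
  set y := z ^ (j * p ^ (n + 1)) with hy
  have e1 : z ^ ((1 + p ^ (n + 1) * d) * j * p ^ (n + 1)) = y ^ (1 + p ^ (n + 1) * d) := by
    rw [hy, ← pow_mul]
    congr 1
    ring
  have e2 : z ^ ((1 + p ^ (n + 1) * d) * j) = z ^ j * y ^ d := by
    rw [hy, ← pow_mul, ← pow_add]
    congr 1
    ring
  have e3 : y ^ (p ^ k) = 1 := by
    rw [hy, ← pow_mul, mul_assoc, ← pow_add, mul_comm, pow_mul, hz.pow_eq_one, one_pow]
  rw [e1, e2]
  by_cases h : y = 1
  · simp [h]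
  · rw [if_neg h, if_neg]
    intro h2
    apply h
    have h3 : orderOf y ∣ Nat.gcd (1 + p ^ (n + 1) * d) (p ^ k) :=
      Nat.dvd_gcd (orderOf_dvd_of_pow_eq_one h2) (orderOf_dvd_of_pow_eq_one e3)
    have h4 : Nat.Coprime (1 + p ^ (n + 1) * d) (p ^ k) := by
      apply Nat.Coprime.pow_right
      rw [Nat.coprime_comm, Nat.Prime.coprime_iff_not_dvd hp.out]
      intro h5
      have h6 : p ∣ p ^ (n + 1) * d := Dvd.dvd.mul_right (dvd_pow_self p (Nat.succ_ne_zero n)) d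
      have h7 := (Nat.dvd_add_left h6).1 h5
      exact hp.out.one_lt.ne' (Nat.dvd_one.1 h7)
    rw [h4, Nat.dvd_one, orderOf_eq_one_iff] at h3
    exact h3

theorem avg_fix (x : PadicAlgCl p) (hx : x ∈ IntermediateField.adjoin ℚ_[p] {z ^ p ^ k}) :
    avg g (p ^ k) x = x := by
  have hN : ((p ^ k : ℕ) : PadicAlgCl p) ≠ 0 := by
    exact_mod_cast pow_ne_zero k hp.out.ne_zero
  have h1 : ∀ i ∈ Finset.range (p ^ k), g i x = x := by
    intro i hi
    have h2 : g i (z ^ p ^ k) = z ^ p ^ k := by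
      have h0 : (1 + i * p ^ (n + 1)) * p ^ k = p ^ k + p ^ (n + 1 + k) * i := by ring
      rw [map_pow, hg i (Finset.mem_range.1 hi), ← pow_mul, h0, pow_add, pow_mul z (p ^ (n + 1 + k)),
        hz.pow_eq_one, one_pow, mul_one]
    have h3 : IntermediateField.adjoin ℚ_[p] {z ^ p ^ k} ≤
        IntermediateField.fixedField (Subgroup.zpowers (g i)) := by
      rw [IntermediateField.adjoin_le_iff, Set.singleton_subset_iff]
      rintro ⟨s, hs⟩
      change s (z ^ p ^ k) = z ^ p ^ k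
      obtain ⟨t, rfl⟩ := hs
      have h4 : g i ∈ MulAction.stabilizer Gal(PadicAlgCl p/ℚ_[p]) (z ^ p ^ k) := h2
      exact Subgroup.zpow_mem _ h4 t
    exact h3 hx ⟨g i, Subgroup.mem_zpowers _⟩
  rw [avg_apply, Finset.sum_congr rfl h1, Finset.sum_const, Finset.card_range, nsmul_eq_mul]
  field_simp

end

end Pool.Agent.R377
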