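import Pool.Agent.R377.Loc

/-!
Mathlib's `BDeRham` as a ring, with its Galois action and its structure of algebra over `ℚ_p`, and
the tensor product of the algebraic closure of `ℚ_p` with it.
-/

set_option linter.unusedSectionVars false

namespace Pool.Agent.R377

open TensorProduct Pool.Agent.W292.FM

universe u

section Gen

variable (R : Type u) [CommRing R] (p : ℕ) [hp : Fact p.Prime] [Fact (¬ IsUnit (p : R))]
  [IsAdicComplete (Ideal.span {(p : R)}) R]

/-- Mathlib's ring `BDeRham R p`. -/
def BD : Type u := BDeRham R p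

noncomputable instance instCommRingBD : CommRing (BD R p) :=
  show CommRing (Localization (genSub R p)) from inferInstance

noncomputable instance instAlgebraBD : Algebra ℚ_[p] (BD R p) :=
  show Algebra ℚ_[p] (Localization (genSub R p)) from inferInstance

variable {R}

/-- The automorphism of `BDeRham R p` induced by functoriality by an automorphism of `R`. -/
noncomputable def bdMap (e : R ≃+* R) : BD R p →ₐ[ℚ_[p]] BD R p := bdrAlg p e

end Gen

variable (l : ℕ) [Fact l.Prime]

/-- Fontaine's ring `B_dR`. -/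
def BdR : Type := BD 𝓞_ℂ_[l] l

noncomputable instance instCommRingBdR : CommRing (BdR l) := instCommRingBD 𝓞_ℂ_[l] l

noncomputable instance instAlgebraBdR : Algebra ℚ_[l] (BdR l) := instAlgebraBD 𝓞_ℂ_[l] l

variable {l}

/-- The action of the absolute Galois group of `ℚ_l` on `B_dR`. -/
noncomputable def galB (g : Gal(PadicAlgCl l/ℚ_[l])) : BdR l →ₐ[ℚ_[l]] BdR l :=
  bdMap l (intMap l g)

variable (l)

/-- The tensor product over `ℚ_l` of the algebraic closure of `ℚ_l` and `B_dR`. -/
def VB : Type := PadicAlgCl l ⊗[ℚ_[l]] BdR l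

noncomputable instance instAddCommGroupVB : AddCommGroup (VB l) :=
  show AddCommGroup (PadicAlgCl l ⊗[ℚ_[l]] BdR l) from inferInstance

variable {l}

/-- The endomorphism `a ⊗ g` of the tensor product of the algebraic closure of `ℚ_l` and
`B_dR`. -/
noncomputable def act (a : PadicAlgCl l) (g : Gal(PadicAlgCl l/ℚ_[l])) (b : VB l) : VB l :=
  TensorProduct.map (LinearMap.mulLeft ℚ_[l] a) (galB g).toLinearMap b

theorem map_eq (g : Gal(PadicAlgCl l/ℚ_[l])) (a : PadicAlgCl l)
    (b : PadicAlgCl l ⊗[ℚ_[l]] Localization (genSub 𝓞_ℂ_[l] l)) :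
    TensorProduct.map (LinearMap.mulLeft ℚ_[l] a) (bdrAlg l (intMap l g)).toLinearMap b =
      a • LinearMap.lTensor (PadicAlgCl l) (bdrAlg l (intMap l g)).toLinearMap b := by
  induction b using TensorProduct.induction_on with
  | zero => simp
  | tmul x y => rfl
  | add x y hx hy => rw [map_add, map_add, smul_add, hx, hy]

variable {F : Type*} [Field F] [NumberField F]

theorem vb_zero (ι : AlgebraicClosure F →+* PadicAlgCl l) (b : VB l)
    (hb : ∀ (g : Gal(PadicAlgCl l/ℚ_[l])) (σ : Gal(AlgebraicClosure F/F)),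
      (∀ x, g (ι x) = ι (σ x)) → act (rho l F σ : PadicAlgCl l) g b = b) : b = 0 := by
  refine dR_zero ι b ?_
  intro g σ h
  rw [← map_eq]
  exact hb g σ h

theorem act_zero (a : PadicAlgCl l) (g : Gal(PadicAlgCl l/ℚ_[l])) : act a g (0 : VB l) = 0 :=
  map_zero (TensorProduct.map (LinearMap.mulLeft ℚ_[l] a) (galB g).toLinearMap)

end Pool.Agent.R377
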