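import Pool.Agent.R377.Lead

/-!
`D_dR = 0` for a character whose square is the inverse of the cyclotomic character on an open
subgroup.
-/

set_option linter.unusedSectionVars false

namespace Pool.Agent.R377

open Pool.Agent.W292.FM Ideal WittVector TensorProduct

variable {p : ℕ} [hp : Fact p.Prime]

theorem chi_mul (g h : Gal(PadicAlgCl p/ℚ_[p])) : chi p (g * h) = chi p g * chi p h := by
  unfold chi
  rw [← map_mul]
  rfl

theorem chi_one : chi p (1 : Gal(PadicAlgCl p/ℚ_[p])) = 1 := by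
  have h := chi_mul (1 : Gal(PadicAlgCl p/ℚ_[p])) 1
  rw [one_mul] at h
  exact (mul_eq_left.1 h.symm)

/-- Tate's theorem for a subgroup of finite index. -/
theorem tate_sub (H : Subgroup Gal(PadicAlgCl p/ℚ_[p])) [H.FiniteIndex] (c : ℂ_[p]) (J : ℤ)
    (hJ : J ≠ 0) (h : ∀ σ ∈ H, cpMap p σ c = kap p (chi p σ ^ J) * c) : c = 0 := by
  classical
  by_contra hc
  let f : Gal(PadicAlgCl p/ℚ_[p]) → ℂ_[p] := fun σ => kap p ((chi p σ ^ J)⁻¹) * cpMap p σ c
  have hf : ∀ σ, ∀ τ ∈ H, f (σ * τ) = f σ := by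
    intro σ τ hτ
    change kap p ((chi p (σ * τ) ^ J)⁻¹) * cpMap p (σ * τ) c = kap p ((chi p σ ^ J)⁻¹) * cpMap p σ c
    rw [cpMap_mul, h τ hτ, map_mul, cpMap_kap, chi_mul, mul_zpow, mul_inv, map_mul, mul_assoc]
    congr 1
    rw [← mul_assoc, ← map_mul, inv_mul_cancel, map_one, one_mul]
  have hf0 : ∀ σ, f σ ≠ 0 := by
    intro σ
    refine mul_ne_zero (kap_ne_zero p _) ?_
    intro h1
    apply hc
    have h2 := norm_cpMap p σ c
    rw [h1, norm_zero] at h2
    exact norm_eq_zero.1 h2.symm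
  let F : (Gal(PadicAlgCl p/ℚ_[p]) ⧸ H) → ℂ_[p] := fun q => Quotient.liftOn' q f (by
    intro a b hab
    rw [QuotientGroup.leftRel_apply] at hab
    have := hf a (a⁻¹ * b) hab
    rw [mul_inv_cancel_left] at this
    exact this.symm)
  have hF : ∀ σ, F (QuotientGroup.mk σ) = f σ := fun σ => rfl
  have : Fintype (Gal(PadicAlgCl p/ℚ_[p]) ⧸ H) := Fintype.ofFinite _
  set C : ℂ_[p] := ∏ q, F q with hC
  have hC0 : C ≠ 0 := by
    rw [hC, Finset.prod_ne_zero_iff]
    intro q _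
    induction q using QuotientGroup.induction_on with
    | H σ => exact hf0 σ
  have hact : ∀ τ q, cpMap p τ (F q) = kap p (chi p τ ^ J) * F (τ • q) := by
    intro τ q
    induction q using QuotientGroup.induction_on with
    | H σ =>
      have h1 : (τ • (QuotientGroup.mk σ : Gal(PadicAlgCl p/ℚ_[p]) ⧸ H)) =
        QuotientGroup.mk (τ * σ) := rfl
      rw [h1, hF, hF]
      change cpMap p τ (kap p ((chi p σ ^ J)⁻¹) * cpMap p σ c) =
        kap p (chi p τ ^ J) * (kap p ((chi p (τ * σ) ^ J)⁻¹) * cpMap p (τ * σ) c)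
      rw [map_mul, cpMap_kap, cpMap_mul, ← mul_assoc, ← map_mul]
      congr 2
      rw [chi_mul, mul_zpow, mul_inv, mul_inv_cancel_left]
  refine hC0 (tate p C (J * Fintype.card (Gal(PadicAlgCl p/ℚ_[p]) ⧸ H)) ?_ ?_)
  · refine mul_ne_zero hJ ?_
    exact_mod_cast Fintype.card_ne_zero
  · intro τ
    rw [hC, map_prod]
    simp only [hact]
    rw [Finset.prod_mul_distrib, Finset.prod_const, Finset.card_univ, zpow_mul, zpow_natCast,
      map_pow]
    congr 1
    exact Fintype.prod_equiv (MulAction.toPerm τ) _ _ (fun q => rfl)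

/-- The vanishing of the invariants of a twist of `B_dR`. -/
theorem bdr_zero (H : Subgroup Gal(PadicAlgCl p/ℚ_[p])) [H.FiniteIndex]
    (ψ : Gal(PadicAlgCl p/ℚ_[p]) → ℤ_[p]ˣ) (hψ : ∀ g ∈ H, ψ g ^ 2 = (chi p g)⁻¹)
    (b : Localization (genSub 𝓞_ℂ_[p] p))
    (hb : ∀ g ∈ H, ((ψ g : ℤ_[p]) : ℚ_[p]) • bdrAlg p (intMap p g) b = b) : b = 0 := by
  by_contra hb0
  obtain ⟨⟨x, s⟩, hxs⟩ := IsLocalization.mk'_surjective (genSub 𝓞_ℂ_[p] p) b
  have hxs : IsLocalization.mk' (Localization (genSub 𝓞_ℂ_[p] p)) x s = b := hxs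
  have hinj : Function.Injective (algebraMap (BP p) (Localization (genSub 𝓞_ℂ_[p] p))) :=
    IsLocalization.injective _ genSub_le
  have hbs : b * algebraMap (BP p) _ (s : BP p) = algebraMap (BP p) _ x := by
    rw [← hxs]
    exact IsLocalization.mk'_spec _ _ _
  have hx0 : x ≠ 0 := by
    rintro rfl
    apply hb0
    rw [← hxs, IsLocalization.mk'_zero]
  have hs0 : (s : BP p) ≠ 0 := genSub_ne_zero s.2
  obtain ⟨j, c, hc, hLx⟩ := exists_lead hx0
  obtain ⟨k, d, hd, hLs⟩ := exists_lead hs0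
  have hrel : ∀ g ∈ H, algebraMap ℚ_[p] (BP p) ((ψ g : ℤ_[p]) : ℚ_[p]) * gP g x * (s : BP p) =
      x * gP g (s : BP p) := by
    intro g hg
    apply hinj
    have h1 := congrArg (bdrMap p (intMap p g)) hbs
    rw [map_mul, bdrMap_algebraMap, bdrMap_algebraMap] at h1
    have h2 := hb g hg
    rw [Algebra.smul_def, bdrAlg_apply] at h2
    change algebraMap ℚ_[p] (Localization (genSub 𝓞_ℂ_[p] p)) _ * _ = b at h2
    have h3 : algebraMap ℚ_[p] (Localization (genSub 𝓞_ℂ_[p] p)) ((ψ g : ℤ_[p]) : ℚ_[p]) =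
      algebraMap (BP p) (Localization (genSub 𝓞_ℂ_[p] p))
        (algebraMap ℚ_[p] (BP p) ((ψ g : ℤ_[p]) : ℚ_[p])) := rfl
    rw [h3] at h2
    rw [map_mul, map_mul, map_mul]
    change _ * algebraMap _ _ (plusMap p (intMap p g) x) * _ =
      _ * algebraMap _ _ (plusMap p (intMap p g) s)
    rw [← h1, ← hbs]
    nth_rw 2 [← h2]
    ring
  have hlead : ∀ g ∈ H, kap p (ψ g) * (th (ug g) ^ j * cpMap p g c) * d =
      c * (th (ug g) ^ k * cpMap p g d) := by
    intro g hg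
    have h1 := ((lead_algebraMap (ψ g : ℤ_[p])).mul (hLx.gal g)).mul hLs
    have h2 := hLx.mul (hLs.gal g)
    rw [hrel g hg, zero_add] at h1
    exact h1.unique h2
  -- the invariant element of `ℂ_p`
  set e : ℂ_[p] := c / d * piC p ^ ((k : ℤ) - j) with he
  have he0 : e ≠ 0 := mul_ne_zero (div_ne_zero hc hd) (zpow_ne_zero _ piC_ne_zero)
  have hg : ∀ g ∈ H, kap p (ψ g) * cpMap p g e = kap p (chi p g ^ ((k : ℤ) - j)) * e := by
    intro g hg
    have h1 := hlead g hg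
    have h2 := ug_rel g
    have hu := th_ug_ne_zero g
    have hgd : cpMap p g d ≠ 0 := by
      intro h3
      apply hd
      have h4 := norm_cpMap p g d
      rw [h3, norm_zero] at h4
      exact norm_eq_zero.1 h4.symm
    have h3 : cpMap p g (piC p) = kap p (chi p g) * piC p / th (ug g) := by
      rw [eq_div_iff hu, mul_comm]; exact h2
    have h4 : kap p (ψ g) * (cpMap p g c / cpMap p g d) = c / d * th (ug g) ^ ((k : ℤ) - j) := by
      rw [zpow_sub₀ hu, zpow_natCast, zpow_natCast]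
      field_simp
      linear_combination h1
    rw [he, map_mul, map_div₀, map_zpow₀, h3, ← mul_assoc, h4, div_zpow, mul_zpow, kap_zpow]
    have hu2 : th (ug g) ^ ((k : ℤ) - j) ≠ 0 := zpow_ne_zero _ hu
    field_simp
  have hsq : e ^ 2 = 0 := by
    refine tate_sub H (e ^ 2) (1 + 2 * ((k : ℤ) - j)) (by omega) ?_
    intro g hgH
    have h1 := hg g hgH
    have h2 := hψ g hgH
    have h3 : (kap p (ψ g)) ^ 2 * cpMap p g (e ^ 2) = (kap p (chi p g ^ ((k : ℤ) - j))) ^ 2 * e ^ 2 := by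
      rw [map_pow, ← mul_pow, ← mul_pow, h1]
    rw [← map_pow, h2] at h3
    have h4 : kap p (chi p g) * (kap p (chi p g)⁻¹ * cpMap p g (e ^ 2)) = cpMap p g (e ^ 2) := by
      rw [← mul_assoc, ← map_mul, mul_inv_cancel, map_one, one_mul]
    rw [← h4, h3, ← map_pow, ← mul_assoc, ← map_mul]
    congr 2
    rw [zpow_add, zpow_one, mul_comm (2 : ℤ), zpow_mul]
    norm_cast
  exact he0 (pow_eq_zero_iff (two_ne_zero)|>.1 hsq)

/-- The vanishing of the invariants of a twist of `E ⊗ B_dR`, `E` the algebraic closure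
of `ℚ_p`. -/
theorem tensor_zero (H : Subgroup Gal(PadicAlgCl p/ℚ_[p])) [H.FiniteIndex]
    (ψ : Gal(PadicAlgCl p/ℚ_[p]) → ℤ_[p]ˣ) (hψ : ∀ g ∈ H, ψ g ^ 2 = (chi p g)⁻¹)
    (b : PadicAlgCl p ⊗[ℚ_[p]] Localization (genSub 𝓞_ℂ_[p] p))
    (hb : ∀ g ∈ H, ((ψ g : ℤ_[p]) : ℚ_[p]) •
      (LinearMap.lTensor (PadicAlgCl p) (bdrAlg p (intMap p g)).toLinearMap b) = b) : b = 0 := by
  classical
  set ℬ := Module.Free.chooseBasis ℚ_[p] (PadicAlgCl p)
  let Φ := TensorProduct.equivFinsuppOfBasisLeft (N := Localization (genSub 𝓞_ℂ_[p] p)) ℬ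
  have hΦ : ∀ (g : Gal(PadicAlgCl p/ℚ_[p]))
      (y : PadicAlgCl p ⊗[ℚ_[p]] Localization (genSub 𝓞_ℂ_[p] p)) (i),
      Φ (LinearMap.lTensor (PadicAlgCl p) (bdrAlg p (intMap p g)).toLinearMap y) i =
        bdrAlg p (intMap p g) (Φ y i) := by
    intro g y i
    induction y using TensorProduct.induction_on with
    | zero => simp
    | tmul m n =>
      rw [LinearMap.lTensor_tmul]
      simp only [Φ, TensorProduct.equivFinsuppOfBasisLeft_apply_tmul_apply]
      rw [map_smul]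
      rfl
    | add y z hy hz => rw [map_add, map_add, map_add, Finsupp.add_apply, Finsupp.add_apply, hy, hz,
        map_add]
  have h0 : Φ b = 0 := by
    ext i
    refine bdr_zero H ψ hψ (Φ b i) ?_
    intro g hg
    have h1 := congrArg (fun y => Φ y i) (hb g hg)
    simp only [map_smul, Finsupp.smul_apply] at h1
    rw [hΦ] at h1
    exact h1
  exact (map_eq_zero_iff Φ Φ.injective).1 h0

end Pool.Agent.R377
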