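import Mathlib

/-!
# The Kusmin–Landau inequality
-/

set_option autoImplicit false

namespace Pool.Agent.R377.KL

open Finset

/-- `e(x) = exp(2 π i x)`. -/
noncomputable def e (x : ℝ) : ℂ := Complex.exp (2 * (Real.pi : ℂ) * Complex.I * (x : ℂ))

theorem e_eq (x : ℝ) : e x = (Real.cos (2 * Real.pi * x) : ℂ) + (Real.sin (2 * Real.pi * x) : ℂ) * Complex.I := by
  unfold e
  rw [show 2 * (Real.pi : ℂ) * Complex.I * (x : ℂ) = ((2 * Real.pi * x : ℝ) : ℂ) * Complex.I by
    push_cast; ring]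
  rw [Complex.exp_mul_I]
  push_cast
  rfl

theorem e_re (x : ℝ) : (e x).re = Real.cos (2 * Real.pi * x) := by
  rw [e_eq]
  simp only [Complex.add_re, Complex.ofReal_re, Complex.mul_re, Complex.I_re, mul_zero,
    Complex.ofReal_im, Complex.I_im, mul_one, sub_self, add_zero]

theorem e_im (x : ℝ) : (e x).im = Real.sin (2 * Real.pi * x) := by
  rw [e_eq]
  simp only [Complex.add_im, Complex.ofReal_im, Complex.mul_im, Complex.ofReal_re, Complex.I_im,
    mul_one, Complex.I_re, mul_zero, add_zero, zero_add]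

theorem norm_e (x : ℝ) : ‖e x‖ = 1 := by
  unfold e
  rw [show 2 * (Real.pi : ℂ) * Complex.I * (x : ℂ) = ((2 * Real.pi * x : ℝ) : ℂ) * Complex.I by
    push_cast; ring]
  exact Complex.norm_exp_ofReal_mul_I _

theorem e_add (x y : ℝ) : e (x + y) = e x * e y := by
  unfold e
  rw [← Complex.exp_add]
  congr 1
  push_cast
  ring

theorem e_int (n : ℤ) : e (n : ℝ) = 1 := by
  unfold e
  rw [show 2 * (Real.pi : ℂ) * Complex.I * (((n : ℤ) : ℝ) : ℂ) = (n : ℂ) * (2 * (Real.pi : ℂ) * Complex.I) by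
    push_cast; ring]
  exact Complex.exp_int_mul_two_pi_mul_I n

theorem e_sub_int (x : ℝ) (n : ℤ) : e (x - n) = e x := by
  have h := e_add (x - n) n
  rw [e_int, mul_one, sub_add_cancel] at h
  exact h.symm

/-- The weight `cot (π d)`. -/
noncomputable def ct (d : ℝ) : ℝ := Real.tan (Real.pi / 2 - Real.pi * d)

theorem ct_le {θ d : ℝ} (hθ : 0 < θ) (h : θ ≤ d) (h1 : d ≤ 3 / 4) : ct d ≤ 1 / (Real.pi * θ) := by
  have hpi := Real.pi_pos
  unfold ct
  have hθ' : 0 < 1 / (Real.pi * θ) := by positivity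
  rcases lt_or_ge d (1 / 2) with h2 | h2
  · rw [Real.tan_pi_div_two_sub]
    have h3 : Real.pi * θ ≤ Real.tan (Real.pi * d) := by
      have h4 : Real.pi * d < Real.pi / 2 := by nlinarith
      have h5 : 0 < Real.pi * d := by nlinarith
      have := Real.lt_tan h5 h4
      nlinarith
    rw [one_div]
    exact inv_anti₀ (by positivity) h3
  · have : Real.tan (Real.pi / 2 - Real.pi * d) ≤ 0 := by
      have h3 : Real.pi / 2 - Real.pi * d ≤ 0 := by nlinarith
      exact Real.tan_nonpos_of_nonpos_of_neg_pi_div_two_le h3 (by nlinarith)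
    linarith

theorem ct_anti {d d' : ℝ} (h0 : 0 < d) (h : d ≤ d') (h1 : d' ≤ 3 / 4) : ct d' ≤ ct d := by
  have hpi := Real.pi_pos
  unfold ct
  rcases eq_or_lt_of_le h with rfl | h
  · exact le_refl _
  · refine (Real.strictMonoOn_tan ⟨by nlinarith, by nlinarith⟩ ⟨by nlinarith, by nlinarith⟩ ?_).le
    nlinarith

theorem ct_ge {d : ℝ} (h0 : 0 < d) (h1 : d ≤ 3 / 4) : -1 ≤ ct d := by
  have hpi := Real.pi_pos
  have h := ct_anti h0 h1 (le_refl _)
  have : ct (3 / 4) = -1 := by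
    unfold ct
    rw [show Real.pi / 2 - Real.pi * (3 / 4) = -(Real.pi / 4) by ring, Real.tan_neg,
      Real.tan_pi_div_four]
  rw [this] at h
  exact h

theorem e_ct {d : ℝ} (h0 : 0 < d) (h1 : d ≤ 3 / 4) (x : ℝ) :
    e x = (e x - e (x + d)) * ((1 + (ct d : ℂ) * Complex.I) / 2) := by
  have hpi := Real.pi_pos
  rw [e_add]
  have hs : Real.sin (Real.pi * d) ≠ 0 := by
    apply ne_of_gt
    apply Real.sin_pos_of_pos_of_lt_pi (by positivity)
    nlinarith
  have hct : ct d = Real.cos (Real.pi * d) / Real.sin (Real.pi * d) := by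
    unfold ct
    rw [Real.tan_pi_div_two_sub, Real.tan_eq_sin_div_cos, inv_div]
  have h2 : (1 - e d) * ((1 + (ct d : ℂ) * Complex.I) / 2) = 1 := by
    rw [e_eq, hct]
    rw [show 2 * Real.pi * d = 2 * (Real.pi * d) by ring, Real.cos_two_mul, Real.sin_two_mul]
    have hs' : ((Real.sin (Real.pi * d) : ℝ) : ℂ) ≠ 0 := by exact_mod_cast hs
    have hI : Complex.I ^ 2 = -1 := Complex.I_sq
    have hcs : ((Real.cos (Real.pi * d) : ℝ) : ℂ) ^ 2 = 1 - ((Real.sin (Real.pi * d) : ℝ) : ℂ) ^ 2 := by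
      have := Real.sin_sq_add_cos_sq (Real.pi * d)
      have h3 : ((Real.sin (Real.pi * d) : ℝ) : ℂ) ^ 2 + ((Real.cos (Real.pi * d) : ℝ) : ℂ) ^ 2 = 1 := by
        exact_mod_cast this
      linear_combination h3
    push_cast
    push_cast at hs' hcs
    field_simp
    linear_combination (-2 * Complex.cos (Real.pi * d) * Complex.I) * hcs +
      (-2 * Complex.sin (Real.pi * d) * Complex.cos (Real.pi * d) ^ 2) * hI
  calc e x = e x * 1 := by ring
    _ = e x * ((1 - e d) * ((1 + (ct d : ℂ) * Complex.I) / 2)) := by rw [h2]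
    _ = _ := by ring

/-- Summation by parts. -/
theorem abel (E : ℕ → ℂ) (c : ℕ → ℂ) (n : ℕ) :
    ∑ k ∈ range (n + 1), (E k - E (k + 1)) * c k =
      E 0 * c 0 - E (n + 1) * c n + ∑ k ∈ range n, E (k + 1) * (c (k + 1) - c k) := by
  induction n with
  | zero => simp; ring
  | succ n ih =>
    rw [sum_range_succ, ih, sum_range_succ (fun k => E (k + 1) * (c (k + 1) - c k))]
    ring

/-- The Kusmin–Landau inequality. -/
theorem kl (x : ℕ → ℝ) (n : ℕ) (θ : ℝ) (hθ : 0 < θ)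
    (hmono : ∀ k, k + 1 < n → x (k + 1) - x k ≤ x (k + 2) - x (k + 1))
    (hlo : ∀ k < n, θ ≤ x (k + 1) - x k) (hhi : ∀ k < n, x (k + 1) - x k ≤ 3 / 4) :
    ‖∑ k ∈ range n, e (x k)‖ ≤ 2 + 1 / (Real.pi * θ) := by
  have hpi := Real.pi_pos
  have hθ' : 0 < 1 / (Real.pi * θ) := by positivity
  rcases n with _ | n
  · simp only [range_zero, sum_empty, norm_zero]
    positivity
  set d : ℕ → ℝ := fun k => x (k + 1) - x k with hd
  have h1 : ∑ k ∈ range (n + 1), e (x k) =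
      (1 / 2 : ℂ) * (e (x 0) - e (x (n + 1))) +
        (Complex.I / 2) * ∑ k ∈ range (n + 1), (e (x k) - e (x (k + 1))) * (ct (d k) : ℂ) := by
    have h2 : (1 / 2 : ℂ) * (e (x 0) - e (x (n + 1))) =
        ∑ k ∈ range (n + 1), (1 / 2 : ℂ) * (e (x k) - e (x (k + 1))) := by
      rw [← mul_sum, sum_range_sub']
    rw [h2, mul_sum, ← sum_add_distrib]
    apply sum_congr rfl
    intro k hk
    have hk' := mem_range.mp hk
    have h3 := e_ct (d := d k) (lt_of_lt_of_le hθ (hlo k hk')) (hhi k hk') (x k)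
    rw [show x k + d k = x (k + 1) by simp only [hd]; ring] at h3
    linear_combination h3
  rw [h1, abel (fun k => e (x k)) (fun k => (ct (d k) : ℂ)) n]
  have hA : ∀ k < n, ct (d (k + 1)) ≤ ct (d k) := by
    intro k hk
    apply ct_anti (lt_of_lt_of_le hθ (hlo k (by omega)))
    · exact hmono k (by omega)
    · exact hhi (k + 1) (by omega)
  have hB : ‖∑ k ∈ range n, e (x (k + 1)) * ((ct (d (k + 1)) : ℂ) - (ct (d k) : ℂ))‖ ≤
      ct (d 0) - ct (d n) := by
    calc _ ≤ ∑ k ∈ range n, ‖e (x (k + 1)) * ((ct (d (k + 1)) : ℂ) - (ct (d k) : ℂ))‖ :=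
          norm_sum_le _ _
      _ = ∑ k ∈ range n, (ct (d k) - ct (d (k + 1))) := by
          apply sum_congr rfl
          intro k hk
          rw [norm_mul, norm_e, one_mul, ← Complex.ofReal_sub, Complex.norm_real, Real.norm_eq_abs,
            abs_sub_comm, abs_of_nonneg (sub_nonneg.mpr (hA k (mem_range.mp hk)))]
      _ = ct (d 0) - ct (d n) := by rw [sum_range_sub']
  have h0 : ct (d 0) ≤ 1 / (Real.pi * θ) := ct_le hθ (hlo 0 (by omega)) (hhi 0 (by omega))
  have h0' : -1 ≤ ct (d 0) := ct_ge (lt_of_lt_of_le hθ (hlo 0 (by omega))) (hhi 0 (by omega))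
  have hn : -1 ≤ ct (d n) := ct_ge (lt_of_lt_of_le hθ (hlo n (by omega))) (hhi n (by omega))
  have hC : ‖e (x 0) * (ct (d 0) : ℂ) - e (x (n + 1)) * (ct (d n) : ℂ) +
      ∑ k ∈ range n, e (x (k + 1)) * ((ct (d (k + 1)) : ℂ) - (ct (d k) : ℂ))‖ ≤
      2 + 2 * (1 / (Real.pi * θ)) := by
    have h4 : ‖e (x 0) * (ct (d 0) : ℂ)‖ = |ct (d 0)| := by
      rw [norm_mul, norm_e, one_mul, Complex.norm_real, Real.norm_eq_abs]
    have h5 : ‖e (x (n + 1)) * (ct (d n) : ℂ)‖ = |ct (d n)| := by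
      rw [norm_mul, norm_e, one_mul, Complex.norm_real, Real.norm_eq_abs]
    have h6 := norm_add_le (e (x 0) * (ct (d 0) : ℂ) - e (x (n + 1)) * (ct (d n) : ℂ))
      (∑ k ∈ range n, e (x (k + 1)) * ((ct (d (k + 1)) : ℂ) - (ct (d k) : ℂ)))
    have h7 := norm_sub_le (e (x 0) * (ct (d 0) : ℂ)) (e (x (n + 1)) * (ct (d n) : ℂ))
    rw [h4, h5] at h7
    have h8 : |ct (d 0)| + ct (d 0) ≤ 2 * (1 / (Real.pi * θ)) := by
      rcases abs_cases (ct (d 0)) with ⟨h, _⟩ | ⟨h, _⟩ <;> rw [h] <;> linarith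
    have h9 : |ct (d n)| - ct (d n) ≤ 2 := by
      rcases abs_cases (ct (d n)) with ⟨h, _⟩ | ⟨h, _⟩ <;> rw [h] <;> linarith
    linarith
  have hD : ‖e (x 0) - e (x (n + 1))‖ ≤ 2 := by
    have := norm_sub_le (e (x 0)) (e (x (n + 1)))
    rw [norm_e, norm_e] at this
    linarith
  calc _ ≤ ‖(1 / 2 : ℂ) * (e (x 0) - e (x (n + 1)))‖ + ‖(Complex.I / 2) *
        (e (x 0) * (ct (d 0) : ℂ) - e (x (n + 1)) * (ct (d n) : ℂ) +
      ∑ k ∈ range n, e (x (k + 1)) * ((ct (d (k + 1)) : ℂ) - (ct (d k) : ℂ)))‖ := norm_add_le _ _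
    _ ≤ 1 / 2 * 2 + 1 / 2 * (2 + 2 * (1 / (Real.pi * θ))) := by
        apply add_le_add
        · rw [norm_mul]
          have : ‖(1 / 2 : ℂ)‖ = 1 / 2 := by norm_num
          rw [this]
          exact mul_le_mul_of_nonneg_left hD (by norm_num)
        · rw [norm_mul]
          have : ‖(Complex.I / 2 : ℂ)‖ = 1 / 2 := by
            rw [norm_div, Complex.norm_I]; norm_num
          rw [this]
          exact mul_le_mul_of_nonneg_left hC (by norm_num)
    _ = _ := by ring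

end Pool.Agent.R377.KL
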