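import Mathlib
import Pool.Agent.R377.KusminLandau

/-!
# The exponential sums of `(2/9) n^(3/2)`
-/

set_option autoImplicit false

namespace Pool.Agent.R377.EP

open Finset Pool.Agent.R377.KL

/-- The phase. -/
noncomputable def Φ (y : ℝ) : ℝ := 2 / 9 * Real.sqrt y ^ 3

theorem D_aux {a b : ℝ} (ha : 0 ≤ a) (hab : a < b) (h : b ^ 2 = a ^ 2 + 1) :
    a / 3 ≤ 2 / 9 * b ^ 3 - 2 / 9 * a ^ 3 ∧ 2 / 9 * b ^ 3 - 2 / 9 * a ^ 3 ≤ b / 3 := by
  have hb : 0 < b := lt_of_le_of_lt ha hab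
  have h1 : (2 / 9 * b ^ 3 - 2 / 9 * a ^ 3) * (a + b) = 2 / 9 * (a ^ 2 + a * b + b ^ 2) := by
    have : (b - a) * (a + b) = 1 := by linear_combination h
    linear_combination (2 / 9 * (a ^ 2 + a * b + b ^ 2)) * this
  constructor
  · rw [← mul_le_mul_iff_left₀ (show 0 < a + b by linarith), h1]
    nlinarith
  · rw [← mul_le_mul_iff_left₀ (show 0 < a + b by linarith), h1]
    nlinarith

theorem D_bound {y : ℝ} (hy : 0 ≤ y) :
    Real.sqrt y / 3 ≤ Φ (y + 1) - Φ y ∧ Φ (y + 1) - Φ y ≤ Real.sqrt (y + 1) / 3 := by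
  unfold Φ
  apply D_aux (Real.sqrt_nonneg _)
  · exact Real.sqrt_lt_sqrt hy (by linarith)
  · rw [Real.sq_sqrt hy, Real.sq_sqrt (by linarith)]

theorem sin_lb_half {z : ℝ} (h0 : 0 ≤ z) (h1 : z ≤ 1 / 2) :
    3 * z * (1 - z) ≤ Real.sin (Real.pi * z) := by
  have hpi := Real.pi_pos
  have hpi3 := Real.pi_gt_d4
  have hpi4 := Real.pi_lt_d4
  rcases le_total (1 / 3) z with h | h
  · have := Real.mul_le_sin (x := Real.pi * z) (by positivity) (by nlinarith)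
    have h2 : 2 / Real.pi * (Real.pi * z) = 2 * z := by field_simp
    rw [h2] at this
    nlinarith
  · rcases eq_or_lt_of_le h0 with rfl | h0
    · simp
    have hu0 : 0 < Real.pi * z := by positivity
    have hs := Real.sin_gt_sub_cube hu0
    have h9 : Real.pi ^ 3 ≤ 32 := by
      have : Real.pi ^ 3 ≤ 3.1416 ^ 3 := by gcongr
      norm_num at this ⊢
      linarith
    have h10 : 3 * (1 - z) ≤ Real.pi - Real.pi ^ 3 * z ^ 2 / 6 := by
      have : Real.pi ^ 3 * z ^ 2 ≤ 32 * z ^ 2 := by gcongr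
      nlinarith
    have h8 : Real.pi * z - (Real.pi * z) ^ 3 / 6 = z * (Real.pi - Real.pi ^ 3 * z ^ 2 / 6) := by ring
    rw [h8] at hs
    nlinarith

theorem sin_lb {z : ℝ} (h0 : 0 ≤ z) (h1 : z ≤ 1) :
    3 * z * (1 - z) ≤ Real.sin (Real.pi * z) := by
  rcases le_total z (1 / 2) with h | h
  · exact sin_lb_half h0 h
  · have := sin_lb_half (z := 1 - z) (by linarith) (by linarith)
    rw [show Real.pi * (1 - z) = Real.pi - Real.pi * z by ring, Real.sin_pi_sub] at this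
    linarith

theorem sin_lip (x y : ℝ) : Real.sin y - |x - y| ≤ Real.sin x := by
  have h := Real.abs_sin_sub_sin_le x y
  have := (abs_le.mp h).1
  linarith

/-- The phases near a stationary point. -/
theorem phase_bound {m t : ℝ} {L : ℝ} (hm : 1 ≤ m) (ht : |t| ≤ L) (hL : L ^ 2 ≤ 18 * m)
    (hm2 : 4 ≤ m) :
    |Φ (9 * m ^ 2 + t) - m * t - 6 * m ^ 3 - t ^ 2 / (36 * m)| ≤ L / (12 * m ^ 2) := by
  have hm0 : 0 < m := by linarith
  have hL0 : 0 ≤ L := le_trans (abs_nonneg _) ht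
  have hLm : L ≤ 9 * m := by nlinarith
  obtain ⟨ht1, ht2⟩ := abs_le.mp ht
  have hpos : 0 ≤ 9 * m ^ 2 + t := by nlinarith
  set q := Real.sqrt (9 * m ^ 2 + t) with hq
  have hq0 : 0 ≤ q := Real.sqrt_nonneg _
  have hq2 : q ^ 2 = 9 * m ^ 2 + t := Real.sq_sqrt hpos
  set s := q - 3 * m with hs
  have hst : t = 6 * m * s + s ^ 2 := by rw [hs]; linear_combination -hq2
  have hts : s * (q + 3 * m) = t := by rw [hs]; linear_combination hq2
  have habs : |s| * (3 * m) ≤ |t| := by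
    rw [← hts, abs_mul]
    apply mul_le_mul_of_nonneg_left _ (abs_nonneg _)
    rw [abs_of_nonneg (by positivity)]
    linarith
  have hkey : Φ (9 * m ^ 2 + t) - m * t - 6 * m ^ 3 - t ^ 2 / (36 * m) =
      -(s ^ 3 / 9) - s ^ 4 / (36 * m) := by
    unfold Φ
    rw [← hq, show q = 3 * m + s by rw [hs]; ring, hst]
    field_simp
    ring
  rw [hkey]
  have hs1 : |s| ≤ 1 := by
    have h1 : |s| * (3 * m) ≤ L := le_trans habs ht
    have h2 : L ≤ 3 * m := by nlinarith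
    have h3 : |s| * (3 * m) ≤ 1 * (3 * m) := by linarith
    exact le_of_mul_le_mul_right h3 (by positivity)
  have h1 : |-(s ^ 3 / 9) - s ^ 4 / (36 * m)| ≤ |s| ^ 3 / 8 := by
    have h2 : |-(s ^ 3 / 9) - s ^ 4 / (36 * m)| ≤ |s| ^ 3 / 9 + |s| ^ 4 / (36 * m) := by
      calc _ ≤ |-(s ^ 3 / 9)| + |s ^ 4 / (36 * m)| := abs_sub _ _
        _ = _ := by
          rw [abs_neg, abs_div, abs_div, abs_pow, abs_pow, abs_of_pos (show (0:ℝ) < 9 by norm_num),
            abs_of_pos (show 0 < 36 * m by positivity)]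
    have h3 : |s| ^ 4 / (36 * m) ≤ |s| ^ 3 / 72 := by
      rw [div_le_div_iff₀ (by positivity) (by norm_num)]
      have h4 : |s| ^ 4 ≤ |s| ^ 3 := pow_le_pow_of_le_one (abs_nonneg _) hs1 (by norm_num)
      have h5 : 0 ≤ |s| ^ 3 := by positivity
      nlinarith
    linarith
  have h2 : |s| ^ 3 * (27 * m ^ 3) ≤ 18 * m * L := by
    have h3 : |s| * (3 * m) ≤ L := le_trans habs ht
    calc |s| ^ 3 * (27 * m ^ 3) = (|s| * (3 * m)) ^ 3 := by ring
      _ ≤ L ^ 3 := by gcongr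
      _ = L ^ 2 * L := by ring
      _ ≤ _ := by gcongr
  have h3 : |s| ^ 3 / 8 ≤ L / (12 * m ^ 2) := by
    rw [div_le_div_iff₀ (by norm_num) (by positivity)]
    have h4 : 0 < 27 * m := by positivity
    have h5 : (|s| ^ 3 * (12 * m ^ 2)) * (27 * m) ≤ (L * 8) * (27 * m) := by nlinarith
    exact le_of_mul_le_mul_right h5 h4
  linarith

/-- Lower bound for one inner term. -/
theorem inner_term {m t : ℝ} {L : ℝ} (hm2 : 4 ≤ m) (ht : |t| ≤ L) (hL : L ^ 2 ≤ 18 * m) :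
    3 * (t ^ 2 / (18 * m)) * (1 - t ^ 2 / (18 * m)) - 2 * Real.pi * (L / (12 * m ^ 2)) ≤
      Real.sin (2 * Real.pi * (Φ (9 * m ^ 2 + t) - m * t - 6 * m ^ 3)) := by
  have hpi := Real.pi_pos
  have hm0 : 0 < m := by linarith
  have h1 := phase_bound (by linarith) ht hL hm2
  have hz0 : 0 ≤ t ^ 2 / (18 * m) := by positivity
  have hz1 : t ^ 2 / (18 * m) ≤ 1 := by
    rw [div_le_one (by positivity)]
    have : t ^ 2 ≤ L ^ 2 := by
      rw [← sq_abs t]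
      gcongr
    linarith
  have h2 := sin_lb hz0 hz1
  have h3 := sin_lip (2 * Real.pi * (Φ (9 * m ^ 2 + t) - m * t - 6 * m ^ 3))
    (Real.pi * (t ^ 2 / (18 * m)))
  have h4 : |2 * Real.pi * (Φ (9 * m ^ 2 + t) - m * t - 6 * m ^ 3) - Real.pi * (t ^ 2 / (18 * m))| =
      2 * Real.pi * |Φ (9 * m ^ 2 + t) - m * t - 6 * m ^ 3 - t ^ 2 / (36 * m)| := by
    rw [← abs_of_pos (show 0 < 2 * Real.pi by positivity), ← abs_mul,
      abs_of_pos (show 0 < 2 * Real.pi by positivity)]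
    congr 1
    field_simp
    ring
  rw [h4] at h3
  have h5 : 2 * Real.pi * |Φ (9 * m ^ 2 + t) - m * t - 6 * m ^ 3 - t ^ 2 / (36 * m)| ≤
      2 * Real.pi * (L / (12 * m ^ 2)) := mul_le_mul_of_nonneg_left h1 (by positivity)
  linarith

theorem psum (X : ℝ) (L : ℕ) : ∑ j ∈ range L, ((j + 1 : ℝ)) ^ 2 * (X - (j + 1 : ℝ) ^ 2) =
    L * (L + 1) * (2 * L + 1) * (5 * X - 3 * L ^ 2 - 3 * L + 1) / 30 := by
  induction L with
  | zero => simp
  | succ L ih =>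
    rw [sum_range_succ, ih]
    push_cast
    ring

theorem psum_lb {r : ℝ} {L : ℕ} (hr : 2 ≤ r) (h1 : (L : ℝ) ≤ r) (h2 : r < L + 1) :
    (2 * r - 9) / 15 * r ^ 4 ≤ ∑ j ∈ range L, ((j + 1 : ℝ)) ^ 2 * (r ^ 2 - (j + 1 : ℝ) ^ 2) := by
  rw [psum]
  have hL : r - 1 ≤ (L : ℝ) := by linarith
  have hL0 : (0 : ℝ) ≤ L := Nat.cast_nonneg _
  have h3 : (2 * r - 1) * (r - 1) ≤ 5 * r ^ 2 - 3 * (L : ℝ) ^ 2 - 3 * L + 1 := by nlinarith
  have h4 : 2 * (r - 1) ^ 3 ≤ (L : ℝ) * (L + 1) * (2 * L + 1) := by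
    have h5 : (r - 1) ^ 3 ≤ (L : ℝ) ^ 3 := by
      have : 0 ≤ r - 1 := by linarith
      gcongr
    nlinarith [mul_nonneg hL0 hL0]
  have h6 : 0 ≤ (2 * r - 1) * (r - 1) := by
    apply mul_nonneg <;> linarith
  have h7 : 0 ≤ (L : ℝ) * (L + 1) * (2 * L + 1) := by positivity
  have h8 : 2 * (r - 1) ^ 3 * ((2 * r - 1) * (r - 1)) ≤
      (L : ℝ) * (L + 1) * (2 * L + 1) * (5 * r ^ 2 - 3 * (L : ℝ) ^ 2 - 3 * L + 1) :=
    mul_le_mul h4 h3 h6 h7
  have h9 : 2 * (2 * r - 9) * r ^ 4 ≤ 2 * (r - 1) ^ 3 * ((2 * r - 1) * (r - 1)) := by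
    have h10 : 2 * (r - 1) ^ 3 * ((2 * r - 1) * (r - 1)) - 2 * (2 * r - 9) * r ^ 4 =
        2 * (r ^ 2 * (16 * r - 14) + (6 * r - 1)) := by ring
    have h11 : 0 ≤ r ^ 2 * (16 * r - 14) := by
      apply mul_nonneg (by positivity); linarith
    linarith
  linarith

end Pool.Agent.R377.EP
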