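import Mathlib
import Pool.Agent.R377.ExpPair

/-!
# The exponential sums of `(2/9) n^(3/2)`: one block
-/

set_option autoImplicit false

namespace Pool.Agent.R377.EP

open Finset Pool.Agent.R377.KL

theorem split_block (F : ℝ → ℂ) (m L : ℕ) (hL : L + 1 ≤ 9 * m) :
    ∑ j ∈ range (18 * m), F (9 * (m : ℝ) ^ 2 - 9 * m + j) =
      ∑ j ∈ range (9 * m - L), F (9 * (m : ℝ) ^ 2 - (L + 1 + j)) +
      ∑ j ∈ range L, (F (9 * (m : ℝ) ^ 2 - (j + 1)) + F (9 * (m : ℝ) ^ 2 + (j + 1))) +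
      F (9 * (m : ℝ) ^ 2) +
      ∑ j ∈ range (9 * m - L - 1), F (9 * (m : ℝ) ^ 2 + (L + 1 + j)) := by
  obtain ⟨p, hp⟩ : ∃ p, 9 * m = L + 1 + p := ⟨9 * m - (L + 1), by omega⟩
  have hpr : 9 * (m : ℝ) = L + 1 + p := by exact_mod_cast hp
  have e1 : 18 * m = (p + 1) + (L + (1 + (L + p))) := by omega
  have e2 : 9 * m - L = p + 1 := by omega
  have e3 : 9 * m - L - 1 = p := by omega
  rw [e3, e2, e1, sum_range_add _ (p + 1), sum_range_add _ L, sum_range_add _ 1, sum_range_add _ L]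
  have h1 : ∑ j ∈ range (p + 1), F (9 * (m : ℝ) ^ 2 - 9 * m + j) =
      ∑ j ∈ range (p + 1), F (9 * (m : ℝ) ^ 2 - (L + 1 + j)) := by
    rw [← sum_range_reflect]
    apply sum_congr rfl
    intro j hj
    have hj' := mem_range.mp hj
    congr 1
    have : ((p + 1 - 1 - j : ℕ) : ℝ) = p - j := by
      rw [Nat.add_sub_cancel, Nat.cast_sub (by omega)]
    rw [this, hpr]
    ring
  have h2 : ∑ x ∈ range L, F (9 * (m : ℝ) ^ 2 - 9 * m + ((p + 1 + x : ℕ) : ℝ)) =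
      ∑ j ∈ range L, F (9 * (m : ℝ) ^ 2 - (j + 1)) := by
    rw [← sum_range_reflect]
    apply sum_congr rfl
    intro j hj
    have hj' := mem_range.mp hj
    congr 1
    have : ((p + 1 + (L - 1 - j) : ℕ) : ℝ) = p + L - j := by
      have : p + 1 + (L - 1 - j) = p + L - j := by omega
      rw [this, Nat.cast_sub (by omega)]
      push_cast
      ring
    rw [this, hpr]
    ring
  rw [h1, h2, sum_add_distrib]
  have h3 : ∑ x ∈ range 1, F (9 * (m : ℝ) ^ 2 - 9 * m + ((p + 1 + (L + x) : ℕ) : ℝ)) =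
      F (9 * (m : ℝ) ^ 2) := by
    rw [sum_range_one]
    congr 1
    push_cast
    rw [hpr]
    ring
  have h4 : ∑ x ∈ range L, F (9 * (m : ℝ) ^ 2 - 9 * m + ((p + 1 + (L + (1 + x)) : ℕ) : ℝ)) =
      ∑ j ∈ range L, F (9 * (m : ℝ) ^ 2 + (j + 1)) := by
    apply sum_congr rfl
    intro j _
    congr 1
    push_cast
    rw [hpr]
    ring
  have h5 : ∑ x ∈ range p, F (9 * (m : ℝ) ^ 2 - 9 * m + ((p + 1 + (L + (1 + (L + x))) : ℕ) : ℝ)) =
      ∑ j ∈ range p, F (9 * (m : ℝ) ^ 2 + (L + 1 + j)) := by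
    apply sum_congr rfl
    intro j _
    congr 1
    push_cast
    rw [hpr]
    ring
  rw [h3, h4, h5]
  ring

theorem e_shift (m : ℕ) (t : ℤ) (y : ℝ) : e y = e (y - m * t - 6 * m ^ 3) := by
  have h := e_sub_int y ((m : ℤ) * t + 6 * (m : ℤ) ^ 3)
  rw [← h]
  congr 1
  push_cast
  ring

/-- The right outer part. -/
theorem right_part (m L : ℕ) (hm : 4 ≤ m) (hL : L ≤ m) (hL1 : 1 ≤ L) :
    ‖∑ j ∈ range (9 * m - L - 1), e (Φ (9 * (m : ℝ) ^ 2 + (L + 1 + j)))‖ ≤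
      2 + 1 / (Real.pi * ((L + 1) / (18 * m + 3))) := by
  have hm' : (4 : ℝ) ≤ m := by exact_mod_cast hm
  have hL' : (L : ℝ) ≤ m := by exact_mod_cast hL
  have hL0 : (0 : ℝ) ≤ L := Nat.cast_nonneg _
  set x : ℕ → ℝ := fun j => Φ (9 * (m : ℝ) ^ 2 + (L + 1 + j)) - m * (L + 1 + j) - 6 * m ^ 3 with hx
  have h1 : ∀ j : ℕ, e (Φ (9 * (m : ℝ) ^ 2 + (L + 1 + j))) = e (x j) := by
    intro j
    rw [e_shift m (L + 1 + j)]
    congr 1
    simp only [hx]
    push_cast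
    ring
  rw [sum_congr rfl (fun j _ => h1 j)]
  have hdiff : ∀ j : ℕ, x (j + 1) - x j =
      Φ ((9 * (m : ℝ) ^ 2 + (L + 1 + j)) + 1) - Φ (9 * (m : ℝ) ^ 2 + (L + 1 + j)) - m := by
    intro j
    simp only [hx]
    push_cast
    rw [show 9 * (m : ℝ) ^ 2 + (L + 1 + (j + 1)) = (9 * (m : ℝ) ^ 2 + (L + 1 + j)) + 1 by ring]
    ring
  have hy : ∀ j : ℕ, 0 ≤ 9 * (m : ℝ) ^ 2 + (L + 1 + j) := fun j => by positivity
  apply kl
  · positivity
  · intro k _
    have e1 := hdiff (k + 1)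
    rw [show k + 1 + 1 = k + 2 by ring] at e1
    rw [hdiff k, e1]
    have h2 := (D_bound (hy k)).2
    have h3 := (D_bound (hy (k + 1))).1
    push_cast at h3 ⊢
    rw [show 9 * (m : ℝ) ^ 2 + (L + 1 + (k + 1)) = (9 * (m : ℝ) ^ 2 + (L + 1 + k)) + 1 by ring] at h3 ⊢
    linarith
  · intro k hk
    rw [hdiff k]
    have h2 := (D_bound (hy k)).1
    have h3 : 3 * (m : ℝ) + 3 * ((L + 1) / (18 * m + 3)) ≤ Real.sqrt (9 * (m : ℝ) ^ 2 + (L + 1 + k)) := by
      apply Real.le_sqrt_of_sq_le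
      have h4 : 3 * (((L : ℝ) + 1) / (18 * m + 3)) = (L + 1) / (6 * m + 1) := by
        rw [show 18 * (m : ℝ) + 3 = 3 * (6 * m + 1) by ring]
        field_simp
      rw [h4]
      set v : ℝ := (L + 1) / (6 * m + 1) with hv
      have hv0 : 0 ≤ v := by positivity
      have hv1 : v ≤ 1 := by
        rw [hv, div_le_one (by positivity)]
        linarith
      have hv2 : v * (6 * m + 1) = L + 1 := by
        rw [hv]; field_simp
      have hk0 : (0 : ℝ) ≤ k := Nat.cast_nonneg _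
      nlinarith
    linarith
  · intro k hk
    rw [hdiff k]
    have h2 := (D_bound (hy k)).2
    have hk' : (k : ℝ) + 1 ≤ 9 * m - L - 1 := by
      have : k + 1 ≤ 9 * m - L - 1 := hk
      have h5 : k + 1 + L + 1 ≤ 9 * m := by omega
      have : ((k + 1 + L + 1 : ℕ) : ℝ) ≤ ((9 * m : ℕ) : ℝ) := by exact_mod_cast h5
      push_cast at this
      linarith
    have h3 : Real.sqrt (9 * (m : ℝ) ^ 2 + (L + 1 + k) + 1) ≤ 3 * m + 2 := by
      rw [Real.sqrt_le_left (by positivity)]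
      nlinarith
    linarith

/-- The left outer part. -/
theorem left_part (m L : ℕ) (hm : 4 ≤ m) (hL : L ≤ m) (hL1 : 1 ≤ L) :
    ‖∑ j ∈ range (9 * m - L), e (Φ (9 * (m : ℝ) ^ 2 - (L + 1 + j)))‖ ≤
      2 + 1 / (Real.pi * ((L + 1) / (18 * m + 3))) := by
  have hm' : (4 : ℝ) ≤ m := by exact_mod_cast hm
  have hL' : (L : ℝ) ≤ m := by exact_mod_cast hL
  have hL0 : (0 : ℝ) ≤ L := Nat.cast_nonneg _
  set x : ℕ → ℝ := fun j => Φ (9 * (m : ℝ) ^ 2 - (L + 1 + j)) + m * (L + 1 + j) - 6 * m ^ 3 with hx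
  have h1 : ∀ j : ℕ, e (Φ (9 * (m : ℝ) ^ 2 - (L + 1 + j))) = e (x j) := by
    intro j
    rw [e_shift m (-(L + 1 + j))]
    congr 1
    simp only [hx]
    push_cast
    ring
  rw [sum_congr rfl (fun j _ => h1 j)]
  have hdiff : ∀ j : ℕ, x (j + 1) - x j = m -
      (Φ ((9 * (m : ℝ) ^ 2 - (L + 1 + (j + 1))) + 1) - Φ (9 * (m : ℝ) ^ 2 - (L + 1 + (j + 1)))) := by
    intro j
    simp only [hx]
    push_cast
    rw [show 9 * (m : ℝ) ^ 2 - (L + 1 + (j + 1)) + 1 = (9 * (m : ℝ) ^ 2 - (L + 1 + j)) by ring]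
    ring
  have hy : ∀ j : ℕ, j ≤ 9 * m - L → 0 ≤ 9 * (m : ℝ) ^ 2 - (L + 1 + (j + 1)) := by
    intro j hj
    have h5 : j + L ≤ 9 * m := by omega
    have : ((j + L : ℕ) : ℝ) ≤ ((9 * m : ℕ) : ℝ) := by exact_mod_cast h5
    push_cast at this
    nlinarith
  apply kl
  · positivity
  · intro k hk
    have e1 := hdiff (k + 1)
    rw [show k + 1 + 1 = k + 2 by ring] at e1
    rw [hdiff k, e1]
    have h2 := (D_bound (hy k (by omega))).1
    have h3 := (D_bound (hy (k + 1) (by omega))).2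
    push_cast at h3 ⊢
    have h4 : 9 * (m : ℝ) ^ 2 - (L + 1 + (k + 1 + 1)) + 1 = 9 * (m : ℝ) ^ 2 - (L + 1 + (k + 1)) := by ring
    rw [h4] at h3 ⊢
    linarith
  · intro k hk
    rw [hdiff k]
    have h2 := (D_bound (hy k (by omega))).2
    have h3 : Real.sqrt (9 * (m : ℝ) ^ 2 - (L + 1 + (k + 1)) + 1) ≤
        3 * (m : ℝ) - 3 * ((L + 1) / (18 * m + 3)) := by
      have h4 : 3 * (((L : ℝ) + 1) / (18 * m + 3)) = (L + 1) / (6 * m + 1) := by
        rw [show 18 * (m : ℝ) + 3 = 3 * (6 * m + 1) by ring]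
        field_simp
      rw [h4]
      set v : ℝ := (L + 1) / (6 * m + 1) with hv
      have hv0 : 0 ≤ v := by positivity
      have hv1 : v ≤ 1 := by
        rw [hv, div_le_one (by positivity)]
        linarith
      have hv2 : v * (6 * m + 1) = L + 1 := by
        rw [hv]; field_simp
      have hk0 : (0 : ℝ) ≤ k := Nat.cast_nonneg _
      rw [Real.sqrt_le_left (by linarith)]
      nlinarith
    linarith
  · intro k hk
    rw [hdiff k]
    have h2 := (D_bound (hy k (by omega))).1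
    have hk' : (k : ℝ) + 1 ≤ 9 * m - L := by
      have h5 : k + 1 + L ≤ 9 * m := by omega
      have : ((k + 1 + L : ℕ) : ℝ) ≤ ((9 * m : ℕ) : ℝ) := by exact_mod_cast h5
      push_cast at this
      linarith
    have h3 : 3 * (m : ℝ) - 2 ≤ Real.sqrt (9 * (m : ℝ) ^ 2 - (L + 1 + (k + 1))) := by
      apply Real.le_sqrt_of_sq_le
      nlinarith
    linarith

/-- The inner part. -/
theorem inner_part (m L : ℕ) (r : ℝ) (hm : 30 ≤ m) (hr : r ^ 2 = 18 * m) (hr0 : 2 ≤ r)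
    (h1 : (L : ℝ) ≤ r) (h2 : r < L + 1) :
    4 / 5 * r - 5 ≤ (∑ j ∈ range L, (e (Φ (9 * (m : ℝ) ^ 2 - (j + 1))) +
      e (Φ (9 * (m : ℝ) ^ 2 + (j + 1)))) + e (Φ (9 * (m : ℝ) ^ 2))).im := by
  have hm' : (30 : ℝ) ≤ m := by exact_mod_cast hm
  have hL0 : (0 : ℝ) ≤ L := Nat.cast_nonneg _
  have hL2 : (L : ℝ) ^ 2 ≤ 18 * m := by rw [← hr]; gcongr
  have hpi := Real.pi_pos
  have hpi4 := Real.pi_lt_d4
  have hc : (e (Φ (9 * (m : ℝ) ^ 2))).im = 0 := by
    rw [e_shift m 0]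
    have : Φ (9 * (m : ℝ) ^ 2) - m * ((0 : ℤ) : ℝ) - 6 * m ^ 3 = 0 := by
      unfold Φ
      rw [show 9 * (m : ℝ) ^ 2 = (3 * m) ^ 2 by ring, Real.sqrt_sq (by positivity)]
      push_cast
      ring
    rw [this, e_im, mul_zero, Real.sin_zero]
  rw [Complex.add_im, hc, add_zero, Complex.im_sum]
  have hterm : ∀ j ∈ range L, 2 * (3 * ((j + 1 : ℝ) ^ 2 / (18 * m)) * (1 - (j + 1 : ℝ) ^ 2 / (18 * m)) -
      2 * Real.pi * (L / (12 * m ^ 2))) ≤
      (e (Φ (9 * (m : ℝ) ^ 2 - (j + 1))) + e (Φ (9 * (m : ℝ) ^ 2 + (j + 1)))).im := by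
    intro j hj
    have hj' : (j : ℝ) + 1 ≤ L := by exact_mod_cast (mem_range.mp hj)
    have hj0 : (0 : ℝ) ≤ j := Nat.cast_nonneg _
    rw [Complex.add_im]
    have ha := inner_term (m := m) (t := j + 1) (L := L) (by linarith)
      (by rw [abs_of_nonneg (by positivity)]; exact hj') hL2
    have hb := inner_term (m := m) (t := -(j + 1)) (L := L) (by linarith)
      (by rw [abs_neg, abs_of_nonneg (by positivity)]; exact hj') hL2
    rw [← e_im] at ha hb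
    rw [e_shift m (-(j + 1)) (Φ (9 * (m : ℝ) ^ 2 - (j + 1))),
      e_shift m (j + 1) (Φ (9 * (m : ℝ) ^ 2 + (j + 1)))]
    push_cast
    rw [neg_sq] at hb
    rw [show 9 * (m : ℝ) ^ 2 + -(j + 1 : ℝ) = 9 * (m : ℝ) ^ 2 - (j + 1) by ring] at hb
    linarith
  refine le_trans ?_ (sum_le_sum hterm)
  have hs : ∑ j ∈ range L, 2 * (3 * ((j + 1 : ℝ) ^ 2 / (18 * m)) * (1 - (j + 1 : ℝ) ^ 2 / (18 * m)) -
      2 * Real.pi * (L / (12 * m ^ 2))) =
      6 / r ^ 4 * ∑ j ∈ range L, ((j + 1 : ℝ)) ^ 2 * (r ^ 2 - (j + 1 : ℝ) ^ 2) -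
        L * (4 * Real.pi * (L / (12 * m ^ 2))) := by
    rw [mul_sum]
    have : (L : ℝ) * (4 * Real.pi * (L / (12 * m ^ 2))) =
        ∑ j ∈ range L, 4 * Real.pi * ((L : ℝ) / (12 * m ^ 2)) := by
      rw [sum_const, card_range, nsmul_eq_mul]
    rw [this, ← sum_sub_distrib]
    apply sum_congr rfl
    intro j _
    rw [← hr]
    have hr1 : r ≠ 0 := by linarith
    field_simp
    ring
  rw [hs]
  have h3 := psum_lb hr0 h1 h2
  have h4 : (2 * r - 9) * 6 / 15 ≤ 6 / r ^ 4 * ∑ j ∈ range L, ((j + 1 : ℝ)) ^ 2 * (r ^ 2 - (j + 1 : ℝ) ^ 2) := by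
    calc (2 * r - 9) * 6 / 15 = 6 / r ^ 4 * ((2 * r - 9) / 15 * r ^ 4) := by
          have hr1 : r ≠ 0 := by linarith
          field_simp
      _ ≤ _ := by gcongr
  have h5 : (L : ℝ) * (4 * Real.pi * (L / (12 * m ^ 2))) ≤ 1 := by
    have : (L : ℝ) * (4 * Real.pi * (L / (12 * m ^ 2))) = Real.pi * L ^ 2 / (3 * m ^ 2) := by
      field_simp
      ring
    rw [this, div_le_one (by positivity)]
    nlinarith
  linarith

/-- One block. -/
theorem block (m : ℕ) (hm : 30 ≤ m) :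
    4 / 25 * Real.sqrt (18 * m) - 11 ≤
      (∑ j ∈ range (18 * m), e (Φ (9 * (m : ℝ) ^ 2 - 9 * m + j))).im := by
  have hm' : (30 : ℝ) ≤ m := by exact_mod_cast hm
  set r := Real.sqrt (18 * m) with hr
  have hr2 : r ^ 2 = 18 * m := Real.sq_sqrt (by positivity)
  have hr0 : 0 ≤ r := Real.sqrt_nonneg _
  have hr20 : 20 ≤ r := by
    rw [hr]
    apply Real.le_sqrt_of_sq_le
    linarith
  set L := Nat.sqrt (18 * m) with hLdef
  have h1 : (L : ℝ) ≤ r := by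
    have : L ^ 2 ≤ 18 * m := Nat.sqrt_le' _
    rw [hr]
    apply Real.le_sqrt_of_sq_le
    exact_mod_cast this
  have h2 : r < L + 1 := by
    have : 18 * m < (L + 1) ^ 2 := Nat.lt_succ_sqrt' _
    rw [hr, Real.sqrt_lt' (by positivity)]
    exact_mod_cast this
  have hrm : r ≤ m := by nlinarith
  have hLm : L ≤ m := by
    have : (L : ℝ) ≤ m := le_trans h1 hrm
    exact_mod_cast this
  have hL1 : 1 ≤ L := by
    have : (1 : ℝ) ≤ L := by linarith
    exact_mod_cast this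
  have hsplit := split_block (fun y => e (Φ y)) m L (by omega)
  rw [hsplit]
  have hleft := left_part m L (by omega) hLm hL1
  have hright := right_part m L (by omega) hLm hL1
  have hinner := inner_part m L r hm hr2 (by linarith) h1 h2
  have hpi := Real.pi_pos
  have hpi2 := Real.pi_gt_d2
  have hθ : 1 / (Real.pi * (((L : ℝ) + 1) / (18 * m + 3))) ≤ (r + 1) / 3.14 := by
    have hL0 : (0 : ℝ) ≤ L := Nat.cast_nonneg _
    have e1 : 1 / (Real.pi * (((L : ℝ) + 1) / (18 * m + 3))) = (18 * m + 3) / (Real.pi * (L + 1)) := by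
      field_simp
    rw [e1, div_le_div_iff₀ (by positivity) (by norm_num), ← hr2]
    have e2 : (r ^ 2 + 3) ≤ (r + 1) * (L + 1) := by nlinarith
    have e3 : 0 ≤ (r + 1) * (L + 1) := by positivity
    calc (r ^ 2 + 3) * 3.14 ≤ ((r + 1) * (L + 1)) * 3.14 := by gcongr
      _ ≤ ((r + 1) * (L + 1)) * Real.pi := by gcongr
      _ = _ := by ring
  have hl := Complex.abs_im_le_norm (∑ j ∈ range (9 * m - L), e (Φ (9 * (m : ℝ) ^ 2 - (L + 1 + j))))
  have hrr := Complex.abs_im_le_norm (∑ j ∈ range (9 * m - L - 1), e (Φ (9 * (m : ℝ) ^ 2 + (L + 1 + j))))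
  have hl2 := (abs_le.mp hl).1
  have hr3 := (abs_le.mp hrr).1
  rw [Complex.add_im, add_assoc, Complex.add_im]
  have : (r + 1) / 3.14 ≤ 0.32 * (r + 1) := by
    rw [div_le_iff₀ (by norm_num)]
    nlinarith
  linarith

end Pool.Agent.R377.EP
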