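import Mathlib
import Pool.Agent.R377.ExpPairBlock

/-!
# The exponential sums of `(2/9) n^(3/2)`: the lower bound
-/

set_option autoImplicit false

namespace Pool.Agent.R377.EP

open Finset Pool.Agent.R377.KL

/-- The end points of the blocks. -/
def A (m : ℕ) : ℕ := 9 * (m * (m - 1))

theorem A_succ (m : ℕ) : A (m + 1) = A m + 18 * m := by
  rcases m with _ | m
  · simp [A]
  · simp only [A, Nat.add_sub_cancel]
    ring

theorem A_cast (m : ℕ) : (A m : ℝ) = 9 * (m : ℝ) ^ 2 - 9 * m := by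
  rcases m with _ | m
  · simp [A]
  · simp only [A, Nat.add_sub_cancel]
    push_cast
    ring

theorem sum_blocks (G : ℕ → ℂ) {m0 m1 : ℕ} (h : m0 ≤ m1) :
    A m0 ≤ A m1 ∧ ∑ n ∈ Ico (A m0) (A m1), G n =
      ∑ m ∈ Ico m0 m1, ∑ j ∈ range (18 * m), G (A m + j) := by
  induction m1, h using Nat.le_induction with
  | base => simp
  | succ m1 hm ih =>
    have h1 : A m1 ≤ A (m1 + 1) := by rw [A_succ]; omega
    refine ⟨le_trans ih.1 h1, ?_⟩
    have h2 : A (m1 + 1) - A m1 = 18 * m1 := by rw [A_succ]; omega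
    rw [← sum_Ico_consecutive _ ih.1 h1, ih.2, sum_Ico_succ_top hm, sum_Ico_eq_sum_range _ (A m1), h2]

theorem lower (k : ℕ) (hk : 10 ≤ k) :
    (k : ℝ) * (Real.sqrt k - 11) ≤ ‖∑ n ∈ Ico (A (3 * k)) (A (4 * k)), e (Φ n)‖ := by
  have hk' : (10 : ℝ) ≤ k := by exact_mod_cast hk
  refine le_trans ?_ (Complex.abs_im_le_norm _)
  refine le_trans ?_ (le_abs_self _)
  rw [(sum_blocks (fun n => e (Φ n)) (show 3 * k ≤ 4 * k by omega)).2, Complex.im_sum]
  have h1 : ∀ m ∈ Ico (3 * k) (4 * k), Real.sqrt k - 11 ≤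
      (∑ j ∈ range (18 * m), e (Φ ((A m + j : ℕ) : ℝ))).im := by
    intro m hm
    have hm1 := (mem_Ico.mp hm).1
    have hb := block m (by omega)
    have h2 : ∑ j ∈ range (18 * m), e (Φ ((A m + j : ℕ) : ℝ)) =
        ∑ j ∈ range (18 * m), e (Φ (9 * (m : ℝ) ^ 2 - 9 * m + j)) := by
      apply sum_congr rfl
      intro j _
      rw [Nat.cast_add, A_cast]
    rw [h2]
    refine le_trans ?_ hb
    have h3 : Real.sqrt k ≤ 4 / 25 * Real.sqrt (18 * m) := by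
      have : Real.sqrt (18 * m) = Real.sqrt (18 * m / k) * Real.sqrt k := by
        rw [← Real.sqrt_mul (by positivity)]
        congr 1
        field_simp
      rw [this]
      have h4 : 25 / 4 ≤ Real.sqrt (18 * m / k) := by
        apply Real.le_sqrt_of_sq_le
        rw [le_div_iff₀ (by positivity)]
        have : (3 * k : ℝ) ≤ m := by exact_mod_cast hm1
        nlinarith
      have h5 : 0 ≤ Real.sqrt (k : ℝ) := Real.sqrt_nonneg _
      nlinarith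
    linarith
  have h2 := sum_le_sum h1
  rw [sum_const, Nat.card_Ico, nsmul_eq_mul] at h2
  rw [show 4 * k - 3 * k = k by omega] at h2
  exact h2

/-- The same with the phase written as a real power. -/
theorem Φ_eq (y : ℝ) (hy : 0 ≤ y) : Φ y = 2 / 9 * y ^ (3 / 2 : ℝ) := by
  unfold Φ
  rw [Real.sqrt_eq_rpow, ← Real.rpow_natCast, ← Real.rpow_mul hy]
  norm_num

/-- The function of the problem. -/
noncomputable def ff (x : ℝ) : ℝ := 2 / 9 * x ^ (3 / 2 : ℝ)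

/-- The coefficients of the derivatives. -/
noncomputable def co (j : ℕ) : ℝ := 2 / 9 * |(descPochhammer ℝ j).eval (3 / 2 : ℝ)|

theorem co_pos (j : ℕ) : 0 < co j := by
  unfold co
  apply mul_pos (by norm_num)
  rw [abs_pos, descPochhammer_eval_eq_prod_range, Finset.prod_ne_zero_iff]
  intro i _ h
  have h1 : (3 : ℝ) = ((2 * i : ℕ) : ℝ) := by
    push_cast
    linarith
  have h2 : 3 = 2 * i := by exact_mod_cast h1
  omega

theorem ff_contDiffAt {x : ℝ} (hx : 0 < x) (n : WithTop ℕ∞) : ContDiffAt ℝ n ff x :=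
  contDiffAt_const.mul (Real.contDiffAt_rpow_const_of_ne hx.ne')

theorem ff_iter {N x : ℝ} (hN : 0 < N) (hx : x ∈ Set.Icc N (2 * N)) (j : ℕ) :
    iteratedDerivWithin j ff (Set.Icc N (2 * N)) x =
      2 / 9 * ((descPochhammer ℝ j).eval (3 / 2 : ℝ) * x ^ ((3 / 2 : ℝ) - j)) := by
  have hx0 : 0 < x := lt_of_lt_of_le hN hx.1
  rw [iteratedDerivWithin_eq_iteratedDeriv (uniqueDiffOn_Icc (by linarith)) (ff_contDiffAt hx0 j) hx]
  have h1 : ff = fun y : ℝ => (2 / 9 : ℝ) * (fun z : ℝ => z ^ (3 / 2 : ℝ)) y := rfl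
  rw [h1, iteratedDeriv_const_mul_field, iteratedDeriv_eq_iterate, Real.iter_deriv_rpow_const]

theorem ff_adm {N : ℝ} (hN : 0 < N) (j : ℕ) (x : ℝ) (hx : x ∈ Set.Icc N (2 * N)) :
    (co j * (1 / 2) ^ j) * N ^ (3 / 2 : ℝ) / N ^ j ≤
      |iteratedDerivWithin j ff (Set.Icc N (2 * N)) x| ∧
    |iteratedDerivWithin j ff (Set.Icc N (2 * N)) x| ≤ (co j * 4) * N ^ (3 / 2 : ℝ) / N ^ j := by
  have hx0 : 0 < x := lt_of_lt_of_le hN hx.1
  have hco := co_pos j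
  rw [ff_iter hN hx j]
  have h1 : |2 / 9 * ((descPochhammer ℝ j).eval (3 / 2 : ℝ) * x ^ ((3 / 2 : ℝ) - j))| =
      co j * (x ^ (3 / 2 : ℝ) / x ^ j) := by
    rw [abs_mul, abs_mul, abs_of_pos (show (0 : ℝ) < 2 / 9 by norm_num),
      abs_of_pos (Real.rpow_pos_of_pos hx0 _), Real.rpow_sub hx0, Real.rpow_natCast]
    unfold co
    ring
  rw [h1]
  constructor
  · have h2 : N ^ (3 / 2 : ℝ) ≤ x ^ (3 / 2 : ℝ) := Real.rpow_le_rpow hN.le hx.1 (by norm_num)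
    have h3 : x ^ j ≤ 2 ^ j * N ^ j := by
      rw [← mul_pow]
      exact pow_le_pow_left₀ hx0.le hx.2 j
    have h4 : N ^ (3 / 2 : ℝ) / (2 ^ j * N ^ j) ≤ x ^ (3 / 2 : ℝ) / x ^ j := by
      have : 0 < N ^ (3 / 2 : ℝ) := Real.rpow_pos_of_pos hN _
      exact div_le_div₀ (le_trans this.le h2) h2 (by positivity) h3
    calc (co j * (1 / 2) ^ j) * N ^ (3 / 2 : ℝ) / N ^ j = co j * (N ^ (3 / 2 : ℝ) / (2 ^ j * N ^ j)) := by
          rw [one_div, inv_pow]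
          field_simp
      _ ≤ _ := by gcongr
  · have h2 : x ^ (3 / 2 : ℝ) ≤ 4 * N ^ (3 / 2 : ℝ) := by
      calc x ^ (3 / 2 : ℝ) ≤ (2 * N) ^ (3 / 2 : ℝ) := Real.rpow_le_rpow hx0.le hx.2 (by norm_num)
        _ = 2 ^ (3 / 2 : ℝ) * N ^ (3 / 2 : ℝ) := Real.mul_rpow (by norm_num) hN.le
        _ ≤ 2 ^ (2 : ℝ) * N ^ (3 / 2 : ℝ) := by
            apply mul_le_mul_of_nonneg_right _ (Real.rpow_nonneg hN.le _)
            exact Real.rpow_le_rpow_of_exponent_le (by norm_num) (by norm_num)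
        _ = _ := by norm_num
    have h3 : N ^ j ≤ x ^ j := pow_le_pow_left₀ hN.le hx.1 j
    have h4 : x ^ (3 / 2 : ℝ) / x ^ j ≤ 4 * N ^ (3 / 2 : ℝ) / N ^ j := by
      have : 0 < N ^ (3 / 2 : ℝ) := Real.rpow_pos_of_pos hN _
      exact div_le_div₀ (by positivity) h2 (by positivity) h3
    calc co j * (x ^ (3 / 2 : ℝ) / x ^ j) ≤ co j * (4 * N ^ (3 / 2 : ℝ) / N ^ j) := by gcongr
      _ = _ := by ring

/-- The sum over the blocks in the form used in the problem. -/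
theorem lower' (k : ℕ) (hk : 10 ≤ k) :
    (k : ℝ) * (Real.sqrt k - 11) ≤
      ‖∑ n ∈ Icc ⌈((A (3 * k) : ℕ) : ℝ)⌉₊ ⌊((A (4 * k) - 1 : ℕ) : ℝ)⌋₊,
        Complex.exp (2 * (Real.pi : ℂ) * Complex.I * ((ff (n : ℝ) : ℝ) : ℂ))‖ := by
  rw [Nat.ceil_natCast, Nat.floor_natCast]
  have h4 : 1 ≤ A (4 * k) := by
    unfold A
    have : 0 < 4 * k * (4 * k - 1) := Nat.mul_pos (by omega) (by omega)
    omega
  have h1 : Icc (A (3 * k)) (A (4 * k) - 1) = Ico (A (3 * k)) (A (4 * k)) := by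
    ext n
    simp only [mem_Icc, mem_Ico]
    omega
  rw [h1]
  refine le_trans (lower k hk) (le_of_eq ?_)
  congr 1
  apply sum_congr rfl
  intro n _
  unfold e ff
  rw [Φ_eq _ (Nat.cast_nonneg n)]

/-- The range of summation is allowed. -/
theorem range_ok (k : ℕ) (hk : 10 ≤ k) :
    (2 : ℝ) ≤ (A (3 * k) : ℕ) ∧ ((A (3 * k) : ℕ) : ℝ) ≤ ((A (4 * k) - 1 : ℕ) : ℝ) ∧
      ((A (4 * k) - 1 : ℕ) : ℝ) ≤ 2 * ((A (3 * k) : ℕ) : ℝ) ∧
      ((A (3 * k) : ℕ) : ℝ) ≤ 81 * (k : ℝ) ^ 2 := by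
  have hk' : (10 : ℝ) ≤ k := by exact_mod_cast hk
  have h4 : 1 ≤ A (4 * k) := by
    unfold A
    have : 0 < 4 * k * (4 * k - 1) := Nat.mul_pos (by omega) (by omega)
    omega
  rw [Nat.cast_sub h4, A_cast, A_cast]
  push_cast
  refine ⟨?_, ?_, ?_, ?_⟩ <;> nlinarith

end Pool.Agent.R377.EP
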