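import Mathlib

/-!
A continuous character `ψ` of `ℤ_p^×` with values in the multiplicative group of the algebraic
closure of `ℚ_p` with `ψ (u) ^ 2 = u⁻¹` for `u` close to `1`.
-/

set_option linter.unusedSectionVars false

namespace Pool.Agent.R377

variable {p : ℕ} [hp : Fact p.Prime]

theorem norm_unit (u : ℤ_[p]ˣ) : ‖(u : ℤ_[p])‖ = 1 := PadicInt.isUnit_iff.1 u.isUnit

theorem norm_mul_sub_one (u v : ℤ_[p]ˣ) :
    ‖((u * v : ℤ_[p]ˣ) : ℤ_[p]) - 1‖ ≤ max ‖(u : ℤ_[p]) - 1‖ ‖(v : ℤ_[p]) - 1‖ := by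
  have h : ((u * v : ℤ_[p]ˣ) : ℤ_[p]) - 1 = ((u : ℤ_[p]) - 1) * v + ((v : ℤ_[p]) - 1) := by
    push_cast
    ring
  rw [h]
  refine (PadicInt.nonarchimedean _ _).trans ?_
  rw [norm_mul, norm_unit, mul_one]

theorem norm_inv_sub_one (u : ℤ_[p]ˣ) : ‖((u⁻¹ : ℤ_[p]ˣ) : ℤ_[p]) - 1‖ = ‖(u : ℤ_[p]) - 1‖ := by
  have h : ((u⁻¹ : ℤ_[p]ˣ) : ℤ_[p]) - 1 = -(((u⁻¹ : ℤ_[p]ˣ) : ℤ_[p]) * ((u : ℤ_[p]) - 1)) := by
    rw [mul_sub, Units.inv_mul]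
    ring
  rw [h, norm_neg, norm_mul, norm_unit, one_mul]

/-- the units `u` with `‖u - 1‖ < ‖a‖` -/
def UU (a : ℤ_[p]) (ha : a ≠ 0) : Subgroup ℤ_[p]ˣ where
  carrier := {u | ‖(u : ℤ_[p]) - 1‖ < ‖a‖}
  mul_mem' := fun {u v} hu hv => lt_of_le_of_lt (norm_mul_sub_one u v) (max_lt hu hv)
  one_mem' := by
    change ‖((1 : ℤ_[p]ˣ) : ℤ_[p]) - 1‖ < ‖a‖
    simpa using ha
  inv_mem' := fun {u} hu => by
    change ‖((u⁻¹ : ℤ_[p]ˣ) : ℤ_[p]) - 1‖ < ‖a‖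
    rw [norm_inv_sub_one]
    exact hu

theorem mem_UU {a : ℤ_[p]} {ha : a ≠ 0} {u : ℤ_[p]ˣ} : u ∈ UU a ha ↔ ‖(u : ℤ_[p]) - 1‖ < ‖a‖ :=
  Iff.rfl

theorem isOpen_UU (a : ℤ_[p]) (ha : a ≠ 0) : IsOpen ((UU a ha : Subgroup ℤ_[p]ˣ) : Set ℤ_[p]ˣ) := by
  have h : Continuous fun u : ℤ_[p]ˣ => ‖(u : ℤ_[p]) - 1‖ :=
    (Units.continuous_val.sub continuous_const).norm
  exact isOpen_lt h continuous_const

instance finiteIndex_UU (a : ℤ_[p]) (ha : a ≠ 0) : (UU a ha).FiniteIndex := by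
  have : Finite (ℤ_[p]ˣ ⧸ UU a ha) := Subgroup.quotient_finite_of_isOpen _ (isOpen_UU a ha)
  exact Subgroup.finiteIndex_of_finite_quotient

theorem two_ne : (2 : ℤ_[p]) ≠ 0 := two_ne_zero

theorem four_ne : (4 : ℤ_[p]) ≠ 0 := by
  have h : (4 : ℤ_[p]) = ((4 : ℕ) : ℤ_[p]) := by norm_cast
  rw [h, Nat.cast_ne_zero]
  norm_num

theorem norm_four : ‖(4 : ℤ_[p])‖ = ‖(2 : ℤ_[p])‖ * ‖(2 : ℤ_[p])‖ := by
  rw [← norm_mul]; norm_num

theorem norm_add_one {x : ℤ_[p]ˣ} (hx : x ∈ UU (2 : ℤ_[p]) two_ne) :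
    ‖(x : ℤ_[p]) + 1‖ = ‖(2 : ℤ_[p])‖ := by
  rw [mem_UU] at hx
  have h : (x : ℤ_[p]) + 1 = ((x : ℤ_[p]) - 1) + 2 := by ring
  rw [h, PadicInt.norm_add_eq_max_of_ne hx.ne, max_eq_right hx.le]

theorem norm_sq_sub_one {x : ℤ_[p]ˣ} (hx : x ∈ UU (2 : ℤ_[p]) two_ne) :
    ‖((x ^ 2 : ℤ_[p]ˣ) : ℤ_[p]) - 1‖ = ‖(x : ℤ_[p]) - 1‖ * ‖(2 : ℤ_[p])‖ := by
  have h : ((x ^ 2 : ℤ_[p]ˣ) : ℤ_[p]) - 1 = ((x : ℤ_[p]) - 1) * ((x : ℤ_[p]) + 1) := by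
    push_cast
    ring
  rw [h, norm_mul, norm_add_one hx]

/-- squaring -/
noncomputable def sqH : UU (2 : ℤ_[p]) two_ne →* UU (4 : ℤ_[p]) four_ne where
  toFun x := ⟨(x : ℤ_[p]ˣ) ^ 2, by
    rw [mem_UU, norm_sq_sub_one x.2, norm_four]
    exact mul_lt_mul_of_pos_right x.2 (norm_pos_iff.2 two_ne)⟩
  map_one' := by ext; simp
  map_mul' x y := by ext; simp [mul_pow]

theorem sqH_inj : Function.Injective (sqH (p := p)) := by
  rw [injective_iff_map_eq_one]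
  intro x hx
  have h1 : ((x : ℤ_[p]ˣ) ^ 2) = 1 := congrArg Subtype.val hx
  have h2 := norm_sq_sub_one x.2
  rw [h1] at h2
  have h3 : ‖((x : ℤ_[p]ˣ) : ℤ_[p]) - 1‖ * ‖(2 : ℤ_[p])‖ = 0 := by
    rw [← h2]; simp
  have h4 : ‖((x : ℤ_[p]ˣ) : ℤ_[p]) - 1‖ = 0 := by
    rcases mul_eq_zero.1 h3 with h | h
    · exact h
    · exact absurd (norm_eq_zero.1 h) two_ne
  rw [norm_eq_zero, sub_eq_zero] at h4
  apply Subtype.ext
  apply Units.ext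
  exact h4

theorem sqH_surj : Function.Surjective (sqH (p := p)) := by
  rintro ⟨v, hv⟩
  rw [mem_UU, norm_four] at hv
  obtain ⟨z, hz, hz1, -, -⟩ := hensels_lemma (p := p) (R := ℤ_[p])
    (F := (Polynomial.X ^ 2 - Polynomial.C (v : ℤ_[p]) : Polynomial ℤ_[p])) (a := 1) (by
      have h1 : Polynomial.aeval (1 : ℤ_[p]) (Polynomial.X ^ 2 - Polynomial.C (v : ℤ_[p])) =
        1 - (v : ℤ_[p]) := by simp
      have h2 : Polynomial.aeval (1 : ℤ_[p])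
        (Polynomial.derivative (Polynomial.X ^ 2 - Polynomial.C (v : ℤ_[p]))) = 2 := by
        simp [one_add_one_eq_two]
      rw [h1, h2, norm_sub_rev, pow_two]
      exact hv)
  have h2 : Polynomial.aeval (1 : ℤ_[p])
        (Polynomial.derivative (Polynomial.X ^ 2 - Polynomial.C (v : ℤ_[p]))) = 2 := by
        simp [one_add_one_eq_two]
  rw [h2] at hz1
  have hz' : z ^ 2 = v := by
    simpa [sub_eq_zero] using hz
  have hu : IsUnit z := by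
    have : IsUnit (z ^ 2) := by rw [hz']; exact v.isUnit
    exact (isUnit_pow_iff two_ne_zero).1 this
  obtain ⟨x, rfl⟩ := hu
  refine ⟨⟨x, hz1⟩, ?_⟩
  apply Subtype.ext
  apply Units.ext
  change ((x ^ 2 : ℤ_[p]ˣ) : ℤ_[p]) = v
  push_cast
  exact hz'

/-- squaring as an isomorphism -/
noncomputable def sqE : UU (2 : ℤ_[p]) two_ne ≃* UU (4 : ℤ_[p]) four_ne :=
  MulEquiv.ofBijective sqH ⟨sqH_inj, sqH_surj⟩

/-- the inverse square root -/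
noncomputable def psi0 : UU (4 : ℤ_[p]) four_ne →* ℤ_[p]ˣ :=
  (UU (2 : ℤ_[p]) two_ne).subtype.comp (sqE.symm.toMonoidHom.comp (invMonoidHom))

theorem psi0_sq (u : UU (4 : ℤ_[p]) four_ne) : psi0 u ^ 2 = (u : ℤ_[p]ˣ)⁻¹ := by
  have h : sqE (sqE.symm u⁻¹) = u⁻¹ := MulEquiv.apply_symm_apply _ _
  exact congrArg Subtype.val h

theorem norm_psi0 (u : UU (4 : ℤ_[p]) four_ne) :
    ‖(psi0 u : ℤ_[p]) - 1‖ * ‖(2 : ℤ_[p])‖ = ‖((u : ℤ_[p]ˣ) : ℤ_[p]) - 1‖ := by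
  have h : psi0 u ∈ UU (2 : ℤ_[p]) two_ne := (sqE.symm u⁻¹).2
  rw [← norm_sq_sub_one h, psi0_sq, norm_inv_sub_one]

/-- the inclusion of `ℤ_p^×` in the multiplicative group of the algebraic closure of `ℚ_p` -/
noncomputable def iot : ℤ_[p]ˣ →* (PadicAlgCl p)ˣ :=
  Units.map ((algebraMap ℚ_[p] (PadicAlgCl p)).comp (algebraMap ℤ_[p] ℚ_[p]) : ℤ_[p] →* PadicAlgCl p)

theorem coe_iot (u : ℤ_[p]ˣ) :
    (iot u : PadicAlgCl p) = algebraMap ℚ_[p] (PadicAlgCl p) ((u : ℤ_[p]) : ℚ_[p]) := rfl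

theorem norm_iot_sub_one (u : ℤ_[p]ˣ) : ‖(iot u : PadicAlgCl p) - 1‖ = ‖(u : ℤ_[p]) - 1‖ := by
  have h : (iot u : PadicAlgCl p) - 1 =
      algebraMap ℚ_[p] (PadicAlgCl p) (((u : ℤ_[p]) - 1 : ℤ_[p]) : ℚ_[p]) := by
    rw [coe_iot, PadicInt.coe_sub, map_sub, PadicInt.coe_one, map_one]
  rw [h]
  exact PadicAlgCl.norm_extends p _

theorem exists_ext : ∃ ψ : ℤ_[p]ˣ →* (PadicAlgCl p)ˣ,
    ∀ u : UU (4 : ℤ_[p]) four_ne, ψ (u : ℤ_[p]ˣ) = iot (psi0 u) := by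
  have hdiv : ∀ {n : ℕ}, n ≠ 0 →
      Function.Surjective (fun a : Additive (PadicAlgCl p)ˣ => n • a) := by
    intro n hn y
    obtain ⟨z, hz⟩ := IsAlgClosed.exists_pow_nat_eq ((y.toMul : (PadicAlgCl p)ˣ) : PadicAlgCl p)
      (Nat.pos_of_ne_zero hn)
    have hz0 : z ≠ 0 := by
      rintro rfl
      rw [zero_pow hn] at hz
      exact (Units.ne_zero _) hz.symm
    refine ⟨Additive.ofMul (Units.mk0 z hz0), ?_⟩
    apply Additive.toMul.injective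
    apply Units.ext
    exact hz
  let i1 : DivisibleBy (Additive (PadicAlgCl p)ˣ) ℕ := divisibleByOfSMulRightSurj _ _ hdiv
  let i2 : DivisibleBy (Additive (PadicAlgCl p)ˣ) ℤ := AddGroup.divisibleByIntOfDivisibleByNat _
  have hB : Module.Baer ℤ (Additive (PadicAlgCl p)ˣ) := Module.Baer.of_divisible _
  obtain ⟨h, hh⟩ := hB.extension_property_addMonoidHom
    (MonoidHom.toAdditive (UU (4 : ℤ_[p]) four_ne).subtype)
    (fun a b hab => Additive.toMul.injective (Subtype.ext (congrArg Additive.toMul hab)))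
    (MonoidHom.toAdditive ((iot (p := p)).comp psi0))
  refine ⟨MonoidHom.toAdditive.symm h, fun u => ?_⟩
  have h1 := congrArg (fun f => f (Additive.ofMul u)) hh
  exact congrArg Additive.toMul h1

/-- The character `ψ`, an inverse square root near `1`. -/
noncomputable def psi : ℤ_[p]ˣ →* (PadicAlgCl p)ˣ := (exists_ext (p := p)).choose

theorem psi_eq {u : ℤ_[p]ˣ} (hu : u ∈ UU (4 : ℤ_[p]) four_ne) : psi u = iot (psi0 ⟨u, hu⟩) :=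
  (exists_ext (p := p)).choose_spec ⟨u, hu⟩

theorem psi_sq {u : ℤ_[p]ˣ} (hu : u ∈ UU (4 : ℤ_[p]) four_ne) : psi u ^ 2 = iot u⁻¹ := by
  rw [psi_eq hu, ← map_pow, psi0_sq]

theorem psi_pow (u : ℤ_[p]ˣ) :
    psi u ^ (2 * (UU (4 : ℤ_[p]) four_ne).index) = iot (u ^ (UU (4 : ℤ_[p]) four_ne).index)⁻¹ := by
  rw [mul_comm, pow_mul, ← map_pow, psi_sq (Subgroup.pow_index_mem _ _)]

theorem index_ne : (UU (4 : ℤ_[p]) four_ne).index ≠ 0 := Subgroup.FiniteIndex.index_ne_zero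


theorem continuous_psi : Continuous (psi (p := p)) := by
  apply continuous_of_continuousAt_one
  rw [ContinuousAt, map_one, Units.isEmbedding_val₀.tendsto_nhds_iff]
  rw [tendsto_iff_norm_sub_tendsto_zero]
  have h2 : 0 < ‖(2 : ℤ_[p])‖ := norm_pos_iff.2 two_ne
  have h1 : Filter.Tendsto (fun u : ℤ_[p]ˣ => ‖(u : ℤ_[p]) - 1‖ / ‖(2 : ℤ_[p])‖) (nhds 1)
      (nhds 0) := by
    have h : Continuous fun u : ℤ_[p]ˣ => ‖(u : ℤ_[p]) - 1‖ / ‖(2 : ℤ_[p])‖ :=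
      (Units.continuous_val.sub continuous_const).norm.div_const _
    have := h.tendsto 1
    simpa using this
  refine h1.congr' ?_
  filter_upwards [(isOpen_UU (4 : ℤ_[p]) four_ne).mem_nhds (one_mem _)] with u hu
  rw [Function.comp_apply, psi_eq hu, Units.val_one, norm_iot_sub_one,
    div_eq_iff h2.ne', norm_psi0]

end Pool.Agent.R377
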