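import Pool.Agent.R377.Roots
import Pool.Agent.R377.Psi

/-!
The half twist as a character of the absolute Galois group of a number field: ramification and
Frobenius elements.
-/

set_option linter.unusedSectionVars false

namespace Pool.Agent.R377

open NumberField

theorem eq_one_of_sub_mem {S : Type*} [CommRing S] [IsDomain S] (P : Ideal S) [P.IsPrime] {l : ℕ}
    (hl : (l : S) ∉ P) {n : ℕ} {ξ : S} (h : ξ ^ l ^ n = 1) (hP : ξ - 1 ∈ P) : ξ = 1 := by
  induction n generalizing ξ with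
  | zero => simpa using h
  | succ n ih =>
    have h1 : ξ ^ l = 1 := by
      apply ih
      · rw [← pow_mul, ← pow_succ']
        exact h
      · have h2 : ξ ^ l - 1 = (∑ i ∈ Finset.range l, ξ ^ i) * (ξ - 1) := (geom_sum_mul ξ l).symm
        rw [h2]
        exact Ideal.mul_mem_left _ _ hP
    by_contra h0
    have h2 : (∑ i ∈ Finset.range l, ξ ^ i) * (ξ - 1) = 0 := by
      rw [geom_sum_mul, h1, sub_self]
    rcases mul_eq_zero.1 h2 with h3 | h3
    · apply hl
      have h4 := congrArg (Ideal.Quotient.mk P) h3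
      rw [map_sum, map_zero] at h4
      have h5 : Ideal.Quotient.mk P ξ = 1 := by
        rw [← map_one (Ideal.Quotient.mk P), Ideal.Quotient.eq]
        exact hP
      simp only [map_pow, h5, one_pow, Finset.sum_const, Finset.card_range, nsmul_eq_mul,
        mul_one] at h4
      rw [← Ideal.Quotient.eq_zero_iff_mem, map_natCast]
      exact h4
    · exact h0 (sub_eq_zero.1 h3)

theorem eq_of_sub_mem {S : Type*} [CommRing S] [IsDomain S] (P : Ideal S) [P.IsPrime] {l : ℕ}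
    [hl : Fact l.Prime] (hP : (l : S) ∉ P) {n : ℕ} {a b : S} (ha : a ^ l ^ n = 1)
    (hb : b ^ l ^ n = 1) (h : a - b ∈ P) : a = b := by
  have hb' : b ^ (l ^ n - 1) * b = 1 := by
    rw [← pow_succ, Nat.sub_add_cancel (pow_pos hl.out.pos n), hb]
  have h2 : a * b ^ (l ^ n - 1) = 1 := by
    refine eq_one_of_sub_mem P hP (n := n) ?_ ?_
    · rw [mul_pow, ha, one_mul, ← pow_mul, mul_comm, pow_mul, hb, one_pow]
    · have h3 : a * b ^ (l ^ n - 1) - 1 = (a - b) * b ^ (l ^ n - 1) := by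
        rw [sub_mul, mul_comm b, hb']
      rw [h3]
      exact Ideal.mul_mem_right _ _ h
  calc a = a * (b ^ (l ^ n - 1) * b) := by rw [hb', mul_one]
    _ = (a * b ^ (l ^ n - 1)) * b := by ring
    _ = b := by rw [h2, one_mul]

variable (l : ℕ) [hl : Fact l.Prime] (F : Type*) [Field F] [NumberField F]

/-- the `l`-adic cyclotomic character of the absolute Galois group of `F` -/
noncomputable def chiF : Gal(AlgebraicClosure F/F) →* ℤ_[l]ˣ :=
  (cyclotomicCharacter (AlgebraicClosure F) l).comp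
    (MulSemiringAction.toRingAut Gal(AlgebraicClosure F/F) (AlgebraicClosure F))

/-- the half twist -/
noncomputable def rho : Gal(AlgebraicClosure F/F) →* (PadicAlgCl l)ˣ := psi.comp (chiF l F)

theorem continuous_rho : Continuous (rho l F) :=
  continuous_psi.comp (cyclotomicCharacter.continuous l F (AlgebraicClosure F))

instance : CharZero (AlgebraicClosure F) :=
  charZero_of_injective_algebraMap (algebraMap F (AlgebraicClosure F)).injective

/-- the roots of unity as algebraic integers -/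
noncomputable def zO (n : ℕ) : 𝓞 (AlgebraicClosure F) :=
  ⟨zs l (AlgebraicClosure F) n, by
    rw [mem_integralClosure_iff]
    exact (zs_prim l (AlgebraicClosure F) n).isIntegral (pow_pos hl.out.pos n)⟩

theorem coe_zO (n : ℕ) : ((zO l F n : 𝓞 (AlgebraicClosure F)) : AlgebraicClosure F) =
    zs l (AlgebraicClosure F) n := rfl

theorem zO_pow (n : ℕ) : zO l F n ^ l ^ n = 1 := by
  apply RingOfIntegers.ext
  have h : algebraMap (𝓞 (AlgebraicClosure F)) (AlgebraicClosure F) (zO l F n ^ l ^ n) =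
      (zs l (AlgebraicClosure F) n) ^ l ^ n := map_pow _ _ _
  exact h.trans (zs_prim l (AlgebraicClosure F) n).pow_eq_one

variable {l F}

theorem chiF_toZModPow (σ : Gal(AlgebraicClosure F/F)) {n a : ℕ}
    (h : σ • zO l F n = zO l F n ^ a) :
    (chiF l F σ : ℤ_[l]).toZModPow n = (a : ZMod (l ^ n)) := by
  refine chi_toZModPow l _ (zs_prim l (AlgebraicClosure F) n) ?_
  have h1 := congrArg (algebraMap (𝓞 (AlgebraicClosure F)) (AlgebraicClosure F)) h
  rw [map_pow] at h1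
  exact h1

theorem chiF_inertia (P : Ideal (𝓞 (AlgebraicClosure F))) [P.IsPrime]
    (hP : (l : 𝓞 (AlgebraicClosure F)) ∉ P) (τ : Gal(AlgebraicClosure F/F))
    (hτ : ∀ x : 𝓞 (AlgebraicClosure F), τ • x - x ∈ P) : chiF l F τ = 1 := by
  apply Units.ext
  refine PadicInt.ext_of_toZModPow.1 fun n => ?_
  have h1 : τ • zO l F n = zO l F n ^ 1 := by
    rw [pow_one]
    refine eq_of_sub_mem P hP (n := n) ?_ (zO_pow l F n) (hτ _)
    rw [← smul_pow', zO_pow, smul_one]
  rw [chiF_toZModPow τ h1]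
  simp

theorem chiF_frob (P : Ideal (𝓞 (AlgebraicClosure F))) [P.IsPrime]
    (hP : (l : 𝓞 (AlgebraicClosure F)) ∉ P) (φ : Gal(AlgebraicClosure F/F))
    (hφ : ∀ x : 𝓞 (AlgebraicClosure F), φ • x - x ^ Nat.card (𝓞 F ⧸ P.under (𝓞 F)) ∈ P) :
    (chiF l F φ : ℤ_[l]) = (Nat.card (𝓞 F ⧸ P.under (𝓞 F)) : ℤ_[l]) := by
  refine PadicInt.ext_of_toZModPow.1 fun n => ?_
  have h1 : φ • zO l F n = zO l F n ^ Nat.card (𝓞 F ⧸ P.under (𝓞 F)) := by
    refine eq_of_sub_mem P hP (n := n) ?_ ?_ (hφ _)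
    · rw [← smul_pow', zO_pow, smul_one]
    · rw [← pow_mul, mul_comm, pow_mul, zO_pow, one_pow]
  rw [chiF_toZModPow φ h1, map_natCast]

theorem rho_frob (P : Ideal (𝓞 (AlgebraicClosure F))) [P.IsPrime]
    (hP : (l : 𝓞 (AlgebraicClosure F)) ∉ P) (φ : Gal(AlgebraicClosure F/F))
    (hφ : ∀ x : 𝓞 (AlgebraicClosure F), φ • x - x ^ Nat.card (𝓞 F ⧸ P.under (𝓞 F)) ∈ P) :
    ((rho l F φ⁻¹ : (PadicAlgCl l)ˣ) : PadicAlgCl l) ^ (2 * (UU (4 : ℤ_[l]) four_ne).index) =
      ((Nat.card (𝓞 F ⧸ P.under (𝓞 F)) : ℕ) : PadicAlgCl l) ^ (UU (4 : ℤ_[l]) four_ne).index := by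
  have h1 : rho l F φ⁻¹ ^ (2 * (UU (4 : ℤ_[l]) four_ne).index) =
      iot (chiF l F φ ^ (UU (4 : ℤ_[l]) four_ne).index) := by
    change psi (chiF l F φ⁻¹) ^ _ = _
    rw [psi_pow, map_inv (chiF l F), inv_pow, inv_inv]
  have h2 := congrArg (fun t : (PadicAlgCl l)ˣ => (t : PadicAlgCl l)) h1
  simp only [Units.val_pow_eq_pow_val] at h2
  rw [h2, coe_iot, Units.val_pow_eq_pow_val, chiF_frob P hP φ hφ]
  rw [← Nat.cast_pow, PadicInt.coe_natCast, map_natCast, Nat.cast_pow]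

theorem isIntegral_of_pow {α : PadicAlgCl l} {m q : ℕ} (hm : m ≠ 0)
    (h : α ^ (2 * m) = (q : PadicAlgCl l) ^ m) : IsIntegral ℤ α := by
  refine IsIntegral.of_pow (n := 2 * m) (by omega) ?_
  rw [h]
  have h1 : ((q : PadicAlgCl l) ^ m) = algebraMap ℤ (PadicAlgCl l) ((q : ℤ) ^ m) := by
    simp
  rw [h1]
  exact isIntegral_algebraMap

theorem norm_of_pow {α : PadicAlgCl l} {m q : ℕ} (hm : m ≠ 0)
    (h : α ^ (2 * m) = (q : PadicAlgCl l) ^ m) {z : ℂ} (hz : z ∈ (minpoly ℚ α).aroots ℂ) :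
    ‖z‖ ^ 2 = q := by
  have h1 : minpoly ℚ α ∣ Polynomial.X ^ (2 * m) - Polynomial.C ((q : ℚ) ^ m) := by
    apply minpoly.dvd
    rw [map_sub, map_pow, Polynomial.aeval_X, Polynomial.aeval_C, h]
    simp
  have h2 : Polynomial.aeval z (Polynomial.X ^ (2 * m) - Polynomial.C ((q : ℚ) ^ m)) = 0 := by
    obtain ⟨r, hr⟩ := h1
    rw [hr, map_mul, (Polynomial.mem_aroots.1 hz).2, zero_mul]
  rw [map_sub, map_pow, Polynomial.aeval_X, Polynomial.aeval_C, sub_eq_zero] at h2
  have h3 := congrArg norm h2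
  rw [norm_pow, pow_mul] at h3
  have h4 : ‖algebraMap ℚ ℂ ((q : ℚ) ^ m)‖ = (q : ℝ) ^ m := by
    rw [map_pow, map_natCast, norm_pow, Complex.norm_natCast]
  rw [h4] at h3
  exact (pow_left_inj₀ (by positivity) (by positivity) hm).1 h3

end Pool.Agent.R377
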