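import Pool.Agent.R377.TateMain
import Pool.Agent.W292.FM.Tilt

/-!
The kernel of Fontaine's map `θ` for the ring of integers of `ℂ_p` is principal.
-/

set_option linter.unusedSectionVars false

namespace Pool.Agent.R377

open Pool.Agent.W292.FM Ideal WittVector

variable {p : ℕ} [hp : Fact p.Prime]

theorem norm_seqT (x : TT p) (n : ℕ) : ‖(seqT x n : ℂ_[p])‖ ^ p ^ n = ‖(x.untilt : ℂ_[p])‖ := by
  have h1 := pow_ppow_eq (a := seqT x) (seqT_succ_pow x) n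
  rw [seqT_zero] at h1
  rw [← h1]; simp

theorem dvd_of_norm_le {x y : TT p} (hy : 0 < ‖(y.untilt : ℂ_[p])‖)
    (h : ‖(x.untilt : ℂ_[p])‖ ≤ ‖(y.untilt : ℂ_[p])‖) : y ∣ x := by
  have hpos : ∀ n, 0 < ‖(seqT y n : ℂ_[p])‖ := by
    intro n
    have h1 := norm_seqT y n
    rcases (norm_nonneg (seqT y n : ℂ_[p])).lt_or_eq with h2 | h2
    · exact h2
    · exfalso
      rw [← h2, zero_pow (pow_ne_zero _ hp.out.ne_zero)] at h1
      exact hy.ne h1
  have hn : ∀ n, ‖(seqT x n : ℂ_[p])‖ ≤ ‖(seqT y n : ℂ_[p])‖ := by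
    intro n
    have h3 : ‖(seqT x n : ℂ_[p])‖ ^ p ^ n ≤ ‖(seqT y n : ℂ_[p])‖ ^ p ^ n := by
      rw [norm_seqT, norm_seqT]; exact h
    exact le_of_pow_le_pow_left₀ (pow_ne_zero _ hp.out.ne_zero) (norm_nonneg _) h3
  let b : ℕ → 𝓞_ℂ_[p] := fun n => ⟨(seqT x n : ℂ_[p]) / (seqT y n : ℂ_[p]), by
    rw [mem_int_iff, norm_div, div_le_one (hpos n)]; exact hn n⟩
  have hb : ∀ n, b (n + 1) ^ p = b n := by
    intro n
    apply Subtype.ext
    have h1 : ((seqT x (n + 1) : 𝓞_ℂ_[p]) : ℂ_[p]) ^ p = (seqT x n : ℂ_[p]) := by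
      rw [← seqT_succ_pow x n]; simp
    have h2 : ((seqT y (n + 1) : 𝓞_ℂ_[p]) : ℂ_[p]) ^ p = (seqT y n : ℂ_[p]) := by
      rw [← seqT_succ_pow y n]; simp
    simp only [b, SubmonoidClass.mk_pow, div_pow, h1, h2]
  have hbp : ∀ n, seqT y n * b n = seqT x n := by
    intro n
    apply Subtype.ext
    have : ((seqT y n * b n : 𝓞_ℂ_[p]) : ℂ_[p]) = (seqT y n : ℂ_[p]) * (b n : ℂ_[p]) := by simp
    rw [this]
    exact mul_div_cancel₀ _ (norm_pos_iff.1 (hpos n))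
  refine ⟨mkT b hb, ?_⟩
  refine Perfection.ext fun n => ?_
  change PreTilt.coeff n x = PreTilt.coeff n (y * mkT b hb)
  rw [map_mul, coeff_mkT, ← mk_seqT y n, ← map_mul, hbp, mk_seqT]

/-- the `p ^ n`-th root of unity `zs p _ n` as an element of the ring of integers -/
noncomputable def zi (n : ℕ) : 𝓞_ℂ_[p] := ⟨(zs p (PadicAlgCl p) n : ℂ_[p]), by
  rw [mem_int_iff, PadicComplex.norm_extends, norm_rootOfUnity (pow_ne_zero n hp.out.ne_zero)
    (zs_prim p _ n).pow_eq_one]⟩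

theorem coe_zi (n : ℕ) : ((zi n : 𝓞_ℂ_[p]) : ℂ_[p]) = (zs p (PadicAlgCl p) n : ℂ_[p]) := rfl

theorem coe_pow' (a : PadicAlgCl p) (n : ℕ) : ((a ^ n : PadicAlgCl p) : ℂ_[p]) = (a : ℂ_[p]) ^ n :=
  map_pow (UniformSpace.Completion.coeRingHom (α := PadicAlgCl p)) a n

theorem coe_sub' (a b : PadicAlgCl p) :
    ((a - b : PadicAlgCl p) : ℂ_[p]) = (a : ℂ_[p]) - (b : ℂ_[p]) :=
  map_sub (UniformSpace.Completion.coeRingHom (α := PadicAlgCl p)) a b

theorem coe_one' : ((1 : PadicAlgCl p) : ℂ_[p]) = 1 :=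
  map_one (UniformSpace.Completion.coeRingHom (α := PadicAlgCl p))

theorem zi_succ (n : ℕ) : (zi (n + 1) : 𝓞_ℂ_[p]) ^ p = zi n := by
  apply Subtype.ext
  have h : (((zi (n + 1) : 𝓞_ℂ_[p]) ^ p : 𝓞_ℂ_[p]) : ℂ_[p]) = ((zi (n + 1) : 𝓞_ℂ_[p]) : ℂ_[p]) ^ p := by
    simp
  rw [h, coe_zi, coe_zi, ← coe_pow', zs_succ]

theorem zi_zero : (zi 0 : 𝓞_ℂ_[p]) = 1 := by
  apply Subtype.ext
  rw [coe_zi]
  have h : zs p (PadicAlgCl p) 0 = 1 := by
    have := zs_prim p (PadicAlgCl p) 0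
    simpa using this
  rw [h, coe_one']
  rfl

variable (p) in
/-- the element `(ζ_p, ζ_{p^2}, …)` of the tilt -/
noncomputable def e1 : TT p := mkT (fun n => zi (n + 1)) fun n => zi_succ (n + 1)

theorem untilt_e1 : (e1 p).untilt = zi 1 := untilt_mkT _ _

variable (p) in
/-- the generator `1 + [e1] + … + [e1]^(p-1)` of `ker θ` -/
noncomputable def om : AI p := ∑ i ∈ Finset.range p, teichmuller p (e1 p) ^ i

theorem theta_om : fontaineTheta 𝓞_ℂ_[p] p (om p) = 0 := by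
  rw [om, map_sum]
  simp only [map_pow, fontaineTheta_teichmuller, untilt_e1]
  have h1 : IsPrimitiveRoot (zs p (PadicAlgCl p) 1) p := by
    simpa using zs_prim p (PadicAlgCl p) 1
  have h2 := h1.geom_sum_eq_zero hp.out.one_lt
  apply Subtype.ext
  have h3 := congrArg (UniformSpace.Completion.coeRingHom (α := PadicAlgCl p)) h2
  rw [map_sum, map_zero] at h3
  have h4 : ((∑ i ∈ Finset.range p, (zi 1 : 𝓞_ℂ_[p]) ^ i : 𝓞_ℂ_[p]) : ℂ_[p]) =
      ∑ i ∈ Finset.range p, ((zi 1 : 𝓞_ℂ_[p]) : ℂ_[p]) ^ i := by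
    have := map_sum (𝓞_ℂ_[p]).subtype (fun i => (zi 1 : 𝓞_ℂ_[p]) ^ i) (Finset.range p)
    simpa using this
  rw [h4]
  have h5 : ∀ i ∈ Finset.range p, ((zi 1 : 𝓞_ℂ_[p]) : ℂ_[p]) ^ i =
      (UniformSpace.Completion.coeRingHom (α := PadicAlgCl p)) (zs p (PadicAlgCl p) 1 ^ i) := by
    intro i _
    rw [coe_zi, map_pow]
    rfl
  rw [Finset.sum_congr rfl h5, h3]
  rfl

theorem norm_zi_sub_one (n : ℕ) :
    ‖((zi (n + 1) : 𝓞_ℂ_[p]) : ℂ_[p]) - 1‖ ^ (p ^ n * (p - 1)) = ‖(p : ℂ_[p])‖ := by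
  rw [coe_zi, ← coe_one', ← coe_sub', PadicComplex.norm_extends, norm_p]
  have h := norm_sub_one_pow_totient (zs_prim p (PadicAlgCl p) (n + 1))
  rwa [Nat.totient_prime_pow_succ hp.out] at h

/-- a strict inequality between powers `< 1` -/
theorem lt_of_pow_eq {a b : ℝ} {N : ℕ} (ha : 0 ≤ a) (hb : 0 < b) (hb1 : b < 1) (hN : 1 < N)
    (h : a ^ N = b) : b < a := by
  have ha1 : a < 1 := by
    by_contra h1
    push Not at h1
    have := one_le_pow₀ h1 (n := N)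
    rw [h] at this
    linarith
  have ha0 : 0 < a := by
    rcases ha.lt_or_eq with h1 | h1
    · exact h1
    · exfalso
      rw [← h1, zero_pow (by omega)] at h
      exact hb.ne h
  rw [← h]
  calc a ^ N < a ^ 1 := pow_lt_pow_right_of_lt_one₀ ha0 ha1 hN
    _ = a := pow_one a

theorem norm_untilt_e1_sub_one : ‖((e1 p - 1).untilt : ℂ_[p])‖ ^ (p - 1) = ‖(p : ℂ_[p])‖ := by
  have h1 : Ideal.Quotient.mk (span {(p : 𝓞_ℂ_[p])}) (seqT (e1 p - 1) 1) =
      Ideal.Quotient.mk _ (zi 2 - 1) := by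
    rw [mk_seqT, map_sub, map_sub, e1, coeff_mkT, map_one, map_one]
  rw [← sub_eq_zero, ← map_sub, mk_eq_zero_iff] at h1
  have h2 := norm_zi_sub_one (p := p) 1
  have hp2 : 2 ≤ p := hp.out.two_le
  have h3 : ‖(p : ℂ_[p])‖ < ‖((zi 2 : 𝓞_ℂ_[p]) : ℂ_[p]) - 1‖ := by
    refine lt_of_pow_eq (norm_nonneg _) (norm_p_pos p) (norm_p_lt_one p) ?_ h2
    rw [pow_one]
    calc 1 < p * 1 := by omega
      _ ≤ p * (p - 1) := Nat.mul_le_mul_left _ (by omega)
  have h4 : ‖(seqT (e1 p - 1) 1 : ℂ_[p])‖ = ‖((zi 2 : 𝓞_ℂ_[p]) : ℂ_[p]) - 1‖ := by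
    have e : ((seqT (e1 p - 1) 1 - (zi 2 - 1) : 𝓞_ℂ_[p]) : ℂ_[p]) =
        (seqT (e1 p - 1) 1 : ℂ_[p]) - (((zi 2 : 𝓞_ℂ_[p]) : ℂ_[p]) - 1) := by simp
    rw [e] at h1
    have h5 : (seqT (e1 p - 1) 1 : ℂ_[p]) = ((seqT (e1 p - 1) 1 : ℂ_[p]) -
        (((zi 2 : 𝓞_ℂ_[p]) : ℂ_[p]) - 1)) + (((zi 2 : 𝓞_ℂ_[p]) : ℂ_[p]) - 1) := by ring
    have h6 := lt_of_le_of_lt h1 h3
    rw [h5, IsUltrametricDist.norm_add_eq_max_of_norm_ne_norm h6.ne, max_eq_right h6.le]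
  rw [← norm_seqT _ 1, h4, ← pow_mul]
  exact h2

theorem coeff_om : (om p).coeff 0 = (e1 p - 1) ^ (p - 1) := by
  have h1 : (om p).coeff 0 = constantCoeff (om p) := rfl
  have h2 : (constantCoeff (om p) : TT p) = ∑ i ∈ Finset.range p, e1 p ^ i := by
    rw [om, map_sum]
    refine Finset.sum_congr rfl fun i _ => ?_
    rw [map_pow]
    congr 1
  rw [h1, h2]
  have hchar : CharP (TT p) p := inferInstance
  have h3 : (∑ i ∈ Finset.range p, e1 p ^ i) * (e1 p - 1) = (e1 p - 1) ^ (p - 1) * (e1 p - 1) := by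
    rw [geom_sum_mul, ← pow_succ, Nat.sub_add_cancel hp.out.pos, sub_pow_char, one_pow]
  refine mul_right_cancel₀ ?_ h3
  intro h0
  have h4 := norm_untilt_e1_sub_one (p := p)
  rw [h0] at h4
  have h5 : ((0 : TT p).untilt : ℂ_[p]) = 0 := by
    have h6 : ((0 : TT p).untilt) = 0 := by
      rw [← fontaineTheta_teichmuller, WittVector.teichmuller_zero, map_zero]
    rw [h6]; rfl
  rw [h5, norm_zero] at h4
  have hp2 : 2 ≤ p := hp.out.two_le
  rw [zero_pow (by omega)] at h4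
  exact (norm_p_pos p).ne h4

theorem norm_coeff_om : ‖(((om p).coeff 0 : TT p).untilt : ℂ_[p])‖ = ‖(p : ℂ_[p])‖ := by
  rw [coeff_om, map_pow, ← norm_untilt_e1_sub_one (p := p), ← norm_pow]
  congr 1

/-- one step of the approximation -/
theorem ker_step (x : AI p) (hx : fontaineTheta 𝓞_ℂ_[p] p x = 0) :
    ∃ y z : AI p, x = om p * y + p * z ∧ fontaineTheta 𝓞_ℂ_[p] p z = 0 := by
  have h1 : PreTilt.coeff 0 (x.coeff 0) = 0 := by
    have := mk_fontaineTheta (R := 𝓞_ℂ_[p]) (p := p) x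
    rw [hx, map_zero] at this
    exact this.symm
  rw [← PreTilt.mk_untilt_eq_coeff_zero] at h1
  have h2 := (mk_eq_zero_iff _).1 h1
  rw [← norm_coeff_om] at h2
  have h3 : 0 < ‖(((om p).coeff 0 : TT p).untilt : ℂ_[p])‖ := by
    rw [norm_coeff_om]; exact norm_p_pos p
  obtain ⟨y, hy⟩ := dvd_of_norm_le h3 h2
  have h4 : (x - om p * teichmuller p y) ∈ span {(p : AI p)} := by
    rw [WittVector.mem_span_p_iff_coeff_zero_eq_zero]
    change constantCoeff (x - om p * teichmuller p y) = 0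
    rw [map_sub, map_mul, sub_eq_zero]
    exact hy
  rw [Ideal.mem_span_singleton] at h4
  obtain ⟨z, hz⟩ := h4
  refine ⟨teichmuller p y, z, by rw [← hz]; ring, ?_⟩
  have h5 := congrArg (fontaineTheta 𝓞_ℂ_[p] p) hz
  rw [map_sub, map_mul, hx, theta_om, zero_mul, sub_zero, map_mul, map_natCast] at h5
  rcases mul_eq_zero.1 h5.symm with h6 | h6
  · exfalso
    have h7 := congrArg (fun t : 𝓞_ℂ_[p] => (t : ℂ_[p])) h6
    exact p_ne_zero p (by simpa using h7)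
  · exact h6

/-- the kernel of `θ` on `A_inf` is generated by `om p` -/
theorem om_dvd {x : AI p} (hx : fontaineTheta 𝓞_ℂ_[p] p x = 0) : om p ∣ x := by
  choose f g hfg hg using ker_step (p := p)
  let s : ℕ → {x : AI p // fontaineTheta 𝓞_ℂ_[p] p x = 0} :=
    fun n => Nat.rec ⟨x, hx⟩ (fun _ t => ⟨g t.1 t.2, hg t.1 t.2⟩) n
  let S : ℕ → AI p := fun n => ∑ i ∈ Finset.range n, (p : AI p) ^ i * f (s i).1 (s i).2
  have hS : ∀ n, x = om p * S n + (p : AI p) ^ n * (s n).1 := by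
    intro n
    induction n with
    | zero => simp [S, s]
    | succ n ih =>
      have h1 : (s n).1 = om p * f (s n).1 (s n).2 + p * (s (n + 1)).1 := hfg _ _
      have h2 : S (n + 1) = S n + (p : AI p) ^ n * f (s n).1 (s n).2 := Finset.sum_range_succ _ _
      rw [h2]
      calc x = om p * S n + (p : AI p) ^ n * (s n).1 := ih
        _ = om p * S n + (p : AI p) ^ n * (om p * f (s n).1 (s n).2 + p * (s (n + 1)).1) := by
          rw [← h1]
        _ = _ := by ring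
  have hprec : IsPrecomplete (span {(p : AI p)}) (AI p) := inferInstance
  have hcau : ∀ {m n : ℕ}, m ≤ n → S m ≡ S n [SMOD (span {(p : AI p)} ^ m • ⊤ : Submodule (AI p) (AI p))] := by
    intro m n hmn
    rw [SModEq.sub_mem, smul_eq_mul, Ideal.mul_top, Ideal.span_singleton_pow]
    have h1 : S m - S n = -(∑ i ∈ Finset.Ico m n, (p : AI p) ^ i * f (s i).1 (s i).2) := by
      rw [Finset.sum_Ico_eq_sub _ hmn]
      ring
    rw [h1]
    apply neg_mem
    refine Ideal.sum_mem _ fun i hi => ?_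
    apply Ideal.mul_mem_right
    rw [Ideal.mem_span_singleton]
    exact pow_dvd_pow _ (Finset.mem_Ico.1 hi).1
  obtain ⟨L, hL⟩ := hprec.prec hcau
  refine ⟨L, ?_⟩
  rw [← sub_eq_zero]
  refine IsHausdorff.haus (I := span {(p : AI p)}) inferInstance _ fun n => ?_
  have h1 := hL n
  rw [SModEq.sub_mem, smul_eq_mul, Ideal.mul_top] at h1 ⊢
  have h2 : x - om p * L - 0 = om p * (S n - L) + (p : AI p) ^ n * (s n).1 := by
    nth_rw 1 [hS n]
    ring
  rw [h2]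
  refine add_mem (Ideal.mul_mem_left _ _ h1) (Ideal.mul_mem_right _ _ ?_)
  exact Ideal.pow_mem_pow (Ideal.mem_span_singleton_self _) n

end Pool.Agent.R377
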