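import Pool.Agent.R377.Per

/-!
Leading terms of elements of `B_dR^+` and the vanishing of the invariants of a twist of `B_dR` by
a character whose square is the inverse of the cyclotomic character.
-/

set_option linter.unusedSectionVars false

namespace Pool.Agent.R377

open Pool.Agent.W292.FM Ideal WittVector

variable {p : ℕ} [hp : Fact p.Prime]

/-- `A_inf[1/p]` -/
abbrev Ap (p : ℕ) [Fact p.Prime] := Localization.Away (p : AI p)

theorem p_ne_zero_AI : (p : AI p) ≠ 0 := by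
  intro h
  have h1 := congrArg th h
  rw [map_natCast, map_zero] at h1
  exact p_ne_zero p h1

instance isDomain_Ap : IsDomain (Ap p) :=
  IsLocalization.isDomain_localization
    (powers_le_nonZeroDivisors_of_noZeroDivisors p_ne_zero_AI)

theorem algebraMap_Ap_inj : Function.Injective (algebraMap (AI p) (Ap p)) :=
  IsLocalization.injective (Ap p) (powers_le_nonZeroDivisors_of_noZeroDivisors p_ne_zero_AI)

/-- `θ` on `A_inf[1/p]` with values in `ℂ_p` -/
noncomputable def thC : Ap p →+* ℂ_[p] :=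
  Localization.awayLift th (p : AI p) (by
    rw [map_natCast]
    exact (p_ne_zero p).isUnit)

theorem thC_algebraMap (x : AI p) : thC (algebraMap (AI p) (Ap p) x) = th x := by
  unfold thC Localization.awayLift
  exact IsLocalization.Away.lift_eq _ _ _

theorem thC_eq_zero_iff {x : Ap p} : thC x = 0 ↔ x ∈ kerT 𝓞_ℂ_[p] p := by
  obtain ⟨n, a, h⟩ := IsLocalization.Away.surj (p : AI p) x
  have hu : IsUnit (algebraMap (AI p) (Ap p) (p : AI p)) :=
    IsLocalization.Away.algebraMap_isUnit _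
  have h1 : thC x = 0 ↔ th a = 0 := by
    have h2 := congrArg thC h
    rw [map_mul, map_pow, thC_algebraMap, thC_algebraMap, map_natCast] at h2
    rw [← h2]
    constructor
    · intro h3
      rw [h3, zero_mul]
    · intro h3
      rcases mul_eq_zero.1 h3 with h4 | h4
      · exact h4
      · exact absurd h4 (pow_ne_zero _ (p_ne_zero p))
  rw [h1]
  have h3 : x ∈ kerT 𝓞_ℂ_[p] p ↔ algebraMap (AI p) (Ap p) a ∈ kerT 𝓞_ℂ_[p] p := by
    rw [← h]
    exact (Ideal.mul_unit_mem_iff_mem _ (hu.pow n)).symm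
  rw [h3, RingHom.mem_ker, thetaInvertP_algebraMap]
  have hp0 : (p : 𝓞_ℂ_[p]) ≠ 0 := by
    intro h0
    have h7 := congrArg (fun t : 𝓞_ℂ_[p] => (t : ℂ_[p])) h0
    exact p_ne_zero p (by simpa using h7)
  have hinj : Function.Injective (algebraMap 𝓞_ℂ_[p] (Localization.Away (p : 𝓞_ℂ_[p]))) :=
    IsLocalization.injective _ (powers_le_nonZeroDivisors_of_noZeroDivisors hp0)
  rw [map_eq_zero_iff _ hinj]
  constructor
  · exact th_eq_zero
  · intro h5
    rw [th_apply, h5]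
    rfl

/-- the generator of `ker θ` -/
noncomputable def omA (p : ℕ) [Fact p.Prime] : Ap p := algebraMap (AI p) (Ap p) (om p)

theorem omA_ne_zero : omA p ≠ 0 := by
  intro h
  exact om_ne_zero (algebraMap_Ap_inj (h.trans (map_zero _).symm))

theorem thC_omA : thC (omA p) = 0 := by rw [omA, thC_algebraMap, th_om]

theorem kerT_eq : kerT 𝓞_ℂ_[p] p = span {omA p} := by
  apply le_antisymm
  · intro x hx
    obtain ⟨n, a, h⟩ := IsLocalization.Away.surj (p : AI p) x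
    have hu : IsUnit (algebraMap (AI p) (Ap p) (p : AI p)) :=
      IsLocalization.Away.algebraMap_isUnit _
    rw [← thC_eq_zero_iff] at hx
    have h2 := congrArg thC h
    rw [map_mul, hx, zero_mul, thC_algebraMap] at h2
    obtain ⟨y, hy⟩ := om_dvd (th_eq_zero h2.symm)
    rw [← Ideal.mul_unit_mem_iff_mem _ (hu.pow n), h, hy, map_mul]
    exact Ideal.mul_mem_right _ _ (Ideal.mem_span_singleton_self _)
  · rw [Ideal.span_singleton_le_iff_mem, ← thC_eq_zero_iff, thC_omA]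

theorem mem_kerT_pow {x : Ap p} {n : ℕ} : x ∈ kerT 𝓞_ℂ_[p] p ^ n ↔ omA p ^ n ∣ x := by
  rw [kerT_eq, Ideal.span_singleton_pow, Ideal.mem_span_singleton]

/-- the action of the Galois group on `A_inf[1/p]` -/
noncomputable def gL (g : Gal(PadicAlgCl p/ℚ_[p])) : Ap p →+* Ap p := locMap p (intMap p g)

theorem gL_algebraMap (g : Gal(PadicAlgCl p/ℚ_[p])) (x : AI p) :
    gL g (algebraMap (AI p) (Ap p) x) = algebraMap (AI p) (Ap p) (gA g x) :=
  locMap_algebraMap p _ _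

theorem gL_omA (g : Gal(PadicAlgCl p/ℚ_[p])) :
    gL g (omA p) = omA p * algebraMap (AI p) (Ap p) (ug g) := by
  rw [omA, gL_algebraMap, gA_om, map_mul]

theorem thC_gL (g : Gal(PadicAlgCl p/ℚ_[p])) (x : Ap p) : thC (gL g x) = cpMap p g (thC x) := by
  have key : thC.comp (gL g) = ((cpMap p g : ℂ_[p] →+* ℂ_[p])).comp (thC (p := p)) := by
    refine IsLocalization.ringHom_ext (Submonoid.powers (p : AI p)) ?_
    ext x
    simp only [RingHom.comp_apply]
    rw [gL_algebraMap, thC_algebraMap, thC_algebraMap, th_gA]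
    rfl
  exact congrArg (fun f : Ap p →+* ℂ_[p] => f x) key

/-- `B_dR^+` -/
abbrev BP (p : ℕ) [Fact p.Prime] := BDeRhamPlus 𝓞_ℂ_[p] p

/-- `x ∈ B_dR^+` is of the form `c ω ^ j + O(ω ^ (j + 1))` -/
def Lead (j : ℕ) (x : BP p) (c : ℂ_[p]) : Prop :=
  ∃ y : Ap p, evalP p (j + 1) x = Ideal.Quotient.mk _ (omA p ^ j * y) ∧ thC y = c

theorem mk_eq_mk_iff {n : ℕ} {a b : Ap p} :
    Ideal.Quotient.mk (kerT 𝓞_ℂ_[p] p ^ n) a = Ideal.Quotient.mk _ b ↔ omA p ^ n ∣ a - b := by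
  rw [Ideal.Quotient.eq, mem_kerT_pow]

theorem thC_dvd {y : Ap p} (h : omA p ∣ y) : thC y = 0 := by
  obtain ⟨z, rfl⟩ := h
  rw [map_mul, thC_omA, zero_mul]

theorem dvd_of_thC {y : Ap p} (h : thC y = 0) : omA p ∣ y := by
  rw [thC_eq_zero_iff, kerT_eq, Ideal.mem_span_singleton] at h
  exact h

theorem evalP_factor {m n : ℕ} (h : m ≤ n) {x : BP p} {a : Ap p}
    (ha : evalP p n x = Ideal.Quotient.mk _ a) : evalP p m x = Ideal.Quotient.mk _ a := by
  rw [← factorPow_evalP p h x, ha]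
  rfl

theorem Lead.unique {j : ℕ} {x : BP p} {c c' : ℂ_[p]} (h : Lead j x c) (h' : Lead j x c') :
    c = c' := by
  obtain ⟨y, hy, rfl⟩ := h
  obtain ⟨y', hy', rfl⟩ := h'
  rw [hy, mk_eq_mk_iff, ← mul_sub, pow_succ] at hy'
  have h1 := thC_dvd ((mul_dvd_mul_iff_left (pow_ne_zero j omA_ne_zero)).1 hy')
  rwa [map_sub, sub_eq_zero] at h1

theorem Lead.lift {j : ℕ} {x : BP p} {c : ℂ_[p]} (h : Lead j x c) {N : ℕ} (hN : j + 1 ≤ N) :
    ∃ y : Ap p, evalP p N x = Ideal.Quotient.mk _ (omA p ^ j * y) ∧ thC y = c := by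
  obtain ⟨y, hy, rfl⟩ := h
  obtain ⟨a, ha⟩ := Ideal.Quotient.mk_surjective (evalP p N x)
  have h1 := evalP_factor hN ha.symm
  rw [hy, mk_eq_mk_iff] at h1
  obtain ⟨z, hz⟩ := h1
  refine ⟨y - omA p * z, ?_, ?_⟩
  · rw [← ha]
    congr 1
    rw [mul_sub, ← mul_assoc, ← pow_succ, ← hz]
    ring
  · rw [map_sub, map_mul, thC_omA, zero_mul, sub_zero]

theorem Lead.mul {j k : ℕ} {x x' : BP p} {c c' : ℂ_[p]} (h : Lead j x c) (h' : Lead k x' c') :
    Lead (j + k) (x * x') (c * c') := by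
  obtain ⟨y, hy, rfl⟩ := h.lift (N := j + k + 1) (by omega)
  obtain ⟨y', hy', rfl⟩ := h'.lift (N := j + k + 1) (by omega)
  refine ⟨y * y', ?_, map_mul _ _ _⟩
  rw [map_mul, hy, hy', ← map_mul]
  congr 1
  ring

theorem Lead.eq_zero_of_lt {j k : ℕ} {x : BP p} {c c' : ℂ_[p]} (h : Lead j x c) (h' : Lead k x c')
    (hjk : j < k) : c = 0 := by
  obtain ⟨y, hy, rfl⟩ := h'
  have h1 : Lead j x 0 := by
    refine ⟨0, ?_, map_zero _⟩
    rw [evalP_factor (m := j + 1) (by omega) hy, mk_eq_mk_iff, mul_zero, sub_zero]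
    exact (pow_dvd_pow _ hjk).trans (dvd_mul_right _ _)
  exact h.unique h1

theorem Lead.unique_j {j k : ℕ} {x : BP p} {c c' : ℂ_[p]} (h : Lead j x c) (h' : Lead k x c')
    (hc : c ≠ 0) (hc' : c' ≠ 0) : j = k := by
  rcases lt_trichotomy j k with h1 | h1 | h1
  · exact absurd (h.eq_zero_of_lt h' h1) hc
  · exact h1
  · exact absurd (h'.eq_zero_of_lt h h1) hc'

theorem lead_zero (j : ℕ) : Lead j (0 : BP p) 0 :=
  ⟨0, by rw [map_zero, mul_zero, map_zero], map_zero _⟩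

theorem exists_lead {x : BP p} (hx : x ≠ 0) : ∃ j c, c ≠ 0 ∧ Lead j x c := by
  have h1 : ∃ n, evalP p n x ≠ 0 := by
    by_contra h
    push Not at h
    apply hx
    refine evalP_ext p fun n => ?_
    rw [h n, map_zero]
  classical
  have h2 := Nat.find_spec h1
  have h3 : Nat.find h1 ≠ 0 := by
    intro h0
    rw [h0] at h2
    apply h2
    obtain ⟨a, ha⟩ := Ideal.Quotient.mk_surjective (evalP p 0 x)
    rw [← ha, Ideal.Quotient.eq_zero_iff_mem, pow_zero, Ideal.one_eq_top]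
    exact Submodule.mem_top
  obtain ⟨j, hj⟩ := Nat.exists_eq_succ_of_ne_zero h3
  have h4 : evalP p j x = 0 := by
    by_contra h
    exact Nat.find_min h1 (by omega) h
  rw [hj] at h2
  change evalP p (j + 1) x ≠ 0 at h2
  obtain ⟨a, ha⟩ := Ideal.Quotient.mk_surjective (evalP p (j + 1) x)
  have h5 := evalP_factor (Nat.le_succ j) ha.symm
  rw [h4] at h5
  have h6 := (Ideal.Quotient.eq_zero_iff_mem.1 h5.symm)
  rw [mem_kerT_pow] at h6
  obtain ⟨y, rfl⟩ := h6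
  refine ⟨j, thC y, ?_, y, ha.symm, rfl⟩
  intro h7
  obtain ⟨z, rfl⟩ := dvd_of_thC h7
  apply h2
  rw [← ha, Ideal.Quotient.eq_zero_iff_mem, mem_kerT_pow]
  exact ⟨z, by ring⟩

theorem Lead.ne_zero {j : ℕ} {x : BP p} {c : ℂ_[p]} (h : Lead j x c) (hc : c ≠ 0) : x ≠ 0 := by
  rintro rfl
  exact hc (h.unique (lead_zero j))

theorem mul_ne_zero_BP {x y : BP p} (hx : x ≠ 0) (hy : y ≠ 0) : x * y ≠ 0 := by
  obtain ⟨j, c, hc, h⟩ := exists_lead hx
  obtain ⟨k, d, hd, h'⟩ := exists_lead hy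
  exact (h.mul h').ne_zero (mul_ne_zero hc hd)

theorem lead_toPlus (a : Ap p) : Lead 0 (toPlus p a) (thC a) :=
  ⟨a, by rw [evalP_toPlus, pow_zero, one_mul], rfl⟩

theorem lead_omA : Lead 1 (toPlus p (omA p)) (1 : ℂ_[p]) :=
  ⟨1, by rw [evalP_toPlus, pow_one, mul_one], map_one _⟩

theorem one_ne_zero_BP : (1 : BP p) ≠ 0 := by
  have h := lead_toPlus (p := p) 1
  rw [map_one, map_one] at h
  exact h.ne_zero one_ne_zero

instance : Nontrivial (BP p) := ⟨⟨1, 0, one_ne_zero_BP⟩⟩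

instance : NoZeroDivisors (BP p) where
  eq_zero_or_eq_zero_of_mul_eq_zero := by
    intro a b h
    by_contra h1
    push Not at h1
    exact mul_ne_zero_BP h1.1 h1.2 h

instance isDomain_BP : IsDomain (BP p) := NoZeroDivisors.to_isDomain _

theorem genSub_ne_zero {s : BP p} (hs : s ∈ genSub 𝓞_ℂ_[p] p) : s ≠ 0 := by
  induction hs using Submonoid.closure_induction with
  | mem x hx =>
    obtain ⟨a, ha, rfl⟩ := hx
    change toPlus p a ≠ 0
    have h1 : omA p ∈ kerT 𝓞_ℂ_[p] p := by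
      rw [kerT_eq]
      exact Ideal.mem_span_singleton_self _
    have ha' : kerT 𝓞_ℂ_[p] p = Ideal.span {a} := ha
    rw [ha', Ideal.mem_span_singleton] at h1
    obtain ⟨v, hv⟩ := h1
    intro h0
    have h2 := lead_omA (p := p)
    rw [hv, map_mul, h0, zero_mul] at h2
    exact one_ne_zero (h2.unique (lead_zero 1))
  | one => exact one_ne_zero
  | mul x y _ _ hx hy => exact mul_ne_zero hx hy

theorem genSub_le : genSub 𝓞_ℂ_[p] p ≤ nonZeroDivisors (BP p) := by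
  intro s hs
  exact mem_nonZeroDivisors_of_ne_zero (genSub_ne_zero hs)

/-- the action of the Galois group on `B_dR^+` -/
noncomputable def gP (g : Gal(PadicAlgCl p/ℚ_[p])) : BP p →+* BP p := plusMap p (intMap p g)

theorem Lead.gal {j : ℕ} {x : BP p} {c : ℂ_[p]} (h : Lead j x c) (g : Gal(PadicAlgCl p/ℚ_[p])) :
    Lead j (gP g x) (th (ug g) ^ j * cpMap p g c) := by
  obtain ⟨y, hy, rfl⟩ := h
  refine ⟨algebraMap (AI p) (Ap p) (ug g) ^ j * gL g y, ?_, ?_⟩
  · rw [gP, evalP_plusMap, hy]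
    change Ideal.Quotient.mk _ (gL g (omA p ^ j * y)) = _
    congr 1
    rw [map_mul, map_pow, gL_omA, mul_pow, mul_assoc]
  · rw [map_mul, map_pow, thC_algebraMap, thC_gL]

theorem th_zpMap (a : ℤ_[p]) : th (zpMap 𝓞_ℂ_[p] p a) = algebraMap ℚ_[p] ℂ_[p] (a : ℚ_[p]) := by
  refine eq_of_norm_le_pow fun k => ?_
  obtain ⟨n, b, hab⟩ := exists_approx a k
  have h3 : algebraMap ℚ_[p] ℂ_[p] (a : ℚ_[p]) = n + ((p ^ k : ℕ) : ℂ_[p]) *
      algebraMap ℚ_[p] ℂ_[p] (b : ℚ_[p]) := by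
    rw [hab]
    push_cast
    simp
  have h4 : th (zpMap 𝓞_ℂ_[p] p a) = n + ((p ^ k : ℕ) : ℂ_[p]) * th (zpMap 𝓞_ℂ_[p] p b) := by
    rw [hab, map_add, map_mul, map_natCast, map_natCast, map_add, map_mul, map_natCast,
      map_natCast]
  have h5 : th (zpMap 𝓞_ℂ_[p] p a) - algebraMap ℚ_[p] ℂ_[p] (a : ℚ_[p]) =
      (p : ℂ_[p]) ^ k * (th (zpMap 𝓞_ℂ_[p] p b) - algebraMap ℚ_[p] ℂ_[p] (b : ℚ_[p])) := by
    rw [h4, h3]
    push_cast
    ring
  rw [h5, norm_mul, norm_pow]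
  refine mul_le_of_le_one_right (pow_nonneg (norm_nonneg _) _) ?_
  rw [sub_eq_add_neg]
  refine (IsUltrametricDist.norm_add_le_max _ _).trans (max_le (norm_th_le _) ?_)
  rw [norm_neg]
  exact norm_coe_zp_le b

theorem lead_algebraMap (a : ℤ_[p]) :
    Lead 0 (algebraMap ℚ_[p] (BP p) (a : ℚ_[p])) (algebraMap ℚ_[p] ℂ_[p] (a : ℚ_[p])) := by
  have h := lead_toPlus (p := p) (qpMap 𝓞_ℂ_[p] p (a : ℚ_[p]))
  have h1 : thC (qpMap 𝓞_ℂ_[p] p (a : ℚ_[p])) = algebraMap ℚ_[p] ℂ_[p] (a : ℚ_[p]) := by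
    have h2 : qpMap 𝓞_ℂ_[p] p (a : ℚ_[p]) = algebraMap (AI p) (Ap p) (zpMap 𝓞_ℂ_[p] p a) :=
      qpMap_coe 𝓞_ℂ_[p] p a
    rw [h2, thC_algebraMap, th_zpMap]
  rw [h1] at h
  exact h

end Pool.Agent.R377
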