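import Pool.Agent.R377.DR
import Pool.Agent.R377.Glob

/-!
The half twist is not de Rham at the places above `l`.
-/

set_option linter.unusedSectionVars false

namespace Pool.Agent.R377

open NumberField TensorProduct Pool.Agent.W292.FM

variable {l : ℕ} [hl : Fact l.Prime] {F : Type*} [Field F] [NumberField F]

/-- the elements of the local Galois group that fix `F` -/
def fixG (ι : AlgebraicClosure F →+* PadicAlgCl l) : Subgroup Gal(PadicAlgCl l/ℚ_[l]) where
  carrier := {g | ∀ x : F, g (ι (algebraMap F _ x)) = ι (algebraMap F _ x)}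
  mul_mem' := fun {g h} hg hh x => by
    change g (h (ι (algebraMap F _ x))) = _
    rw [hh x, hg x]
  one_mem' := fun x => rfl
  inv_mem' := fun {g} hg x => by
    conv_lhs => rw [← hg x]
    change (g⁻¹ * g) (ι (algebraMap F _ x)) = _
    rw [inv_mul_cancel]
    rfl

theorem finiteIndex_fixG (ι : AlgebraicClosure F →+* PadicAlgCl l) : (fixG ι).FiniteIndex := by
  let pb := Field.powerBasisOfFiniteOfSeparable ℚ F
  let K0 : IntermediateField ℚ_[l] (PadicAlgCl l) :=
    IntermediateField.adjoin ℚ_[l] {ι (algebraMap F _ pb.gen)}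
  have h1 : FiniteDimensional ℚ_[l] K0 :=
    IntermediateField.adjoin.finiteDimensional (Algebra.IsIntegral.isIntegral _)
  have h2 : IsOpen (K0.fixingSubgroup : Set Gal(PadicAlgCl l/ℚ_[l])) :=
    K0.fixingSubgroup_isOpen
  have h3 : Finite (Gal(PadicAlgCl l/ℚ_[l]) ⧸ K0.fixingSubgroup) :=
    Subgroup.quotient_finite_of_isOpen _ h2
  have h4 : K0.fixingSubgroup.FiniteIndex := Subgroup.finiteIndex_of_finite_quotient
  refine Subgroup.finiteIndex_of_le (H := K0.fixingSubgroup) ?_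
  intro g hg x
  have h5 : g (ι (algebraMap F _ pb.gen)) = ι (algebraMap F _ pb.gen) :=
    (IntermediateField.mem_fixingSubgroup_iff _ _).1 hg _
      (IntermediateField.subset_adjoin _ _ (Set.mem_singleton _))
  let f1 : F →+* PadicAlgCl l := (g : PadicAlgCl l →+* PadicAlgCl l).comp (ι.comp (algebraMap F _))
  let f2 : F →+* PadicAlgCl l := ι.comp (algebraMap F _)
  have h6 : f1.toRatAlgHom = f2.toRatAlgHom := by
    refine pb.algHom_ext ?_
    exact h5
  exact congrArg (fun f : F →ₐ[ℚ] PadicAlgCl l => f x) h6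

theorem exists_sigma (ι : AlgebraicClosure F →+* PadicAlgCl l) {g : Gal(PadicAlgCl l/ℚ_[l])}
    (hg : g ∈ fixG ι) : ∃ σ : Gal(AlgebraicClosure F/F), ∀ x, g (ι x) = ι (σ x) := by
  let i1 : Algebra (AlgebraicClosure F) (PadicAlgCl l) := ι.toAlgebra
  let i2 : Algebra F (PadicAlgCl l) := (ι.comp (algebraMap F _)).toAlgebra
  have i3 : IsScalarTower F (AlgebraicClosure F) (PadicAlgCl l) :=
    IsScalarTower.of_algebraMap_eq fun x => rfl
  let g' : PadicAlgCl l ≃ₐ[F] PadicAlgCl l :=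
    AlgEquiv.ofRingEquiv (f := (g : PadicAlgCl l ≃+* PadicAlgCl l)) hg
  refine ⟨g'.restrictNormal (AlgebraicClosure F), fun x => ?_⟩
  exact (g'.restrictNormal_commutes (AlgebraicClosure F) x).symm

theorem chi_compat (ι : AlgebraicClosure F →+* PadicAlgCl l) {g : Gal(PadicAlgCl l/ℚ_[l])}
    {σ : Gal(AlgebraicClosure F/F)} (h : ∀ x, g (ι x) = ι (σ x)) : chi l g = chiF l F σ := by
  apply Units.ext
  refine PadicInt.ext_of_toZModPow.1 fun n => ?_
  have hz := zs_prim l (AlgebraicClosure F) n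
  have h1 : IsPrimitiveRoot (ι (zs l (AlgebraicClosure F) n)) (l ^ n) :=
    hz.map_of_injective ι.injective
  have h2 : σ (zs l (AlgebraicClosure F) n) = zs l (AlgebraicClosure F) n ^
      ((chiF l F σ : ℤ_[l]).toZModPow n).val := 
    chi_spec l (MulSemiringAction.toRingAut Gal(AlgebraicClosure F/F) (AlgebraicClosure F) σ)
      hz.pow_eq_one
  have h3 := chi_toZModPow' l g h1 (a := ((chiF l F σ : ℤ_[l]).toZModPow n).val)
    (by rw [h, h2, map_pow])
  have : NeZero (l ^ n) := ⟨pow_ne_zero _ hl.out.ne_zero⟩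
  rw [h3, ZMod.natCast_zmod_val]

/-- the cyclotomic character as a homomorphism -/
noncomputable def chiH (l : ℕ) [Fact l.Prime] : Gal(PadicAlgCl l/ℚ_[l]) →* ℤ_[l]ˣ where
  toFun := chi l
  map_one' := chi_one
  map_mul' := chi_mul

/-- `D_dR = 0` for the half twist, at all places above `l` -/
theorem dR_zero (ι : AlgebraicClosure F →+* PadicAlgCl l)
    (b : PadicAlgCl l ⊗[ℚ_[l]] Localization (genSub 𝓞_ℂ_[l] l))
    (hb : ∀ (g : Gal(PadicAlgCl l/ℚ_[l])) (σ : Gal(AlgebraicClosure F/F)),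
      (∀ x, g (ι x) = ι (σ x)) →
      (rho l F σ : PadicAlgCl l) •
        LinearMap.lTensor (PadicAlgCl l) (bdrAlg l (intMap l g)).toLinearMap b = b) : b = 0 := by
  classical
  let H : Subgroup Gal(PadicAlgCl l/ℚ_[l]) := fixG ι ⊓ (UU (4 : ℤ_[l]) four_ne).comap (chiH l)
  have h1 : (fixG ι).FiniteIndex := finiteIndex_fixG ι
  have h2 : ((UU (4 : ℤ_[l]) four_ne).comap (chiH l)).FiniteIndex := by
    have h4 : (UU (4 : ℤ_[l]) four_ne).IsFiniteRelIndex (chiH l).range :=
      Subgroup.isFiniteRelIndex_of_finiteIndex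
    refine ⟨?_⟩
    rw [Subgroup.index_comap]
    exact h4.relIndex_ne_zero
  have h3 : H.FiniteIndex := inferInstanceAs (_ ⊓ _ : Subgroup _).FiniteIndex
  refine tensor_zero H
    (fun g => if h : chi l g ∈ UU (4 : ℤ_[l]) four_ne then psi0 ⟨chi l g, h⟩ else 1) ?_ b ?_
  · intro g hg
    have hg2 : chi l g ∈ UU (4 : ℤ_[l]) four_ne := hg.2
    simp only [dif_pos hg2]
    exact psi0_sq ⟨chi l g, hg2⟩
  · intro g hg
    have hg2 : chi l g ∈ UU (4 : ℤ_[l]) four_ne := hg.2
    simp only [dif_pos hg2]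
    obtain ⟨σ, hσ⟩ := exists_sigma ι hg.1
    have h4 := hb g σ hσ
    have h5 : (rho l F σ : PadicAlgCl l) =
        algebraMap ℚ_[l] (PadicAlgCl l) ((psi0 ⟨chi l g, hg2⟩ : ℤ_[l]) : ℚ_[l]) := by
      change ((psi (chiF l F σ) : (PadicAlgCl l)ˣ) : PadicAlgCl l) = _
      rw [← chi_compat ι hσ, psi_eq hg2, coe_iot]
    rw [h5, algebraMap_smul] at h4
    exact h4

end Pool.Agent.R377
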