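import Pool.Agent.R377.KerTheta

/-!
The action of the Galois group on the generator of `ker θ`.
-/

set_option linter.unusedSectionVars false

namespace Pool.Agent.R377

open Pool.Agent.W292.FM Ideal WittVector

variable {p : ℕ} [hp : Fact p.Prime]

theorem om_ne_zero : om p ≠ 0 := by
  intro h
  have h1 := norm_coeff_om (p := p)
  have h2 : (om p).coeff 0 = 0 := by rw [h, WittVector.zero_coeff]
  rw [h2] at h1
  have h5 : ((0 : TT p).untilt : ℂ_[p]) = 0 := by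
    have h6 : ((0 : TT p).untilt) = 0 := by
      rw [← fontaineTheta_teichmuller, WittVector.teichmuller_zero, map_zero]
    rw [h6]; rfl
  rw [h5, norm_zero] at h1
  exact (norm_p_pos p).ne h1

/-- `θ` with values in `ℂ_p` -/
noncomputable def th : AI p →+* ℂ_[p] := (𝓞_ℂ_[p]).subtype.comp (fontaineTheta 𝓞_ℂ_[p] p)

theorem th_apply (x : AI p) : th x = ((fontaineTheta 𝓞_ℂ_[p] p x : 𝓞_ℂ_[p]) : ℂ_[p]) := rfl

theorem th_eq_zero {x : AI p} (h : th x = 0) : fontaineTheta 𝓞_ℂ_[p] p x = 0 := Subtype.ext h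

theorem norm_th_le (x : AI p) : ‖th x‖ ≤ 1 := norm_int_le p _

theorem th_om : th (om p) = 0 := by rw [th_apply, theta_om]; rfl

theorem th_teich (y : TT p) : th (teichmuller p y) = (y.untilt : ℂ_[p]) := by
  rw [th_apply, fontaineTheta_teichmuller]

/-- the action of the Galois group on `A_inf` -/
noncomputable def gA (g : Gal(PadicAlgCl p/ℚ_[p])) : AI p →+* AI p :=
  WittVector.map (tiltMap p (intMap p g))

theorem th_gA (g : Gal(PadicAlgCl p/ℚ_[p])) (x : AI p) : th (gA g x) = cpMap p g (th x) := by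
  rw [th_apply, gA, theta_map]; rfl

theorem gA_teich (g : Gal(PadicAlgCl p/ℚ_[p])) (y : TT p) :
    gA g (teichmuller p y) = teichmuller p (tiltMap p (intMap p g) y) :=
  WittVector.map_teichmuller p _ _

theorem exists_ug (g : Gal(PadicAlgCl p/ℚ_[p])) : ∃ u : AI p, gA g (om p) = om p * u := by
  obtain ⟨u, hu⟩ := om_dvd (x := gA g (om p)) (th_eq_zero (by rw [th_gA, th_om, map_zero]))
  exact ⟨u, hu⟩

/-- `g ω = ω u_g` -/
noncomputable def ug (g : Gal(PadicAlgCl p/ℚ_[p])) : AI p := (exists_ug g).choose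

theorem gA_om (g : Gal(PadicAlgCl p/ℚ_[p])) : gA g (om p) = om p * ug g := (exists_ug g).choose_spec

/-- the derivative of `[y] - 1` along `ω` is `c` -/
def IsL (y : TT p) (c : ℂ_[p]) : Prop := ∃ r : AI p, teichmuller p y - 1 = om p * r ∧ th r = c

theorem IsL.th_one {y : TT p} {c : ℂ_[p]} (h : IsL y c) : th (teichmuller p y) = 1 := by
  obtain ⟨r, hr, -⟩ := h
  have := congrArg th hr
  rw [map_sub, map_mul, th_om, zero_mul, map_one, sub_eq_zero] at this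
  exact this

theorem IsL.norm_le {y : TT p} {c : ℂ_[p]} (h : IsL y c) : ‖c‖ ≤ 1 := by
  obtain ⟨r, -, rfl⟩ := h
  exact norm_th_le r

theorem IsL.mul {y y' : TT p} {c c' : ℂ_[p]} (h : IsL y c) (h' : IsL y' c') :
    IsL (y * y') (c + c') := by
  have h1 := h'.th_one
  obtain ⟨r, hr, hc⟩ := h
  obtain ⟨r', hr', hc'⟩ := h'
  refine ⟨r * teichmuller p y' + r', ?_, ?_⟩
  · rw [map_mul, mul_add, ← mul_assoc, ← hr, ← hr']
    ring
  · rw [map_add, map_mul, h1, hc, hc', mul_one]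

theorem IsL.one : IsL (1 : TT p) 0 := ⟨0, by rw [map_one]; ring, map_zero _⟩

theorem IsL.pow {y : TT p} {c : ℂ_[p]} (h : IsL y c) (n : ℕ) : IsL (y ^ n) (n * c) := by
  induction n with
  | zero => simpa using IsL.one
  | succ n ih =>
    have := ih.mul h
    rw [← pow_succ] at this
    convert this using 1
    push_cast
    ring

theorem IsL.unique {y : TT p} {c c' : ℂ_[p]} (h : IsL y c) (h' : IsL y c') : c = c' := by
  obtain ⟨r, hr, rfl⟩ := h
  obtain ⟨r', hr', rfl⟩ := h'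
  rw [hr] at hr'
  rw [mul_left_cancel₀ om_ne_zero hr']

theorem exists_isL {y : TT p} (h : y.untilt = 1) : ∃ c, IsL y c := by
  obtain ⟨r, hr⟩ := om_dvd (x := teichmuller p y - 1)
    (by rw [map_sub, fontaineTheta_teichmuller, h, map_one, sub_self])
  exact ⟨_, r, hr, rfl⟩

theorem zi_pow (n : ℕ) : (zi n : 𝓞_ℂ_[p]) ^ p ^ n = 1 := by
  have h := pow_ppow_eq (a := (zi : ℕ → 𝓞_ℂ_[p])) zi_succ n
  rw [h, zi_zero]

theorem zi_pow_mod (n m : ℕ) : (zi n : 𝓞_ℂ_[p]) ^ (m % p ^ n) = zi n ^ m := by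
  conv_rhs => rw [← Nat.mod_add_div m (p ^ n), pow_add, pow_mul, zi_pow, one_pow, mul_one]

theorem zi_pow_congr {n a b : ℕ} (h : (a : ZMod (p ^ n)) = b) : (zi n : 𝓞_ℂ_[p]) ^ a = zi n ^ b := by
  rw [ZMod.natCast_eq_natCast_iff] at h
  rw [← zi_pow_mod n a, h, zi_pow_mod]

theorem toZModPow_succ_val (a : ℤ_[p]) (n : ℕ) :
    (((PadicInt.toZModPow (n + 1) a).val : ℕ) : ZMod (p ^ n)) = PadicInt.toZModPow n a := by
  have h := PadicInt.zmod_cast_comp_toZModPow (p := p) n (n + 1) (Nat.le_succ n)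
  have h1 := congrArg (fun f : ℤ_[p] →+* ZMod (p ^ n) => f a) h
  simp only [RingHom.comp_apply, ZMod.castHom_apply] at h1
  rw [← h1]
  have : NeZero (p ^ (n + 1)) := ⟨pow_ne_zero _ hp.out.ne_zero⟩
  exact ZMod.natCast_val _

/-- the element `ε ^ a` of the tilt -/
noncomputable def ep (a : ℤ_[p]) : TT p :=
  mkT (fun n => zi n ^ (PadicInt.toZModPow n a).val) fun n => by
    rw [← pow_mul, mul_comm, pow_mul, zi_succ]
    apply zi_pow_congr
    have : NeZero (p ^ n) := ⟨pow_ne_zero _ hp.out.ne_zero⟩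
    rw [toZModPow_succ_val, ZMod.natCast_zmod_val]

theorem coeff_ep (a : ℤ_[p]) (n : ℕ) : PreTilt.coeff n (ep a) =
    Ideal.Quotient.mk (span {(p : 𝓞_ℂ_[p])}) (zi n ^ (PadicInt.toZModPow n a).val) := rfl

theorem ep_add (a b : ℤ_[p]) : ep (a + b) = ep a * ep b := by
  refine Perfection.ext fun n => ?_
  change PreTilt.coeff n _ = PreTilt.coeff n _
  rw [map_mul, coeff_ep, coeff_ep, coeff_ep, ← map_mul, ← pow_add]
  congr 1
  apply zi_pow_congr
  have : NeZero (p ^ n) := ⟨pow_ne_zero _ hp.out.ne_zero⟩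
  push_cast
  rw [ZMod.natCast_zmod_val, ZMod.natCast_zmod_val, ZMod.natCast_zmod_val, map_add]

theorem ep_zero : ep (0 : ℤ_[p]) = 1 := by
  refine Perfection.ext fun n => ?_
  change PreTilt.coeff n _ = PreTilt.coeff n _
  rw [coeff_ep, map_zero, ZMod.val_zero, pow_zero, map_one, map_one]

theorem ep_natMul (n : ℕ) (a : ℤ_[p]) : ep ((n : ℤ_[p]) * a) = ep a ^ n := by
  induction n with
  | zero => simp [ep_zero]
  | succ n ih =>
    rw [pow_succ, ← ih, ← ep_add]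
    congr 1
    push_cast
    ring

theorem untilt_ep (a : ℤ_[p]) : (ep a).untilt = 1 := by
  rw [ep, untilt_mkT, zi_zero, one_pow]

theorem ep_one : ep (1 : ℤ_[p]) = e1 p ^ p := by
  refine Perfection.ext fun n => ?_
  change PreTilt.coeff n _ = PreTilt.coeff n _
  have h1 : PreTilt.coeff n (e1 p ^ p) = Ideal.Quotient.mk _ (zi n) := by
    have h2 : PreTilt.coeff n (e1 p) = Ideal.Quotient.mk _ (zi (n + 1)) := rfl
    rw [map_pow, h2, ← map_pow, zi_succ]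
  rw [coeff_ep, h1]
  congr 1
  conv_rhs => rw [← pow_one (zi n)]
  apply zi_pow_congr
  have : NeZero (p ^ n) := ⟨pow_ne_zero _ hp.out.ne_zero⟩
  rw [ZMod.natCast_zmod_val, map_one, Nat.cast_one]

/-- `π = ζ_p - 1` -/
noncomputable def piC (p : ℕ) [hp : Fact p.Prime] : ℂ_[p] := ((zi 1 : 𝓞_ℂ_[p]) : ℂ_[p]) - 1

theorem piC_ne_zero : piC p ≠ 0 := by
  intro h
  have h1 := norm_zi_sub_one (p := p) 0
  rw [zero_add] at h1
  change ‖piC p‖ ^ _ = _ at h1
  have hp2 : 2 ≤ p := hp.out.two_le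
  rw [h, norm_zero, zero_pow (by rw [pow_zero, one_mul]; omega)] at h1
  exact (norm_p_pos p).ne h1

theorem th_e1 : th (teichmuller p (e1 p) - 1) = piC p := by
  rw [map_sub, th_teich, untilt_e1, map_one]; rfl

theorem e1_rel : teichmuller p (ep (1 : ℤ_[p])) - 1 = om p * (teichmuller p (e1 p) - 1) := by
  rw [ep_one, map_pow, om, geom_sum_mul]

theorem isL_ep_one : IsL (ep (1 : ℤ_[p])) (piC p) := ⟨_, e1_rel, th_e1⟩

theorem coe_zp_natCast (n : ℕ) : algebraMap ℚ_[p] ℂ_[p] ((n : ℤ_[p]) : ℚ_[p]) = (n : ℂ_[p]) := by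
  simp

theorem norm_coe_zp_le (a : ℤ_[p]) : ‖algebraMap ℚ_[p] ℂ_[p] (a : ℚ_[p])‖ ≤ 1 := by
  have h1 := PadicComplex.norm_extends' p (a : ℚ_[p])
  exact (show ‖algebraMap ℚ_[p] ℂ_[p] (a : ℚ_[p])‖ = _ from h1).trans_le (PadicInt.norm_le_one a)

theorem exists_approx (a : ℤ_[p]) (k : ℕ) : ∃ (n : ℕ) (b : ℤ_[p]), a = n + ((p ^ k : ℕ) : ℤ_[p]) * b := by
  have : NeZero (p ^ k) := ⟨pow_ne_zero _ hp.out.ne_zero⟩
  have h1 : a - ((PadicInt.toZModPow k a).val : ℕ) ∈ RingHom.ker (PadicInt.toZModPow (p := p) k) := by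
    rw [RingHom.mem_ker, map_sub, map_natCast, ZMod.natCast_zmod_val, sub_self]
  rw [PadicInt.ker_toZModPow, Ideal.mem_span_singleton] at h1
  obtain ⟨b, hb⟩ := h1
  refine ⟨(PadicInt.toZModPow k a).val, b, ?_⟩
  push_cast
  rw [← hb]
  ring

theorem eq_of_norm_le_pow {x y : ℂ_[p]} (h : ∀ k : ℕ, ‖x - y‖ ≤ ‖(p : ℂ_[p])‖ ^ k) : x = y := by
  rw [← sub_eq_zero, ← norm_le_zero_iff]
  exact ge_of_tendsto' (tendsto_norm_p_pow p) h

theorem isL_ep (a : ℤ_[p]) : IsL (ep a) (algebraMap ℚ_[p] ℂ_[p] (a : ℚ_[p]) * piC p) := by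
  obtain ⟨c, hc⟩ := exists_isL (untilt_ep a)
  convert hc using 1
  symm
  refine eq_of_norm_le_pow fun k => ?_
  obtain ⟨n, b, hab⟩ := exists_approx a k
  obtain ⟨d, hd⟩ := exists_isL (untilt_ep b)
  have h1 : IsL (ep a) ((n : ℂ_[p]) * piC p + ((p ^ k : ℕ) : ℂ_[p]) * d) := by
    rw [hab, ep_add, ep_natMul]
    refine IsL.mul ?_ (hd.pow _)
    have := isL_ep_one (p := p) |>.pow n
    rwa [← ep_natMul, mul_one] at this
  have h2 := hc.unique h1
  have h3 : algebraMap ℚ_[p] ℂ_[p] (a : ℚ_[p]) = n + ((p ^ k : ℕ) : ℂ_[p]) *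
      algebraMap ℚ_[p] ℂ_[p] (b : ℚ_[p]) := by
    rw [hab]
    push_cast
    simp
  have h4 : c - algebraMap ℚ_[p] ℂ_[p] (a : ℚ_[p]) * piC p =
      (p : ℂ_[p]) ^ k * (d - algebraMap ℚ_[p] ℂ_[p] (b : ℚ_[p]) * piC p) := by
    rw [h2, h3]
    push_cast
    ring
  rw [h4, norm_mul, norm_pow]
  refine mul_le_of_le_one_right (pow_nonneg (norm_nonneg _) _) ?_
  have h5 : ‖piC p‖ ≤ 1 := isL_ep_one.norm_le
  rw [sub_eq_add_neg]
  refine (IsUltrametricDist.norm_add_le_max _ _).trans (max_le hd.norm_le ?_)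
  rw [norm_neg, norm_mul]
  exact mul_le_one₀ (norm_coe_zp_le b) (norm_nonneg _) h5

theorem intMap_zi (g : Gal(PadicAlgCl p/ℚ_[p])) (n : ℕ) :
    intMap p g (zi n) = zi n ^ ((chi p g : ℤ_[p]).toZModPow n).val := by
  apply Subtype.ext
  rw [coe_intMap]
  have h : ∀ m : ℕ, (((zi n : 𝓞_ℂ_[p]) ^ m : 𝓞_ℂ_[p]) : ℂ_[p]) = ((zi n : 𝓞_ℂ_[p]) : ℂ_[p]) ^ m := by
    intro m; simp
  rw [h, coe_zi, cpMap_coe, chi_spec' p g (zs_prim p _ n).pow_eq_one, coe_pow']

theorem tiltMap_ep_one (g : Gal(PadicAlgCl p/ℚ_[p])) :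
    tiltMap p (intMap p g) (ep 1) = ep (chi p g : ℤ_[p]) := by
  refine Perfection.ext fun n => ?_
  change PreTilt.coeff n _ = PreTilt.coeff n _
  have : NeZero (p ^ n) := ⟨pow_ne_zero _ hp.out.ne_zero⟩
  have h1 : (zi n : 𝓞_ℂ_[p]) ^ (PadicInt.toZModPow n (1 : ℤ_[p])).val = zi n := by
    conv_rhs => rw [← pow_one (zi n)]
    apply zi_pow_congr
    rw [ZMod.natCast_zmod_val, map_one, Nat.cast_one]
  rw [coeff_tiltMap, coeff_ep, coeff_ep, modPMap_mk, h1, intMap_zi]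

/-- the key relation: `θ(u_g) g(π) = χ(g) π` -/
theorem ug_rel (g : Gal(PadicAlgCl p/ℚ_[p])) :
    th (ug g) * cpMap p g (piC p) = kap p (chi p g) * piC p := by
  have h1 : IsL (ep (chi p g : ℤ_[p])) (th (ug g) * cpMap p g (piC p)) := by
    refine ⟨ug g * gA g (teichmuller p (e1 p) - 1), ?_, ?_⟩
    · rw [← tiltMap_ep_one, ← gA_teich, ← mul_assoc, ← gA_om, ← map_mul, ← e1_rel, map_sub, map_one]
    · rw [map_mul, th_gA, th_e1]
  exact h1.unique (isL_ep _)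

theorem th_ug_ne_zero (g : Gal(PadicAlgCl p/ℚ_[p])) : th (ug g) ≠ 0 := by
  intro h
  have h1 := ug_rel g
  rw [h, zero_mul] at h1
  exact mul_ne_zero (kap_ne_zero p _) piC_ne_zero h1.symm

end Pool.Agent.R377
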