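import Pool.Agent.W292.FM.Cyclo
import Pool.Agent.W292.FM.Galois

/-!
Compatible systems of primitive roots of unity of `p`-power order, the cyclotomic character of
`Gal(Q_p^alg / Q_p)` and its image.
-/

set_option linter.unusedSectionVars false

namespace Pool.Agent.R377

open Pool.Agent.W292.FM Polynomial

section Sys

variable (p : ℕ) [hp : Fact p.Prime] (L : Type*) [Field L] [IsAlgClosed L] [CharZero L]

theorem exists_zsys : ∃ z : ℕ → L, (∀ n, IsPrimitiveRoot (z n) (p ^ n)) ∧ ∀ n, z (n + 1) ^ p = z n := by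
  have hroot : ∀ y : L, ∃ w : L, w ^ p = y := fun y =>
    IsAlgClosed.exists_pow_nat_eq y hp.out.pos
  choose f hf using hroot
  have : NeZero (p : L) := ⟨by exact_mod_cast hp.out.ne_zero⟩
  obtain ⟨ζ, hζ⟩ := HasEnoughRootsOfUnity.exists_primitiveRoot L p
  let a : ℕ → L := fun n => Nat.rec ζ (fun _ y => f y) n
  have ha0 : a 0 = ζ := rfl
  have has : ∀ n, a (n + 1) ^ p = a n := fun n => hf _
  have hprim : ∀ n, IsPrimitiveRoot (a n) (p ^ (n + 1)) := by
    intro n
    induction n with
    | zero => simpa [ha0] using hζ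
    | succ n ih =>
      rw [IsPrimitiveRoot.iff_orderOf]
      apply orderOf_eq_prime_pow
      · intro h
        have h1 : a n ^ p ^ n = 1 := by
          rw [← has n, ← pow_mul, ← pow_succ']
          exact h
        have h2 := ih.dvd_of_pow_eq_one _ h1
        exact absurd (Nat.le_of_dvd (pow_pos hp.out.pos n) h2)
          (not_le.2 (Nat.pow_lt_pow_right hp.out.one_lt (Nat.lt_succ_self n)))
      · have h1 : a (n + 1) ^ p ^ (n + 1 + 1) = a n ^ p ^ (n + 1) := by
          rw [← has n, ← pow_mul, ← pow_succ']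
        rw [h1]
        exact ih.pow_eq_one
  refine ⟨fun n => Nat.casesOn n 1 a, ?_, ?_⟩
  · intro n
    cases n with
    | zero => simp
    | succ n => exact hprim n
  · intro n
    cases n with
    | zero =>
      change a 0 ^ p = 1
      simpa using (hprim 0).pow_eq_one
    | succ n => exact has n

/-- a compatible system of primitive `p ^ n`-th roots of unity -/
noncomputable def zs : ℕ → L := (exists_zsys p L).choose

theorem zs_prim (n : ℕ) : IsPrimitiveRoot (zs p L n) (p ^ n) := (exists_zsys p L).choose_spec.1 n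

theorem zs_succ (n : ℕ) : zs p L (n + 1) ^ p = zs p L n := (exists_zsys p L).choose_spec.2 n

theorem zs_add (n k : ℕ) : zs p L (n + k) ^ p ^ k = zs p L n := by
  induction k with
  | zero => simp
  | succ k ih =>
    rw [pow_succ', pow_mul, ← add_assoc, zs_succ, ih]

end Sys

section Chi

variable (p : ℕ) [hp : Fact p.Prime] (L : Type*) [Field L] [IsAlgClosed L] [CharZero L]

instance hasEnough (n : ℕ) : HasEnoughRootsOfUnity L (p ^ n) := by
  have : NeZero ((p ^ n : ℕ) : L) := ⟨by exact_mod_cast (pow_ne_zero _ hp.out.ne_zero)⟩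
  infer_instance

variable {L} in
theorem chi_spec (g : L ≃+* L) {n : ℕ} {t : L} (ht : t ^ p ^ n = 1) :
    g t = t ^ ((cyclotomicCharacter L p g : ℤ_[p]).toZModPow n).val :=
  cyclotomicCharacter.spec p g t ht

variable {L} in
/-- The cyclotomic character is determined by the action on the roots of unity. -/
theorem chi_toZModPow (g : L ≃+* L) {n a : ℕ} {t : L} (ht : IsPrimitiveRoot t (p ^ n))
    (h : g t = t ^ a) : (cyclotomicCharacter L p g : ℤ_[p]).toZModPow n = (a : ZMod (p ^ n)) := by
  have : NeZero (p ^ n) := ⟨pow_ne_zero _ hp.out.ne_zero⟩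
  have h1 := chi_spec p g ht.pow_eq_one
  rw [h] at h1
  have h2 : a % p ^ n = ((cyclotomicCharacter L p g : ℤ_[p]).toZModPow n).val := by
    refine ht.pow_inj (Nat.mod_lt _ (Nat.pos_of_neZero _)) (ZMod.val_lt _) ?_
    rw [← h1, ht.eq_orderOf, pow_mod_orderOf]
  rw [← ZMod.natCast_zmod_val ((cyclotomicCharacter L p g : ℤ_[p]).toZModPow n), ← h2]
  simp

end Chi

end Pool.Agent.R377
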