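import Pool.Agent.R377.Roots

/-!
Tate's theorem: an element `c` of `ℂ_p` with `g c = χ(g) ^ J c` for all `g` in `Gal(Q_p^alg / Q_p)`
vanishes if `J ≠ 0`.
-/

set_option linter.unusedSectionVars false

namespace Pool.Agent.R377

open Pool.Agent.W292.FM Polynomial

variable (p : ℕ) [hp : Fact p.Prime]

/-- the `p`-adic cyclotomic character of `Gal(Q_p^alg / Q_p)` -/
noncomputable def chi (g : Gal(PadicAlgCl p/ℚ_[p])) : ℤ_[p]ˣ :=
  cyclotomicCharacter (PadicAlgCl p) p (g : PadicAlgCl p ≃+* PadicAlgCl p)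

variable {p}

theorem aeval_taylor (f : ℚ_[p][X]) (z : PadicAlgCl p) :
    aeval (z - 1) (taylor 1 f) = aeval z f := by
  rw [taylor_apply, aeval_comp]
  simp

/-- `f(z)` bounds the coefficients of `f` at `z - 1`. -/
theorem norm_coeff_taylor {z : PadicAlgCl p} {n : ℕ} (hz : IsPrimitiveRoot z (p ^ (n + 1)))
    (f : ℚ_[p][X]) (hf : f.natDegree < Nat.totient (p ^ (n + 1))) (i : ℕ)
    (hi : i < Nat.totient (p ^ (n + 1))) :
    ‖(taylor 1 f).coeff i‖ ≤ p * ‖aeval z f‖ := by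
  have h1 : aeval z f = ∑ j ∈ Finset.range (Nat.totient (p ^ (n + 1))),
      algebraMap ℚ_[p] (PadicAlgCl p) ((taylor 1 f).coeff j) * (z - 1) ^ j := by
    rw [← aeval_taylor, aeval_eq_sum_range' (by rw [natDegree_taylor]; exact hf)]
    simp only [Algebra.smul_def]
  have h2 := norm_term_le hz (fun j => (taylor 1 f).coeff j) hi
  rw [← h1, norm_mul, norm_pow] at h2
  have h3 : ‖algebraMap ℚ_[p] (PadicAlgCl p) ((taylor 1 f).coeff i)‖ = ‖(taylor 1 f).coeff i‖ :=
    PadicAlgCl.norm_extends p _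
  rw [h3] at h2
  have h4 := norm_sub_one_pow_totient hz
  have hp0 : (0 : ℝ) < p := by exact_mod_cast hp.out.pos
  have h5 : ‖z - 1‖ ≤ 1 := by
    by_contra h
    push Not at h
    have h6 := one_lt_pow₀ h (Nat.totient_pos.2 (pow_pos hp.out.pos (n + 1))).ne'
    rw [h4] at h6
    exact absurd (inv_le_one_of_one_le₀ (by exact_mod_cast hp.out.one_lt.le)) (not_le.2 h6)
  have h6 : (p : ℝ)⁻¹ ≤ ‖z - 1‖ ^ i := by
    rw [← h4]
    exact pow_le_pow_of_le_one (norm_nonneg _) h5 hi.le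
  have h7 : ‖(taylor 1 f).coeff i‖ * (p : ℝ)⁻¹ ≤ ‖aeval z f‖ :=
    (mul_le_mul_of_nonneg_left h6 (norm_nonneg _)).trans h2
  rw [← div_eq_mul_inv, div_le_iff₀ hp0] at h7
  linarith

theorem minpoly_eq {z : PadicAlgCl p} {n : ℕ} (hz : IsPrimitiveRoot z (p ^ (n + 1))) :
    minpoly ℚ_[p] z = cyclotomic (p ^ (n + 1)) ℚ_[p] := by
  have hint : IsIntegral ℚ_[p] z := Algebra.IsIntegral.isIntegral z
  have hpos : 0 < p ^ (n + 1) := pow_pos hp.out.pos _
  have hdvd : minpoly ℚ_[p] z ∣ cyclotomic (p ^ (n + 1)) ℚ_[p] := by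
    apply minpoly.dvd
    rw [aeval_def, ← eval_map, map_cyclotomic]
    exact hz.isRoot_cyclotomic hpos
  symm
  refine (eq_of_monic_of_dvd_of_natDegree_le (minpoly.monic hint)
    (cyclotomic.monic _ _) hdvd ?_)
  rw [natDegree_cyclotomic]
  by_contra h
  push Not at h
  have h0 : taylor 1 (minpoly ℚ_[p] z) = 0 := by
    ext i
    rw [coeff_zero]
    rcases lt_or_ge i (Nat.totient (p ^ (n + 1))) with hi | hi
    · have := norm_coeff_taylor hz _ h i hi
      rw [minpoly.aeval, norm_zero, mul_zero] at this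
      exact norm_le_zero_iff.1 this
    · apply coeff_eq_zero_of_natDegree_lt
      rw [natDegree_taylor]
      omega
  have h1 : minpoly ℚ_[p] z = 0 := by
    apply taylor_injective (1 : ℚ_[p])
    rw [h0, map_zero]
  exact minpoly.ne_zero hint h1

theorem exists_gal {z : PadicAlgCl p} {n : ℕ} (hz : IsPrimitiveRoot z (p ^ (n + 1))) {a : ℕ}
    (ha : a.Coprime p) : ∃ g : Gal(PadicAlgCl p/ℚ_[p]), g z = z ^ a := by
  have hza : IsPrimitiveRoot (z ^ a) (p ^ (n + 1)) :=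
    hz.pow_of_coprime a (Nat.Coprime.pow_right _ ha)
  have h : IsConjRoot ℚ_[p] (z ^ a) z := by
    rw [IsConjRoot, minpoly_eq hz, minpoly_eq hza]
  exact isConjRoot_iff_exists_algEquiv.1 h

end Pool.Agent.R377
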