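import Pool.Agent.R377.TateThm

/-!
Tate's theorem on the invariants of `ℂ_p(J)`, `J ≠ 0`.
-/

set_option linter.unusedSectionVars false

namespace Pool.Agent.R377

open Pool.Agent.W292.FM Polynomial

variable (p : ℕ) [hp : Fact p.Prime]

/-- a `p`-adic unit as an element of `ℂ_p` -/
noncomputable def kap : ℤ_[p]ˣ →* ℂ_[p] where
  toFun u := algebraMap ℚ_[p] ℂ_[p] ((u : ℤ_[p]) : ℚ_[p])
  map_one' := by simp
  map_mul' u v := by simp

theorem kap_apply (u : ℤ_[p]ˣ) : kap p u = algebraMap ℚ_[p] ℂ_[p] ((u : ℤ_[p]) : ℚ_[p]) := rfl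

theorem norm_kap (u : ℤ_[p]ˣ) : ‖kap p u‖ = 1 := by
  rw [kap_apply]
  have h1 := PadicComplex.norm_extends' p (((u : ℤ_[p]) : ℚ_[p]))
  have h2 : ‖((u : ℤ_[p]) : ℚ_[p])‖ = 1 := by
    rw [← PadicInt.norm_def]
    exact PadicInt.isUnit_iff.1 u.isUnit
  exact (show ‖algebraMap ℚ_[p] ℂ_[p] ((u : ℤ_[p]) : ℚ_[p])‖ = _ from h1).trans h2

theorem kap_ne_zero (u : ℤ_[p]ˣ) : kap p u ≠ 0 := by
  rw [← norm_pos_iff, norm_kap]
  exact zero_lt_one

theorem cpMap_kap (σ : Gal(PadicAlgCl p/ℚ_[p])) (u : ℤ_[p]ˣ) : cpMap p σ (kap p u) = kap p u :=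
  cpMap_algebraMap p σ _

theorem kap_zpow (u : ℤ_[p]ˣ) (J : ℤ) : kap p (u ^ J) = kap p u ^ J := by
  have h : ∀ n : ℕ, kap p (u ^ n) = kap p u ^ n := fun n => map_pow _ _ _
  cases J with
  | ofNat n => simpa using h n
  | negSucc n =>
    rw [zpow_negSucc, zpow_negSucc, ← h]
    apply eq_inv_of_mul_eq_one_left
    rw [← map_mul, inv_mul_cancel, map_one]

theorem gal_mem_adjoin (γ : Gal(PadicAlgCl p/ℚ_[p])) {z : PadicAlgCl p}
    (hz : γ z ∈ IntermediateField.adjoin ℚ_[p] {z}) {x : PadicAlgCl p}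
    (hx : x ∈ IntermediateField.adjoin ℚ_[p] {z}) : γ x ∈ IntermediateField.adjoin ℚ_[p] {z} := by
  have h : IntermediateField.adjoin ℚ_[p] {z} ≤
      (IntermediateField.adjoin ℚ_[p] {z}).comap (γ : PadicAlgCl p →ₐ[ℚ_[p]] PadicAlgCl p) := by
    rw [IntermediateField.adjoin_le_iff, Set.singleton_subset_iff]
    exact hz
  exact h hx

/-- **Tate's theorem**: `H^0(Gal(Q_p^alg / Q_p), ℂ_p(-J)) = 0` for `J ≠ 0`. -/
theorem tate (c : ℂ_[p]) (J : ℤ) (hJ : J ≠ 0)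
    (h : ∀ σ : Gal(PadicAlgCl p/ℚ_[p]), cpMap p σ c = kap p (chi p σ ^ J) * c) : c = 0 := by
  by_contra hc
  have hc0 : 0 < ‖c‖ := norm_pos_iff.2 hc
  have hp1 : (1 : ℝ) < p := one_lt_p p
  have hp0 : (0 : ℝ) < p := by linarith
  have hker : ∀ σ, chi p σ = 1 → cpMap p σ c = c := by
    intro σ hσ
    rw [h, hσ, one_zpow, map_one, one_mul]
  set η : ℝ := ‖c‖ / (2 * p) with hη
  have hη0 : 0 < η := by positivity
  obtain ⟨n, β₀, hβ₀, hcβ₀⟩ := approx p c hker η hη0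
  -- the element `γ`
  have hJn : 0 < ‖((J.natAbs : ℕ) : ℤ_[p])‖ := by
    rw [norm_pos_iff]
    exact_mod_cast (Int.natAbs_ne_zero.2 hJ)
  obtain ⟨k₀, hk₀⟩ := PadicInt.exists_pow_neg_lt p hJn
  obtain ⟨γ, hγ1, hγ2, hγ3⟩ := exists_small p (max n k₀)
  have hpow : ∀ {a b : ℕ}, a ≤ b → (p : ℝ) ^ (-(b : ℕ) : ℤ) ≤ (p : ℝ) ^ (-(a : ℕ) : ℤ) := by
    intro a b hab
    apply zpow_le_zpow_right₀ hp1.le
    omega
  have hlam : chi p γ ^ J ≠ 1 := by
    refine zpow_ne_one' p hγ1 ?_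
    refine lt_of_le_of_lt (hγ3.trans (hpow ?_)) hk₀
    omega
  have hγn : (chi p γ : ℤ_[p]).toZModPow (n + 1) = 1 := by
    have h1 : ‖(chi p γ : ℤ_[p]) - 1‖ ≤ (p : ℝ) ^ (-(n + 1 : ℕ) : ℤ) :=
      hγ3.trans (hpow (by omega))
    rw [PadicInt.norm_le_pow_iff_mem_span_pow, ← PadicInt.ker_toZModPow, RingHom.mem_ker, map_sub,
      map_one, sub_eq_zero] at h1
    exact h1
  set lam : ℚ_[p] := (((chi p γ ^ J : ℤ_[p]ˣ) : ℤ_[p]) : ℚ_[p]) with hlamdef
  have hμ : 0 < ‖1 - lam‖ := by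
    rw [norm_pos_iff, sub_ne_zero]
    intro h1
    apply hlam
    apply Units.ext
    apply Subtype.ext
    exact h1.symm
  set δ : ℝ := min η (η * ‖1 - lam‖) with hδ
  have hδ0 : 0 < δ := lt_min hη0 (by positivity)
  obtain ⟨k, β, hβ, hcβ⟩ := approx p c hker δ hδ0
  set z := zs p (PadicAlgCl p) (n + 1 + k) with hzdef
  have hz : IsPrimitiveRoot z (p ^ (n + 1 + k)) := zs_prim p _ _
  have hz' : IsPrimitiveRoot z (p ^ (n + k + 1)) := by
    rw [show n + k + 1 = n + 1 + k by ring]; exact hz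
  have hex : ∀ i : ℕ, ∃ g : Gal(PadicAlgCl p/ℚ_[p]), g z = z ^ (1 + i * p ^ (n + 1)) := by
    intro i
    refine exists_gal hz' ?_
    rw [Nat.coprime_comm, Nat.Prime.coprime_iff_not_dvd hp.out]
    intro h5
    have h7 := (Nat.dvd_add_left (Dvd.dvd.mul_left (dvd_pow_self p (Nat.succ_ne_zero n)) i)).1 h5
    exact hp.out.one_lt.ne' (Nat.dvd_one.1 h7)
  choose g hg using hex
  have hg' : ∀ i < p ^ k, g i z = z ^ (1 + i * p ^ (n + 1)) := fun i _ => hg i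
  have hKm : Kn p k ≤ IntermediateField.adjoin ℚ_[p] {z} := Kn_mono p (by omega : k ≤ n + 1 + k)
  have hKn : Kn p n ≤ IntermediateField.adjoin ℚ_[p] {z ^ p ^ k} := by
    rw [hzdef, zs_add]
    exact Kn_mono p (Nat.le_succ n)
  have hβm : β ∈ IntermediateField.adjoin ℚ_[p] {z} := hKm hβ
  have hβ₀m : β₀ ∈ IntermediateField.adjoin ℚ_[p] {z} :=
    (Kn_mono p (by omega : n ≤ n + 1 + k)) hβ₀
  -- the action of `γ` on `z`
  obtain ⟨d, hd⟩ : ∃ d : ℕ, γ z = z ^ (1 + p ^ (n + 1) * d) := by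
    have h1 := chi_spec' p γ hz.pow_eq_one
    set a := ((chi p γ : ℤ_[p]).toZModPow (n + 1 + k)).val with ha
    have h2 : γ (zs p (PadicAlgCl p) (n + 1)) = zs p (PadicAlgCl p) (n + 1) ^ a := by
      rw [← zs_add p (PadicAlgCl p) (n + 1) k, map_pow, ← hzdef, h1, ← pow_mul, ← pow_mul, mul_comm]
    have h3 := chi_toZModPow' p γ (zs_prim p (PadicAlgCl p) (n + 1)) h2
    rw [hγn] at h3
    have h4 : 1 ≡ a [MOD p ^ (n + 1)] := by
      rw [← ZMod.natCast_eq_natCast_iff]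
      push_cast
      exact h3
    have h5 : 1 < p ^ (n + 1) := Nat.one_lt_pow (Nat.succ_ne_zero n) hp.out.one_lt
    refine ⟨a / p ^ (n + 1), ?_⟩
    rw [h1]
    congr 1
    have h6 : a % p ^ (n + 1) = 1 := by
      rw [← h4, Nat.mod_eq_of_lt h5]
    have h7 := Nat.mod_add_div a (p ^ (n + 1))
    rw [h6] at h7
    exact h7.symm
  have hγz : γ z ∈ IntermediateField.adjoin ℚ_[p] {z} := by
    rw [hd]
    exact pow_mem (IntermediateField.subset_adjoin _ _ (Set.mem_singleton _)) _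
  have hγβ : γ β ∈ IntermediateField.adjoin ℚ_[p] {z} := gal_mem_adjoin p γ hγz hβm
  -- the estimate
  have hsub : ∀ a b : PadicAlgCl p, ((a - b : PadicAlgCl p) : ℂ_[p]) = (a : ℂ_[p]) - (b : ℂ_[p]) :=
    fun a b => UniformSpace.Completion.coe_sub _ _
  have e1 : ‖γ β - lam • β‖ ≤ δ := by
    rw [← PadicComplex.norm_extends, hsub]
    have h1 : ((lam • β : PadicAlgCl p) : ℂ_[p]) = kap p (chi p γ ^ J) * (β : ℂ_[p]) := by
      rw [Algebra.smul_def, UniformSpace.Completion.coe_mul]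
      rfl
    have h2 : ((γ β : PadicAlgCl p) : ℂ_[p]) - kap p (chi p γ ^ J) * (β : ℂ_[p]) =
        cpMap p γ ((β : ℂ_[p]) - c) + kap p (chi p γ ^ J) * (c - (β : ℂ_[p])) := by
      rw [map_sub, h γ, cpMap_coe]
      ring
    rw [h1, h2]
    refine (IsUltrametricDist.norm_add_le_max _ _).trans (max_le ?_ ?_)
    · rw [norm_cpMap, norm_sub_rev]
      exact hcβ
    · rw [norm_mul, norm_kap, one_mul]
      exact hcβ
  have e2 : ‖1 - lam‖ * ‖avg g (p ^ k) β‖ ≤ p * δ := by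
    have h1 : avg g (p ^ k) (γ β - lam • β) = (1 - lam) • avg g (p ^ k) β := by
      rw [map_sub, map_smul, avg_gal hz hg' γ d hd β hβm, sub_smul, one_smul]
    rw [← norm_smul, ← h1]
    refine (norm_avg_le hz hg' _ (sub_mem hγβ ?_)).trans (mul_le_mul_of_nonneg_left e1 hp0.le)
    rw [Algebra.smul_def]
    exact mul_mem (IntermediateField.algebraMap_mem _ _) hβm
  have e3 : ‖avg g (p ^ k) β‖ ≤ p * η := by
    have h1 : ‖1 - lam‖ * ‖avg g (p ^ k) β‖ ≤ ‖1 - lam‖ * (p * η) := by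
      refine e2.trans ?_
      calc (p : ℝ) * δ ≤ p * (η * ‖1 - lam‖) := mul_le_mul_of_nonneg_left (min_le_right _ _) hp0.le
        _ = ‖1 - lam‖ * (p * η) := by ring
    exact le_of_mul_le_mul_left h1 hμ
  have e4 : ‖avg g (p ^ k) (β - β₀)‖ ≤ p * η := by
    refine (norm_avg_le hz hg' _ (sub_mem hβm hβ₀m)).trans (mul_le_mul_of_nonneg_left ?_ hp0.le)
    rw [← PadicComplex.norm_extends, hsub]
    have h1 : (β : ℂ_[p]) - (β₀ : ℂ_[p]) = (c - (β₀ : ℂ_[p])) - (c - (β : ℂ_[p])) := by ring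
    rw [h1, sub_eq_add_neg]
    refine (IsUltrametricDist.norm_add_le_max _ _).trans (max_le hcβ₀ ?_)
    rw [norm_neg]
    exact hcβ.trans (min_le_left _ _)
  have e5 : ‖β₀‖ ≤ p * η := by
    have h1 : β₀ = avg g (p ^ k) β - avg g (p ^ k) (β - β₀) := by
      rw [map_sub, avg_fix hz hg' β₀ (hKn hβ₀)]
      ring
    rw [h1, sub_eq_add_neg]
    refine (IsUltrametricDist.norm_add_le_max _ _).trans (max_le e3 ?_)
    rw [norm_neg]
    exact e4
  have e6 : ‖c‖ ≤ p * η := by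
    have h1 : c = (c - (β₀ : ℂ_[p])) + (β₀ : ℂ_[p]) := by ring
    rw [h1]
    refine (IsUltrametricDist.norm_add_le_max _ _).trans (max_le ?_ ?_)
    · refine hcβ₀.trans ?_
      nlinarith
    · rw [PadicComplex.norm_extends]
      exact e5
  have e7 : (p : ℝ) * η = ‖c‖ / 2 := by
    rw [hη]
    field_simp
  rw [e7] at e6
  linarith

end Pool.Agent.R377
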