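import Pool.Agent.R377.Avg

/-!
Tate's theorem on the invariants of `ℂ_p(J)`, `J ≠ 0`.
-/

set_option linter.unusedSectionVars false

namespace Pool.Agent.R377

open Pool.Agent.W292.FM Polynomial

variable (p : ℕ) [hp : Fact p.Prime]

/-- the cyclotomic tower -/
noncomputable def Kn (n : ℕ) : IntermediateField ℚ_[p] (PadicAlgCl p) :=
  IntermediateField.adjoin ℚ_[p] {zs p (PadicAlgCl p) n}

theorem zs_mem_Kn (n : ℕ) : zs p (PadicAlgCl p) n ∈ Kn p n :=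
  IntermediateField.subset_adjoin _ _ (Set.mem_singleton _)

theorem Kn_le_succ (n : ℕ) : Kn p n ≤ Kn p (n + 1) := by
  rw [Kn, IntermediateField.adjoin_le_iff, Set.singleton_subset_iff, ← zs_succ]
  exact pow_mem (zs_mem_Kn p (n + 1)) p

theorem Kn_mono : Monotone (Kn p) := monotone_nat_of_le_succ (Kn_le_succ p)

theorem chi_spec' (σ : Gal(PadicAlgCl p/ℚ_[p])) {n : ℕ} {t : PadicAlgCl p} (ht : t ^ p ^ n = 1) :
    σ t = t ^ ((chi p σ : ℤ_[p]).toZModPow n).val :=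
  chi_spec p (σ : PadicAlgCl p ≃+* PadicAlgCl p) ht

theorem chi_toZModPow' (σ : Gal(PadicAlgCl p/ℚ_[p])) {n a : ℕ} {t : PadicAlgCl p}
    (ht : IsPrimitiveRoot t (p ^ n)) (h : σ t = t ^ a) :
    (chi p σ : ℤ_[p]).toZModPow n = (a : ZMod (p ^ n)) :=
  chi_toZModPow p (σ : PadicAlgCl p ≃+* PadicAlgCl p) ht h

theorem chi_eq_one (σ : Gal(PadicAlgCl p/ℚ_[p]))
    (h : ∀ n, σ (zs p (PadicAlgCl p) n) = zs p (PadicAlgCl p) n) : chi p σ = 1 := by
  apply Units.ext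
  refine PadicInt.ext_of_toZModPow.1 fun n => ?_
  rw [chi_toZModPow' p σ (zs_prim p _ n) (a := 1) (by rw [h, pow_one])]
  simp

theorem approx (c : ℂ_[p]) (h : ∀ σ, chi p σ = 1 → cpMap p σ c = c) (η : ℝ) (hη : 0 < η) :
    ∃ n, ∃ β ∈ Kn p n, ‖c - (β : ℂ_[p])‖ ≤ η := by
  have hp1 : (1 : ℝ) < p := one_lt_p p
  have hp0 : (0 : ℝ) < p := by linarith
  have hη' : 0 < η / (p : ℝ) ^ 2 := by positivity
  obtain ⟨α, hα⟩ := (UniformSpace.Completion.denseRange_coe (α := PadicAlgCl p)).exists_dist_lt c hη'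
  rw [dist_eq_norm] at hα
  have hle : η / (p : ℝ) ^ 2 ≤ η := div_le_self hη.le (one_le_pow₀ hp1.le)
  obtain ⟨β, hβ, hβ'⟩ := ax p (⨆ n, Kn p n) α (η / (p : ℝ) ^ 2) hη'.le (by
    intro σ hσ
    have h1 : chi p σ = 1 := chi_eq_one p σ fun n =>
      hσ _ ((le_iSup (Kn p) n) (zs_mem_Kn p n))
    have h2 := h σ h1
    have h3 : ((σ α - α : PadicAlgCl p) : ℂ_[p]) = cpMap p σ ((α : ℂ_[p]) - c) + (c - (α : ℂ_[p])) := by
      rw [map_sub, h2, cpMap_coe]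
      have : ((σ α - α : PadicAlgCl p) : ℂ_[p]) = (σ α : ℂ_[p]) - (α : ℂ_[p]) :=
        UniformSpace.Completion.coe_sub _ _
      rw [this]
      ring
    rw [← PadicComplex.norm_extends, h3]
    refine (IsUltrametricDist.norm_add_le_max _ _).trans (max_le ?_ hα.le)
    rw [norm_cpMap, norm_sub_rev]
    exact hα.le)
  rw [← SetLike.mem_coe, IntermediateField.coe_iSup_of_directed (Kn_mono p).directed_le,
    Set.mem_iUnion] at hβ
  obtain ⟨n, hn⟩ := hβ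
  refine ⟨n, β, hn, ?_⟩
  have h4 : c - (β : ℂ_[p]) = (c - (α : ℂ_[p])) + ((α - β : PadicAlgCl p) : ℂ_[p]) := by
    have : ((α - β : PadicAlgCl p) : ℂ_[p]) = (α : ℂ_[p]) - (β : ℂ_[p]) :=
        UniformSpace.Completion.coe_sub _ _
    rw [this]
    ring
  rw [h4]
  refine (IsUltrametricDist.norm_add_le_max _ _).trans (max_le (hα.le.trans hle) ?_)
  rw [PadicComplex.norm_extends]
  refine hβ'.trans (le_of_eq ?_)
  field_simp

theorem one_add_pow (x : ℤ_[p]) (N : ℕ) : ∃ y : ℤ_[p], (1 + x) ^ N = 1 + N * x + x ^ 2 * y := by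
  induction N with
  | zero => exact ⟨0, by simp⟩
  | succ N ih =>
    obtain ⟨y, hy⟩ := ih
    refine ⟨N + y * (1 + x), ?_⟩
    rw [pow_succ, hy]
    push_cast
    ring

theorem pow_ne_one' {u : ℤ_[p]} (hu : u ≠ 1) {N : ℕ} (h : ‖u - 1‖ < ‖(N : ℤ_[p])‖) : u ^ N ≠ 1 := by
  intro h1
  obtain ⟨y, hy⟩ := one_add_pow p (u - 1) N
  rw [add_sub_cancel, h1] at hy
  have h2 : (u - 1) * ((N : ℤ_[p]) + (u - 1) * y) = 0 := by linear_combination -hy
  have h3 := (mul_eq_zero.1 h2).resolve_left (sub_ne_zero.2 hu)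
  have h4 : (N : ℤ_[p]) = -((u - 1) * y) := by linear_combination h3
  have h5 : ‖(N : ℤ_[p])‖ ≤ ‖u - 1‖ := by
    rw [h4, norm_neg, norm_mul]
    exact mul_le_of_le_one_right (norm_nonneg _) (PadicInt.norm_le_one y)
  exact absurd h (not_lt.2 h5)

theorem zpow_ne_one' {u : ℤ_[p]ˣ} (hu : u ≠ 1) {J : ℤ} (hJ : ‖(u : ℤ_[p]) - 1‖ < ‖((J.natAbs : ℕ) : ℤ_[p])‖) :
    u ^ J ≠ 1 := by
  have h1 : (u : ℤ_[p]) ≠ 1 := fun h => hu (Units.ext h)
  have h2 := pow_ne_one' p h1 hJ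
  have h3 : u ^ J.natAbs ≠ 1 := by
    intro h
    apply h2
    rw [← Units.val_pow_eq_pow_val, h, Units.val_one]
  intro h4
  apply h3
  rcases Int.natAbs_eq J with h5 | h5
  · rw [h5, zpow_natCast] at h4
    exact h4
  · rw [h5, zpow_neg, zpow_natCast, inv_eq_one] at h4
    exact h4

/-- elements of the Galois group with cyclotomic character close to, but not equal to `1` -/
theorem exists_small (M : ℕ) : ∃ γ : Gal(PadicAlgCl p/ℚ_[p]), chi p γ ≠ 1 ∧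
    (chi p γ : ℤ_[p]).toZModPow (M + 1) = 1 ∧ ‖(chi p γ : ℤ_[p]) - 1‖ ≤ (p : ℝ) ^ (-(M + 1 : ℕ) : ℤ) := by
  have hcop : (1 + p ^ (M + 1)).Coprime p := by
    rw [Nat.coprime_comm, Nat.Prime.coprime_iff_not_dvd hp.out]
    intro h5
    have h7 := (Nat.dvd_add_left (dvd_pow_self p (Nat.succ_ne_zero M))).1 h5
    exact hp.out.one_lt.ne' (Nat.dvd_one.1 h7)
  obtain ⟨γ, hγ⟩ := exists_gal (zs_prim p (PadicAlgCl p) (M + 1 + 1)) hcop
  have h1 := chi_toZModPow' p γ (zs_prim p (PadicAlgCl p) (M + 1 + 1)) hγ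
  have h2 : (chi p γ : ℤ_[p]).toZModPow (M + 1) = 1 := by
    have h3 : γ (zs p (PadicAlgCl p) (M + 1)) = zs p (PadicAlgCl p) (M + 1) ^ 1 := by
      rw [pow_one]
      conv_lhs => rw [← zs_succ]
      rw [map_pow, hγ, ← pow_mul, add_mul, one_mul, ← pow_succ, pow_add, zs_succ,
        (zs_prim p (PadicAlgCl p) (M + 1 + 1)).pow_eq_one, mul_one]
    rw [chi_toZModPow' p γ (zs_prim p (PadicAlgCl p) (M + 1)) h3]
    simp
  refine ⟨γ, ?_, h2, ?_⟩
  · intro h3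
    rw [h3, Units.val_one, map_one] at h1
    have h4 : ((p ^ (M + 1) : ℕ) : ZMod (p ^ (M + 1 + 1))) = 0 := by
      have h5 : (1 : ZMod (p ^ (M + 1 + 1))) = 1 + ((p ^ (M + 1) : ℕ) : ZMod (p ^ (M + 1 + 1))) := by
        refine h1.trans ?_
        push_cast
        rfl
      linear_combination -h5
    rw [ZMod.natCast_eq_zero_iff] at h4
    exact absurd (Nat.le_of_dvd (pow_pos hp.out.pos _) h4)
      (not_le.2 (Nat.pow_lt_pow_right hp.out.one_lt (Nat.lt_succ_self _)))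
  · rw [PadicInt.norm_le_pow_iff_mem_span_pow, ← PadicInt.ker_toZModPow, RingHom.mem_ker, map_sub,
      h2, map_one, sub_self]

end Pool.Agent.R377
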